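import Pool.Agent.Y557.NF.CurveMain

/-!
The number of the points of a split rational curve of degree `D` in the line `x + y + z = 0` of the
projective plane over the coordinate lines is at least `D + 2` (helper557).
-/

set_option autoImplicit false

namespace Pool.Agent.Y557.NF

open Finset Polynomial UniqueFactorizationMonoid UniqueFactorizationDomain EuclideanDomain

variable {K : Type} [Field K] [NumberField K]

open Classical in
theorem radical_le {P : Fin 3 → K[X]} (hP : ∀ i, P i ≠ 0) (hs : ∀ i, (P i).Splits) :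
    (radical (P 0 * P 1 * P 2)).natDegree ≤ (rts P).card := by
  have h0 : P 0 * P 1 * P 2 ≠ 0 := mul_ne_zero (mul_ne_zero (hP 0) (hP 1)) (hP 2)
  have hsp : (P 0 * P 1 * P 2).Splits := ((hs 0).mul (hs 1)).mul (hs 2)
  have hdvd : radical (P 0 * P 1 * P 2) ∣ P 0 * P 1 * P 2 := radical_dvd_self
  have hr0 : radical (P 0 * P 1 * P 2) ≠ 0 := radical_ne_zero
  have hrs : (radical (P 0 * P 1 * P 2)).Splits := hsp.of_dvd h0 hdvd
  have hsq : Squarefree (radical (P 0 * P 1 * P 2)) := squarefree_radical
  have hsep : (radical (P 0 * P 1 * P 2)).Separable := PerfectField.separable_iff_squarefree.2 hsq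
  have hnd := nodup_roots hsep
  rw [hrs.natDegree_eq_card_roots, ← Multiset.toFinset_card_of_nodup hnd]
  refine Finset.card_le_card fun r hr => ?_
  rw [Multiset.mem_toFinset] at hr
  have h1 : r ∈ (P 0 * P 1 * P 2).roots := Multiset.mem_of_le (roots.le_of_dvd h0 hdvd) hr
  unfold rts
  rw [Multiset.mem_toFinset, Fin.prod_univ_three]
  exact h1

theorem mason_q {P : Fin 3 → K[X]} (hP : ∀ i, P i ≠ 0) (hs : ∀ i, (P i).Splits)
    (hsum : P 0 + P 1 + P 2 = 0) (hco : IsCoprime (P 0) (P 1)) {D : ℕ}
    (hD : ∀ i, (P i).natDegree ≤ D) (hD' : ∃ i, (P i).natDegree = D) (hD1 : 1 ≤ D) :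
    D + 2 ≤ nz P := by
  classical
  have hr := radical_le hP hs
  have hder : ¬ (derivative (P 0) = 0 ∧ derivative (P 1) = 0 ∧ derivative (P 2) = 0) := by
    rintro ⟨h0, h1, h2⟩
    obtain ⟨i, hi⟩ := hD'
    have h3 : derivative (P i) = 0 := by
      fin_cases i
      · exact h0
      · exact h1
      · exact h2
    have := derivative_eq_zero.1 h3
    omega
  by_cases hU : Unequal P
  · have habc := Polynomial.abc (hP 0) (hP 1) (hP 2) hco hsum
    rcases habc with h | h
    · obtain ⟨i, hi⟩ := hD'
      have h3 : D + 1 ≤ (radical (P 0 * P 1 * P 2)).natDegree := by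
        rw [← hi]
        fin_cases i
        · exact h.1
        · exact h.2.1
        · exact h.2.2
      unfold nz
      rw [if_pos hU]
      omega
    · exact absurd h hder
  · have hdeg : ∀ i, (P i).natDegree = D := by
      obtain ⟨i, hi⟩ := hD'
      intro j
      by_contra hcon
      apply hU
      exact ⟨j, i, by
        have := hD j
        omega⟩
    obtain ⟨w, hw⟩ : ∃ w, w = wronskian (P 0) (P 1) := ⟨_, rfl⟩
    have hbc : IsCoprime (P 1) (P 2) := by
      have e : P 2 = -(P 0 + P 1 * 1) := by
        rw [mul_one]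
        linear_combination hsum
      rw [e, IsCoprime.neg_right_iff]
      exact IsCoprime.add_mul_left_right hco.symm 1
    have hca : IsCoprime (P 2) (P 0) := by
      have e : P 2 = -(P 1 + P 0 * 1) := by
        rw [mul_one]
        linear_combination hsum
      rw [e, IsCoprime.neg_left_iff]
      exact (IsCoprime.add_mul_left_right hco 1).symm
    have hwbc : w = wronskian (P 1) (P 2) := by rw [hw]; exact wronskian_eq_of_sum_zero hsum
    have hdvd : divRadical (P 0 * P 1 * P 2) ∣ w := by
      have h1 := divRadical_dvd_wronskian_left (P 0) (P 1)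
      have h2 := divRadical_dvd_wronskian_right (P 0) (P 1)
      have h3 := divRadical_dvd_wronskian_right (P 1) (P 2)
      rw [← hw] at h1 h2
      rw [← hwbc] at h3
      rw [divRadical_mul (hca.symm.mul_left hbc), divRadical_mul hco]
      exact (hca.divRadical.symm.mul_left hbc.divRadical).mul_dvd
        (hco.divRadical.mul_dvd h1 h2) h3
    have hw0 : w ≠ 0 := by
      intro h0
      apply hder
      rw [h0] at hw hwbc
      obtain ⟨ga, gb⟩ := hco.wronskian_eq_zero_iff.mp hw.symm
      obtain ⟨_, gc⟩ := hbc.wronskian_eq_zero_iff.mp hwbc.symm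
      exact ⟨ga, gb, gc⟩
    -- the Wronskian has small degree
    obtain ⟨l, hl⟩ : ∃ l : K, l = (P 1).leadingCoeff / (P 0).leadingCoeff := ⟨_, rfl⟩
    obtain ⟨g, hg⟩ : ∃ g : K[X], g = P 1 - C l * P 0 := ⟨_, rfl⟩
    have hwg : w = wronskian (P 0) g := by
      rw [hw, hg]
      unfold wronskian
      rw [derivative_sub, derivative_mul, derivative_C]
      ring
    have hlc0 : (P 0).leadingCoeff ≠ 0 := leadingCoeff_ne_zero.2 (hP 0)
    have hlc1 : (P 1).leadingCoeff ≠ 0 := leadingCoeff_ne_zero.2 (hP 1)
    have hl0 : l ≠ 0 := by rw [hl]; exact div_ne_zero hlc1 hlc0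
    have hgd : g.natDegree < D := by
      have h1 : (C l * P 0).natDegree = D := by rw [natDegree_C_mul hl0, hdeg]
      have h2 : g.degree < (P 1).degree := by
        rw [hg]
        refine degree_sub_lt_left ?_ (hP 1) ?_
        · rw [degree_eq_natDegree (hP 1), degree_eq_natDegree (mul_ne_zero (C_ne_zero.2 hl0) (hP 0)),
            h1, hdeg]
        · rw [leadingCoeff_mul, leadingCoeff_C, hl, div_mul_cancel₀ _ hlc0]
      by_cases hg0 : g = 0
      · rw [hg0, natDegree_zero]
        omega
      · have h3 := natDegree_lt_natDegree hg0 h2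
        rwa [hdeg] at h3
    have hwd : w.natDegree + 2 ≤ 2 * D := by
      have h1 := natDegree_wronskian_lt_add (a := P 0) (b := g) (by rw [← hwg]; exact hw0)
      rw [← hwg, hdeg] at h1
      omega
    have habc0 : P 0 * P 1 * P 2 ≠ 0 := mul_ne_zero (mul_ne_zero (hP 0) (hP 1)) (hP 2)
    have h1 : (divRadical (P 0 * P 1 * P 2)).natDegree ≤ w.natDegree :=
      natDegree_le_of_dvd hdvd hw0
    have h2 : 3 * D = (divRadical (P 0 * P 1 * P 2)).natDegree +
        (radical (P 0 * P 1 * P 2)).natDegree := by
      rw [← natDegree_mul (divRadical_ne_zero habc0) radical_ne_zero, mul_comm (divRadical _),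
        radical_mul_divRadical, natDegree_mul (mul_ne_zero (hP 0) (hP 1)) (hP 2),
        natDegree_mul (hP 0) (hP 1), hdeg, hdeg, hdeg]
      ring
    unfold nz
    rw [if_neg hU]
    omega

/-- the fibres of a nonconstant rational curve are finite -/
theorem fibre_bound {n : ℕ} {P : Fin n → K[X]} (hu : ∃ u : Fin n → K[X], ∑ i, u i * P i = 1)
    {D : ℕ} (hD : ∀ i, (P i).natDegree ≤ D) (hD' : ∃ i, (P i).natDegree = D) (hD1 : 1 ≤ D)
    {z : Fin n → K} (hz : z ≠ 0) :
    ∃ s : Finset K, s.card ≤ D ∧ ∀ t c : K, (fun i => (P i).eval t) = c • z → t ∈ s := by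
  classical
  obtain ⟨j, hj⟩ : ∃ j, z j ≠ 0 := by
    by_contra hcon
    push Not at hcon
    exact hz (funext hcon)
  by_cases hall : ∀ i, C (z j) * P i - C (z i) * P j = 0
  · exfalso
    obtain ⟨u, hu⟩ := hu
    have h1 : C (z j) = P j * ∑ i, u i * C (z i) := by
      rw [← mul_one (C (z j)), ← hu, Finset.mul_sum, Finset.mul_sum]
      refine Finset.sum_congr rfl fun i _ => ?_
      linear_combination u i * hall i
    have h2 : IsUnit (P j) := by
      refine isUnit_of_dvd_unit (Dvd.intro _ h1.symm) ?_
      exact isUnit_C.2 (IsUnit.mk0 _ hj)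
    have h3 : (P j).natDegree = 0 := natDegree_eq_zero_of_isUnit h2
    obtain ⟨i, hi⟩ := hD'
    have h4 : C (z j) * P i = C (z i) * P j := by linear_combination hall i
    have h5 : (P i).natDegree = (C (z i) * P j).natDegree := by
      rw [← h4, natDegree_C_mul hj]
    have h6 : (C (z i) * P j).natDegree ≤ 0 := (natDegree_C_mul_le _ _).trans h3.le
    omega
  · push Not at hall
    obtain ⟨i, hi⟩ := hall
    refine ⟨(C (z j) * P i - C (z i) * P j).roots.toFinset, ?_, fun t c htc => ?_⟩
    · refine (Multiset.toFinset_card_le _).trans ((card_roots' _).trans ?_)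
      refine (natDegree_sub_le _ _).trans (max_le ?_ ?_)
      · exact (natDegree_C_mul_le _ _).trans (hD i)
      · exact (natDegree_C_mul_le _ _).trans (hD j)
    · rw [Multiset.mem_toFinset, mem_roots hi, IsRoot.def, eval_sub, eval_mul, eval_mul, eval_C,
        eval_C]
      have e1 := congrFun htc i
      have e2 := congrFun htc j
      rw [Pi.smul_apply, smul_eq_mul] at e1 e2
      rw [e1, e2]
      ring

end Pool.Agent.Y557.NF
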