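import Pool.Agent.Y557.NF.CurveMain

/-!
Functions on the projective line over a number field which are close to the truncated counting
function and to the height: an abstract form of the almost all points theorem (helper557).
-/

set_option autoImplicit false

namespace Pool.Agent.Y557.NF

open NumberField IsDedekindDomain Finset Polynomial
open Pool.Agent.TH876.KR (form counting localHeight localHeight_nonneg localHeight_eq
  localHeight_pos_iff log_Nv_pos' m2 form_le good_finite Good m2_of_good)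
open Pool.Agent.H691R3 Pool.Agent.TH876.Loc
open Pool.Agent.Y728 Pool.Agent.Y728.AK

variable {K : Type} [Field K] [NumberField K] {q : ℕ}

/-- the parameters different from the points -/
def GG (a : Fin q → Fin 2 → K) : Set K := {t | ∀ i, form (a i) ![t, 1] ≠ 0}

/-- the parameters with `R ≤ log X` -/
def AV (a : Fin q → Fin 2 → K) (R : K → ℝ) (X : ℝ) : Set K :=
  {t | t ∈ GG a ∧ R t ≤ Real.log X}

/-- those with a large height -/
def AE (a : Fin q → Fin 2 → K) (R h : K → ℝ) (M c X : ℝ) : Set K :=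
  {t | t ∈ AV a R X ∧ M * R t ≤ h t + c}

/-- sets of primes which are given by the local heights outside `S` -/
theorem bounds_of {S : Set (Pr K)} (hS : S.Finite) (a : Fin q → Fin 2 → K) (B : K → Set (Pr K))
    (hB : ∀ t ∈ GG a, (B t).Finite)
    (hv : ∀ t ∈ GG a, ∀ v ∉ S, v ∈ B t ↔ ∃ j, 0 < localHeight v (a j) ![t, 1]) :
    ∃ c : ℝ, 0 ≤ c ∧ ∀ t ∈ GG a,
      counting S a ![t, 1] ≤ ∑ᶠ v ∈ B t, Real.log (Ideal.absNorm v.asIdeal : ℝ) ∧
      ∑ᶠ v ∈ B t, Real.log (Ideal.absNorm v.asIdeal : ℝ) ≤ counting S a ![t, 1] + c := by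
  classical
  refine ⟨∑ v ∈ hS.toFinset, Real.log (Nv v),
    Finset.sum_nonneg fun v _ => (log_Nv_pos' v).le, fun t ht => ?_⟩
  have hfin : (B t).Finite := hB t ht
  have hset : {v : HeightOneSpectrum (𝓞 K) | v ∉ S ∧ 0 < ∑ i, localHeight v (a i) ![t, 1]} =
      B t \ S := by
    ext v
    rw [Set.mem_ofPred_eq, Set.mem_sdiff, and_comm]
    refine and_congr_left fun hvS => ?_
    rw [hv t ht v hvS]
    constructor
    · intro h
      by_contra hcon
      push Not at hcon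
      have : ∑ i, localHeight v (a i) ![t, 1] ≤ 0 := Finset.sum_nonpos fun i _ => hcon i
      linarith
    · rintro ⟨j, hj⟩
      exact Finset.sum_pos' (fun i _ => localHeight_nonneg v (ht i)) ⟨j, Finset.mem_univ _, hj⟩
  have h1 : ∑ᶠ v ∈ B t, Real.log (Ideal.absNorm v.asIdeal : ℝ) = ∑ᶠ v ∈ B t ∩ S,
      Real.log (Ideal.absNorm v.asIdeal : ℝ) + counting S a ![t, 1] := by
    unfold counting
    rw [hset]
    exact (finsum_mem_inter_add_sdiff S hfin).symm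
  have h2 : 0 ≤ ∑ᶠ v ∈ B t ∩ S, Real.log (Ideal.absNorm v.asIdeal : ℝ) :=
    finsum_nonneg fun v => finsum_nonneg fun _ => (log_Nv_pos' v).le
  have h3 : ∑ᶠ v ∈ B t ∩ S, Real.log (Ideal.absNorm v.asIdeal : ℝ) ≤
      ∑ v ∈ hS.toFinset, Real.log (Nv v) := by
    have hf : (B t ∩ S).Finite := hfin.subset Set.inter_subset_left
    rw [finsum_mem_eq_finite_toFinset_sum _ hf]
    refine Finset.sum_le_sum_of_subset_of_nonneg ?_ fun v _ _ => (log_Nv_pos' v).le
    intro v hv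
    rw [Set.Finite.mem_toFinset] at hv ⊢
    exact hv.2
  constructor <;> linarith

/-- the count from above -/
theorem abs_upper {a : Fin q → Fin 2 → K} (ha : ∀ i j, i ≠ j → form (a i) (a j) ≠ 0)
    (hq : 3 ≤ q) {S : Set (Pr K)} (hS : S.Finite) {R : K → ℝ}
    (hb : ∀ t ∈ GG a, counting S a ![t, 1] ≤ R t) (δ : ℝ) (hδ : 0 < δ) :
    ∃ C : ℝ, ∀ X : ℝ, 1 ≤ X → (AV a R X).Finite ∧
      ((AV a R X).ncard : ℝ) ≤ C * X ^ (2 / (q : ℝ) + δ) := by
  obtain ⟨C, hC⟩ := line_final K S hS q hq a ha δ hδ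
  refine ⟨C, fun X hX => ?_⟩
  obtain ⟨h1, h2⟩ := hC X hX
  have hmaps : ∀ t ∈ AV a R X, toP t ∈ PtsQ S a X := by
    rintro t ⟨ht, hr⟩
    refine ⟨![t, 1], _, rfl, fun i => ht i, ?_⟩
    rw [← Real.le_log_iff_exp_le (by linarith)]
    exact (hb t ht).trans hr
  refine ⟨Set.Finite.of_injOn hmaps toP_inj.injOn h1, le_trans ?_ h2⟩
  exact_mod_cast Set.ncard_le_ncard_of_injOn toP hmaps toP_inj.injOn h1

/-- the points of large height -/
theorem abs_exc {a : Fin q → Fin 2 → K} (ha : ∀ i j, i ≠ j → form (a i) (a j) ≠ 0)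
    (hq : 3 ≤ q) {S : Set (Pr K)} (hS : S.Finite) {R h : K → ℝ}
    (hb : ∀ t ∈ GG a, counting S a ![t, 1] ≤ R t) {D C0 : ℝ} (hD0 : 0 < D)
    (hh : ∀ t ∈ GG a, h t ≤ C0 + D * Height.logHeight₁ t) {M : ℝ} (hM : D / q < M) (c : ℝ) :
    ∃ ν C : ℝ, 0 < ν ∧ 0 ≤ C ∧ ∀ X : ℝ, 1 ≤ X →
      ((AE a R h M c X).ncard : ℝ) ≤ C * X ^ (2 / (q : ℝ) - ν) := by
  classical
  have hq0 : (3 : ℝ) ≤ q := by exact_mod_cast hq
  have hqp : (0 : ℝ) < q := by linarith
  obtain ⟨M1, hM1⟩ : ∃ M1 : ℝ, M1 = (M / D + 1 / q) / 2 := ⟨_, rfl⟩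
  have hMD : 1 / (q : ℝ) < M / D := by
    rw [div_lt_div_iff₀ hqp hD0]
    rw [div_lt_iff₀ hqp] at hM
    linarith
  have hM1a : 1 / (q : ℝ) < M1 := by rw [hM1]; linarith
  have hM1b : M1 < M / D := by rw [hM1]; linarith
  have h1q : 0 < 1 / (q : ℝ) := by positivity
  obtain ⟨ν, C1, hν, hνq, hC1, hexc⟩ := line_exc K S hS q hq a ha (M := M1) hM1a
  obtain ⟨C2, hC2⟩ := line_final K S hS q hq a ha 1 one_pos
  obtain ⟨L, hL⟩ : ∃ L : ℝ, L = (|C0| + |c|) / D / (M / D - M1) := ⟨_, rfl⟩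
  have hfinL : (PtsQ S a (Real.exp L)).Finite := by
    have h1 := (hC2 (max 1 (Real.exp L)) (le_max_left _ _)).1
    refine h1.subset ?_
    rintro P ⟨x, hx, e1, e2, e3⟩
    exact ⟨x, hx, e1, e2, e3.trans (le_max_right _ _)⟩
  obtain ⟨N, hN⟩ : ∃ N : ℝ, N = ((PtsQ S a (Real.exp L)).ncard : ℝ) := ⟨_, rfl⟩
  have hN0 : 0 ≤ N := by rw [hN]; positivity
  refine ⟨ν, C1 + N, hν, by positivity, fun X hX => ?_⟩
  have hX0 : 0 < X := by linarith
  have hfin1 : (ExcQ S a M1 X).Finite := (hC2 X hX).1.subset (ExcQ_sub _ _ _ _)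
  have hmaps : ∀ t ∈ AE a R h M c X, toP t ∈ ExcQ S a M1 X ∪ PtsQ S a (Real.exp L) := by
    rintro t ⟨⟨ht, hr⟩, hlt⟩
    have b1 := hb t ht
    have hcn : 0 ≤ counting S a ![t, 1] := by
      unfold counting
      exact finsum_nonneg fun v => finsum_nonneg fun _ => (log_Nv_pos' v).le
    have hMp : 0 < M := lt_trans (by positivity) hM
    have h1 : M * counting S a ![t, 1] ≤ C0 + D * Height.logHeight₁ t + c :=
      ((mul_le_mul_of_nonneg_left b1 hMp.le).trans hlt).trans (by linarith [hh t ht])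
    have h2 : M / D * counting S a ![t, 1] ≤
        (|C0| + |c|) / D + Height.logHeight₁ t := by
      rw [div_mul_eq_mul_div, div_le_iff₀ hD0, add_mul, div_mul_cancel₀ _ hD0.ne']
      have := le_abs_self C0
      have := le_abs_self c
      linarith
    by_cases hbig : (|C0| + |c|) / D ≤ (M / D - M1) * counting S a ![t, 1]
    · left
      refine ⟨![t, 1], _, rfl, fun i => ht i, ?_, ?_⟩
      · rw [← Real.le_log_iff_exp_le hX0]
        exact b1.trans hr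
      · rw [logHeight_vec]
        linarith
    · right
      rw [not_le] at hbig
      refine ⟨![t, 1], _, rfl, fun i => ht i, ?_⟩
      refine Real.exp_le_exp.2 ?_
      rw [hL, le_div_iff₀ (by linarith)]
      linarith
  have h1 : ((AE a R h M c X).ncard : ℝ) ≤ ((ExcQ S a M1 X).ncard : ℝ) + N := by
    rw [hN]
    exact_mod_cast (Set.ncard_le_ncard_of_injOn toP hmaps toP_inj.injOn
      (hfin1.union hfinL)).trans (Set.ncard_union_le _ _)
  have h2 := hexc X hX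
  have h3 : 1 ≤ X ^ (2 / (q : ℝ) - ν) := by
    refine Real.one_le_rpow hX ?_
    have : 1 / (q : ℝ) ≤ 2 / q := div_le_div_of_nonneg_right (by norm_num) hqp.le
    linarith
  nlinarith

/-- the count from below -/
theorem abs_lower {a : Fin q → Fin 2 → K} (ha : ∀ i j, i ≠ j → form (a i) (a j) ≠ 0)
    (hq : 3 ≤ q) {S : Set (Pr K)} (hS : S.Finite) {R : K → ℝ} {c : ℝ} (hc0 : 0 ≤ c)
    (hb : ∀ t ∈ GG a, counting S a ![t, 1] ≤ R t)
    (hb' : ∀ t ∈ GG a, R t ≤ counting S a ![t, 1] + c) (δ : ℝ) (hδ : 0 < δ) :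
    ∃ X₀ : ℝ, 1 ≤ X₀ ∧ ∀ X : ℝ, X₀ ≤ X →
      X ^ (2 / (q : ℝ) - δ) ≤ ((AV a R X).ncard : ℝ) := by
  classical
  have hq0 : (3 : ℝ) ≤ q := by exact_mod_cast hq
  have hqp : (0 : ℝ) < q := by linarith
  obtain ⟨δ', hδ'⟩ : ∃ δ' : ℝ, δ' = min δ (1 / q) / 2 := ⟨_, rfl⟩
  have h1q : 0 < 1 / (q : ℝ) := by positivity
  have h0 : 0 < δ' := by
    rw [hδ']
    have : 0 < min δ (1 / (q : ℝ)) := lt_min hδ h1q
    positivity
  have hδ1 : 2 * δ' ≤ δ := by rw [hδ']; linarith [min_le_left δ (1 / (q : ℝ))]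
  have hδ2 : 2 * δ' ≤ 1 / q := by rw [hδ']; linarith [min_le_right δ (1 / (q : ℝ))]
  have h21 : 1 / (q : ℝ) ≤ 2 / q := div_le_div_of_nonneg_right (by norm_num) hqp.le
  obtain ⟨X0, hX0, h⟩ := line_low K S hS q hq a ha δ' h0
  obtain ⟨C, hC⟩ := abs_upper ha hq hS hb 1 one_pos
  obtain ⟨Λ, hΛ⟩ : ∃ Λ : ℝ, Λ = (Real.log 2 + c * (2 / q - δ')) / δ' := ⟨_, rfl⟩
  refine ⟨max (X0 * Real.exp c) (Real.exp Λ), ?_, fun X hX => ?_⟩
  · refine le_trans ?_ (le_max_left _ _)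
    have : 1 ≤ Real.exp c := Real.one_le_exp hc0
    nlinarith
  have hXX : X0 * Real.exp c ≤ X := (le_max_left _ _).trans hX
  have hXe : Real.exp Λ ≤ X := (le_max_right _ _).trans hX
  have h1X : 1 ≤ X := by
    have : 1 ≤ Real.exp c := Real.one_le_exp hc0
    nlinarith
  have hXp : 0 < X := by linarith
  obtain ⟨Y, hY⟩ : ∃ Y : ℝ, Y = X * Real.exp (-c) := ⟨_, rfl⟩
  have hYX : X0 ≤ Y := by
    have h2 := mul_le_mul_of_nonneg_right hXX (Real.exp_pos (-c)).le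
    rw [mul_assoc, ← Real.exp_add, add_neg_cancel, Real.exp_zero, mul_one] at h2
    rw [hY]
    exact h2
  have hYp : 0 < Y := by linarith
  have hlogY : Real.log Y = Real.log X - c := by
    rw [hY, Real.log_mul hXp.ne' (Real.exp_pos _).ne', Real.log_exp]
    ring
  have hfin := (hC X h1X).1
  -- the points different from infinity are values
  have hsub : PtsQ S a Y ⊆ (toP '' (AV a R X)) ∪ {Projectivization.mk K ![1, 0]
        (fun h => one_ne_zero (congrFun h 0))} := by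
    rintro Q ⟨x, hx, rfl, hf, hcn⟩
    by_cases hx1 : x 1 = 0
    · right
      rw [Set.mem_singleton_iff, Projectivization.mk_eq_mk_iff']
      refine ⟨x 0, ?_⟩
      funext i
      fin_cases i
      · simp
      · simp [hx1]
    · left
      have e1 : Projectivization.mk K x hx = toP (x 0 / x 1) := by
        unfold toP
        rw [Projectivization.mk_eq_mk_iff']
        refine ⟨x 1, ?_⟩
        funext i
        fin_cases i
        · show x 1 * (x 0 / x 1) = x 0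
          field_simp
        · show x 1 * 1 = x 1
          rw [mul_one]
      have e2 : x = x 1 • ![x 0 / x 1, 1] := by
        funext i
        fin_cases i
        · show x 0 = x 1 * (x 0 / x 1)
          field_simp
        · show x 1 = x 1 * 1
          rw [mul_one]
      have e3 : ∀ i, form (a i) ![x 0 / x 1, 1] ≠ 0 := by
        intro i h'
        apply hf i
        rw [e2]
        unfold form at h' ⊢
        rw [Pi.smul_apply, Pi.smul_apply, smul_eq_mul, smul_eq_mul]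
        linear_combination x 1 * h'
      refine ⟨x 0 / x 1, ⟨e3, ?_⟩, e1.symm⟩
      have e4 : counting S a x = counting S a ![x 0 / x 1, 1] := by
        conv_lhs => rw [e2]
        exact counting_smul S a hx1 e3
      rw [e4, ← Real.le_log_iff_exp_le hYp, hlogY] at hcn
      have := hb' _ e3
      linarith
  have h2 := h Y hYX
  have h3 : ((PtsQ S a Y).ncard : ℝ) ≤ ((AV a R X).ncard : ℝ) + 1 := by
    have h4 := Set.ncard_le_ncard hsub ((hfin.image toP).union (Set.finite_singleton _))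
    have h5 := h4.trans (Set.ncard_union_le _ _)
    rw [Set.ncard_singleton, Set.ncard_image_of_injective _ toP_inj] at h5
    exact_mod_cast h5
  have h6 : 1 ≤ X ^ (2 / (q : ℝ) - 2 * δ') := by
    refine Real.one_le_rpow h1X ?_
    linarith
  have h7 : X ^ (2 / (q : ℝ) - δ) ≤ X ^ (2 / (q : ℝ) - 2 * δ') :=
    Real.rpow_le_rpow_of_exponent_le h1X (by linarith)
  have h8 : X ^ (2 / (q : ℝ) - 2 * δ') * 2 ≤ Y ^ (2 / (q : ℝ) - δ') := by
    have h9 : Y ^ (2 / (q : ℝ) - δ') =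
        X ^ (2 / (q : ℝ) - 2 * δ') * (X ^ δ' * Real.exp (-(c * (2 / q - δ')))) := by
      rw [hY, Real.mul_rpow hXp.le (Real.exp_pos _).le, ← mul_assoc, ← Real.rpow_add hXp,
        ← Real.exp_mul]
      congr 2 <;> ring
    rw [h9]
    refine mul_le_mul_of_nonneg_left ?_ (by positivity)
    have h10 : Λ ≤ Real.log X := (Real.le_log_iff_exp_le hXp).2 hXe
    have h11 : Real.log 2 + c * (2 / q - δ') ≤ δ' * Real.log X := by
      rw [hΛ, div_le_iff₀ h0] at h10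
      linarith
    have h12 : X ^ δ' = Real.exp (δ' * Real.log X) := by
      rw [Real.rpow_def_of_pos hXp, mul_comm]
    rw [h12, ← Real.exp_add]
    calc (2 : ℝ) = Real.exp (Real.log 2) := (Real.exp_log two_pos).symm
      _ ≤ _ := Real.exp_le_exp.2 (by linarith)
  linarith

/-- the counting function is bounded by the height -/
theorem abs_height (a : Fin q → Fin 2 → K) (S : Set (Pr K)) {R h : K → ℝ} {c : ℝ}
    (hb' : ∀ t ∈ GG a, R t ≤ counting S a ![t, 1] + c) {D C1 : ℝ} (hD0 : 0 ≤ D)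
    (hh' : ∀ t ∈ GG a, D * Height.logHeight₁ t ≤ h t + C1) :
    ∃ C : ℝ, ∀ t ∈ GG a, D * R t ≤ q * h t + C := by
  obtain ⟨C2, hC2⟩ := cnt_le_logHeight S a
  have hqn : (0 : ℝ) ≤ q := Nat.cast_nonneg _
  refine ⟨D * (C2 + c) + q * C1, fun t ht => ?_⟩
  have hx0 : (![t, 1] : Fin 2 → K) ≠ 0 := fun h => one_ne_zero (congrFun h 1)
  have h1 := hb' t ht
  have h2 := hC2 ![t, 1] hx0 ht
  have h3 : counting S a ![t, 1] ≤ Pool.Agent.Y730.QP.cnt S a ![t, 1] :=
    Pool.Agent.Y730.QP.counting_le S (fun i => (ne_of_form (ht i)).1) hx0 ht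
  rw [logHeight_vec] at h2
  have h4 : R t ≤ q * Height.logHeight₁ t + (C2 + c) := by linarith
  have h5 := mul_le_mul_of_nonneg_left h4 hD0
  have h6 := mul_le_mul_of_nonneg_left (hh' t ht) hqn
  linarith

omit [NumberField K] in
theorem AV_div (a : Fin q → Fin 2 → K) (R : K → ℝ) {e : ℝ} (he : 0 < e) {X : ℝ} (hX : 1 ≤ X) :
    AV a (fun t => R t / e) X = AV a R (X ^ e) := by
  ext t
  unfold AV
  rw [Set.mem_ofPred_eq, Set.mem_ofPred_eq, Real.log_rpow (by linarith),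
    div_le_iff₀ he, mul_comm (Real.log X)]

omit [NumberField K] in
theorem AE_div (a : Fin q → Fin 2 → K) (R h : K → ℝ) (M c : ℝ) {e : ℝ} (he : 0 < e) {X : ℝ}
    (hX : 1 ≤ X) :
    AE a (fun t => R t / e) (fun t => h t / e) M c X = AE a R h M (e * c) (X ^ e) := by
  ext t
  unfold AE
  rw [Set.mem_ofPred_eq, Set.mem_ofPred_eq, AV_div a R he hX]
  refine and_congr_right fun _ => ?_
  rw [← mul_div_assoc, div_add' _ _ _ he.ne', div_le_div_iff_of_pos_right he, mul_comm c e]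

/-- **The abstract theorem.** -/
theorem abs_main {a : Fin q → Fin 2 → K} (ha : ∀ i j, i ≠ j → form (a i) (a j) ≠ 0)
    (hq : 3 ≤ q) {S : Set (Pr K)} (hS : S.Finite) {R h : K → ℝ} {c : ℝ} (hc0 : 0 ≤ c)
    (hb : ∀ t ∈ GG a, counting S a ![t, 1] ≤ R t)
    (hb' : ∀ t ∈ GG a, R t ≤ counting S a ![t, 1] + c) {D C0 C1 : ℝ} (hD0 : 0 < D)
    (hh : ∀ t ∈ GG a, h t ≤ C0 + D * Height.logHeight₁ t)
    (hh' : ∀ t ∈ GG a, D * Height.logHeight₁ t ≤ h t + C1) {e : ℝ} (he : 1 ≤ e) :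
    (∀ δ : ℝ, 0 < δ →
      (∃ C : ℝ, ∀ X : ℝ, 1 ≤ X → (AV a (fun t => R t / e) X).Finite ∧
        ((AV a (fun t => R t / e) X).ncard : ℝ) ≤ C * X ^ (2 * e / q + δ)) ∧
      ∃ X₀ : ℝ, ∀ X : ℝ, X₀ ≤ X →
        X ^ (2 * e / q - δ) ≤ ((AV a (fun t => R t / e) X).ncard : ℝ)) ∧
    (∀ M : ℝ, D / q < M → ∀ c : ℝ, ∃ ν C : ℝ, 0 < ν ∧ 0 ≤ C ∧ ∀ X : ℝ, 1 ≤ X →
      ((AE a (fun t => R t / e) (fun t => h t / e) M c X).ncard : ℝ) ≤
        C * X ^ (2 * e / q - ν)) ∧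
    (∃ C : ℝ, ∀ t ∈ GG a, D * (R t / e) ≤ q * (h t / e) + C) ∧
    (∀ M : ℝ, M < D / q → ∀ c : ℝ, {t : K | t ∈ GG a ∧ h t / e < M * (R t / e) + c}.Finite) := by
  have he0 : 0 < e := by linarith
  have hq0 : (3 : ℝ) ≤ q := by exact_mod_cast hq
  have hqp : (0 : ℝ) < q := by linarith
  have hexp : ∀ {X : ℝ}, 1 ≤ X → ∀ b : ℝ, (X ^ e) ^ b = X ^ (e * b) := by
    intro X hX b
    rw [← Real.rpow_mul (by linarith)]
  have hup : ∀ δ : ℝ, 0 < δ → ∃ C : ℝ, ∀ X : ℝ, 1 ≤ X → (AV a (fun t => R t / e) X).Finite ∧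
      ((AV a (fun t => R t / e) X).ncard : ℝ) ≤ C * X ^ (2 * e / q + δ) := by
    intro δ hδ
    obtain ⟨C, hC⟩ := abs_upper ha hq hS hb (δ / e) (by positivity)
    refine ⟨C, fun X hX => ?_⟩
    obtain ⟨h1, h2⟩ := hC (X ^ e) (Real.one_le_rpow hX he0.le)
    rw [AV_div a R he0 hX]
    refine ⟨h1, h2.trans (le_of_eq ?_)⟩
    rw [hexp hX]
    congr 2
    field_simp
  have hrad : ∃ C : ℝ, ∀ t ∈ GG a, D * (R t / e) ≤ q * (h t / e) + C := by
    obtain ⟨C, hC⟩ := abs_height a S hb' hD0.le hh'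
    refine ⟨C / e, fun t ht => ?_⟩
    have h1 := div_le_div_of_nonneg_right (hC t ht) he0.le
    have e1 : D * (R t / e) = D * R t / e := by ring
    have e2 : q * (h t / e) + C / e = (q * h t + C) / e := by ring
    rw [e1, e2]
    exact h1
  refine ⟨fun δ hδ => ⟨hup δ hδ, ?_⟩, fun M hM c1 => ?_, hrad, fun M hM c1 => ?_⟩
  · obtain ⟨X0, hX0, h⟩ := abs_lower ha hq hS hc0 hb hb' (δ / e) (by positivity)
    refine ⟨X0, fun X hX => ?_⟩
    have hX1 : 1 ≤ X := hX0.trans hX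
    have h1 : X0 ≤ X ^ e := by
      refine hX.trans ?_
      calc X = X ^ (1 : ℝ) := (Real.rpow_one X).symm
        _ ≤ X ^ e := Real.rpow_le_rpow_of_exponent_le hX1 he
    have h2 := h _ h1
    rw [AV_div a R he0 hX1]
    refine le_trans (le_of_eq ?_) h2
    rw [hexp hX1]
    congr 1
    field_simp
  · obtain ⟨ν, C, hν, hC0, hC⟩ := abs_exc ha hq hS hb hD0 hh hM (e * c1)
    refine ⟨e * ν, C, by positivity, hC0, fun X hX => ?_⟩
    have h2 := hC (X ^ e) (Real.one_le_rpow hX he0.le)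
    rw [AE_div a R h M c1 he0 hX]
    refine h2.trans (le_of_eq ?_)
    rw [hexp hX]
    congr 2
    ring
  · obtain ⟨C, hC⟩ := hrad
    have hpos : 0 < D - q * M := by
      rw [lt_div_iff₀ hqp] at hM
      linarith
    obtain ⟨C2, hC2⟩ := hup 1 one_pos
    obtain ⟨L, hL⟩ : ∃ L : ℝ, L = (q * c1 + C) / (D - q * M) := ⟨_, rfl⟩
    have hfin := (hC2 (Real.exp |L|) (Real.one_le_exp (abs_nonneg L))).1
    refine hfin.subset ?_
    rintro t ⟨ht, hlt⟩
    refine ⟨ht, ?_⟩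
    rw [Real.log_exp]
    refine le_trans ?_ (le_abs_self L)
    rw [hL, le_div_iff₀ hpos]
    have h1 := hC t ht
    have h2 := mul_lt_mul_of_pos_left hlt hqp
    nlinarith

theorem ncard_image_ge {α β : Type} (F : α → β) {V : Set α} (hV : V.Finite) {m : ℕ}
    (hF : ∀ b, ∃ s : Finset α, s.card ≤ m ∧ ∀ t ∈ V, F t = b → t ∈ s) :
    V.ncard ≤ m * (F '' V).ncard := by
  classical
  rw [Set.ncard_eq_toFinset_card V hV]
  have e : (F '' V).ncard = (hV.toFinset.image F).card := by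
    rw [← Set.ncard_coe_finset, Finset.coe_image, Set.Finite.coe_toFinset]
  rw [e]
  refine Finset.card_le_mul_card_image _ _ fun b hb => ?_
  obtain ⟨s, hs, h⟩ := hF b
  refine (Finset.card_le_card fun t ht => ?_).trans hs
  obtain ⟨h1, h2⟩ := Finset.mem_filter.1 ht
  exact h t (hV.mem_toFinset.1 h1) h2

/-- **The abstract theorem, for the images of the parameters.** -/
theorem abs_image {a : Fin q → Fin 2 → K} (ha : ∀ i j, i ≠ j → form (a i) (a j) ≠ 0)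
    (hq : 3 ≤ q) {S : Set (Pr K)} (hS : S.Finite) {R h : K → ℝ} {c : ℝ} (hc0 : 0 ≤ c)
    (hb : ∀ t ∈ GG a, counting S a ![t, 1] ≤ R t)
    (hb' : ∀ t ∈ GG a, R t ≤ counting S a ![t, 1] + c) {D C0 C1 : ℝ} (hD0 : 0 < D)
    (hh : ∀ t ∈ GG a, h t ≤ C0 + D * Height.logHeight₁ t)
    (hh' : ∀ t ∈ GG a, D * Height.logHeight₁ t ≤ h t + C1) {e : ℝ} (he : 1 ≤ e)
    {β : Type} (F : K → β) {m : ℕ} (hm : 0 < m)
    (hF : ∀ b, ∃ s : Finset K, s.card ≤ m ∧ ∀ t ∈ GG a, F t = b → t ∈ s) :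
    (∀ δ : ℝ, 0 < δ →
      (∃ C : ℝ, ∀ X : ℝ, 1 ≤ X → (F '' AV a (fun t => R t / e) X).Finite ∧
        ((F '' AV a (fun t => R t / e) X).ncard : ℝ) ≤ C * X ^ (2 * e / q + δ)) ∧
      ∃ X₀ : ℝ, ∀ X : ℝ, X₀ ≤ X →
        X ^ (2 * e / q - δ) ≤ ((F '' AV a (fun t => R t / e) X).ncard : ℝ)) ∧
    (∀ M : ℝ, D / q < M → ∀ c : ℝ, ∃ ν : ℝ, 0 < ν ∧
      (∃ C : ℝ, ∀ X : ℝ, 1 ≤ X →
        ((F '' AE a (fun t => R t / e) (fun t => h t / e) M c X).ncard : ℝ) ≤
        C * X ^ (2 * e / q - ν)) ∧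
      ∃ X₀ : ℝ, ∀ X : ℝ, X₀ ≤ X →
        ((F '' AE a (fun t => R t / e) (fun t => h t / e) M c X).ncard : ℝ) ≤
          X ^ (-ν) * ((F '' AV a (fun t => R t / e) X).ncard : ℝ)) := by
  obtain ⟨h1, h2, -, -⟩ := abs_main ha hq hS hc0 hb hb' hD0 hh hh' he
  have hlow : ∀ δ : ℝ, 0 < δ → ∃ X₀ : ℝ, ∀ X : ℝ, X₀ ≤ X →
      X ^ (2 * e / q - δ) ≤ ((F '' AV a (fun t => R t / e) X).ncard : ℝ) := by
    intro δ hδ
    obtain ⟨⟨C, hC⟩, X0, hX0⟩ := h1 (δ / 2) (by positivity)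
    have htend : Filter.Tendsto (fun X : ℝ => X ^ (δ / 2)) Filter.atTop Filter.atTop :=
      tendsto_rpow_atTop (by positivity)
    obtain ⟨X₂, hX₂⟩ :=
      (Filter.eventually_atTop.1 (htend.eventually (Filter.eventually_ge_atTop (m : ℝ))))
    refine ⟨max 1 (max X0 X₂), fun X hX => ?_⟩
    have k1 : 1 ≤ X := (le_max_left _ _).trans hX
    have k2 : X0 ≤ X := (le_max_left _ _).trans ((le_max_right _ _).trans hX)
    have k3 : X₂ ≤ X := (le_max_right _ _).trans ((le_max_right _ _).trans hX)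
    have hX0' : 0 < X := by linarith
    have hm0 : (0 : ℝ) < m := by exact_mod_cast hm
    have h3 := ncard_image_ge F (hC X k1).1 (m := m) fun b => by
      obtain ⟨s, hs, h⟩ := hF b
      exact ⟨s, hs, fun t ht => h t ht.1⟩
    have h4 : ((AV a (fun t => R t / e) X).ncard : ℝ) ≤
        m * ((F '' AV a (fun t => R t / e) X).ncard : ℝ) := by exact_mod_cast h3
    have h5 := (hX0 X k2).trans h4
    have h6 := hX₂ X k3
    have h7 : X ^ (2 * e / q - δ / 2) = X ^ (δ / 2) * X ^ (2 * e / q - δ) := by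
      rw [← Real.rpow_add hX0']
      congr 1
      ring
    rw [h7] at h5
    have h8 : 0 < X ^ (2 * e / q - δ) := Real.rpow_pos_of_pos hX0' _
    have h9 := mul_le_mul_of_nonneg_right h6 h8.le
    exact le_of_mul_le_mul_left (h9.trans h5) hm0
  refine ⟨fun δ hδ => ⟨?_, hlow δ hδ⟩, fun M hM c1 => ?_⟩
  · obtain ⟨⟨C, hC⟩, -⟩ := h1 δ hδ
    refine ⟨C, fun X hX => ⟨(hC X hX).1.image F, le_trans ?_ (hC X hX).2⟩⟩
    exact_mod_cast Set.ncard_image_le (hC X hX).1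
  · obtain ⟨ν, C, hν, hC0, hC⟩ := h2 M hM c1
    obtain ⟨⟨C', hC'⟩, -⟩ := h1 1 one_pos
    have h3 : ∀ X : ℝ, 1 ≤ X →
        ((F '' AE a (fun t => R t / e) (fun t => h t / e) M c1 X).ncard : ℝ) ≤
        C * X ^ (2 * e / q - ν) := by
      intro X hX
      refine le_trans ?_ (hC X hX)
      have h4 : (AE a (fun t => R t / e) (fun t => h t / e) M c1 X).Finite :=
        (hC' X hX).1.subset fun t (ht : t ∈ AE a _ _ M c1 X) => ht.1
      exact_mod_cast Set.ncard_image_le h4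
    obtain ⟨X1, hX1⟩ := hlow (ν / 2) (by positivity)
    obtain ⟨X0, hX0⟩ := ratio_of hν h3 hX1
    refine ⟨ν / 4, by positivity, ⟨C, fun X hX => (h3 X hX).trans ?_⟩, X0, hX0⟩
    refine mul_le_mul_of_nonneg_left ?_ hC0
    exact Real.rpow_le_rpow_of_exponent_le hX (by linarith)

end Pool.Agent.Y557.NF
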