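import Pool.Agent.Y557.NF.Abs
import Pool.Agent.Y557.NF.Mason

/-!
The abstract almost all points theorem applied to split rational curves and the radical outside a
finite set of primes (helper557).
-/

set_option autoImplicit false

namespace Pool.Agent.Y557.NF

open NumberField IsDedekindDomain Finset Polynomial
open Pool.Agent.TH876.KR (form counting localHeight)
open Pool.Agent.H691R3 Pool.Agent.TH876.Loc
open Pool.Agent.TH876.TM (supp)

variable {K : Type} [Field K] [NumberField K] {n : ℕ}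

omit [NumberField K] in
theorem mem_GG_al {P : Fin n → K[X]} (hP : ∀ i, P i ≠ 0) {t : K} :
    t ∈ GG (al P) ↔ ∀ i, (P i).eval t ≠ 0 := by
  constructor
  · intro h i hi
    have hr : t ∈ rts P := (mem_rts hP).2 ⟨i, hi⟩
    obtain ⟨j, hj⟩ := (al_spec (P := P) (p := fun a => form a ![t, 1] = 0)).2
      ⟨some t, mem_pts_some.2 hr, by
        unfold form
        simp [cd]⟩
    exact h j hj
  · intro h j
    exact form_al_eval hP h j

/-- the radical outside `T`, relative to `K` -/
noncomputable def rdT (T : Set (Pr K)) (P : Fin n → K[X]) (t : K) : ℝ :=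
  ∑ᶠ v ∈ {v | v ∉ T ∧ v ∈ supp (fun i => (P i).eval t)}, Real.log (Ideal.absNorm v.asIdeal : ℝ)

theorem rdT_bounds {T : Set (Pr K)} (hT : T.Finite) {P : Fin n → K[X]} (hP : ∀ i, P i ≠ 0)
    (hs : ∀ i, (P i).Splits) (hc : ∀ r : K, ∃ i, (P i).eval r ≠ 0) :
    ∃ (S : Set (Pr K)) (c : ℝ), S.Finite ∧ 0 ≤ c ∧
      (∀ t ∈ GG (al P), counting S (al P) ![t, 1] ≤ rdT T P t) ∧
      ∀ t ∈ GG (al P), rdT T P t ≤ counting S (al P) ![t, 1] + c := by
  have hS : (T ∪ {v : Pr K | ¬ GoodC v P}).Finite := hT.union (goodC_finite hP)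
  obtain ⟨c, hc0, h⟩ := bounds_of hS (al P)
    (fun t => {v | v ∉ T ∧ v ∈ supp (fun i => (P i).eval t)})
    (fun t ht => (supp_fin _ ((mem_GG_al hP).1 ht)).subset fun v hv => hv.2)
    (fun t ht v hv => by
      rw [Set.mem_union, not_or] at hv
      have hg : GoodC v P := by
        by_contra h
        exact hv.2 h
      rw [Set.mem_ofPred_eq, mem_supp_iff hP hs hc hg ((mem_GG_al hP).1 ht),
        ← al_spec (p := fun a => 0 < localHeight v a ![t, 1])]
      constructor
      · rintro ⟨-, h⟩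
        exact h
      · intro h
        exact ⟨hv.1, h⟩)
  exact ⟨_, c, hS, hc0, fun t ht => (h t ht).1, fun t ht => (h t ht).2⟩

/-- the point of the curve -/
noncomputable def pc (P : Fin n → K[X]) (hc : ∀ r : K, ∃ i, (P i).eval r ≠ 0) (t : K) :
    Projectivization K (Fin n → K) :=
  Projectivization.mk K (fun i => (P i).eval t) (fun h => by
    obtain ⟨i, hi⟩ := hc t
    exact hi (congrFun h i))

theorem pc_fibre {P : Fin n → K[X]} (hu : ∃ u : Fin n → K[X], ∑ i, u i * P i = 1)
    (hc : ∀ r : K, ∃ i, (P i).eval r ≠ 0)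
    {D : ℕ} (hD : ∀ i, (P i).natDegree ≤ D) (hD' : ∃ i, (P i).natDegree = D) (hD1 : 1 ≤ D)
    (b : Projectivization K (Fin n → K)) :
    ∃ s : Finset K, s.card ≤ D ∧ ∀ t : K, pc P hc t = b → t ∈ s := by
  obtain ⟨s, hs, h⟩ := fibre_bound hu hD hD' hD1 b.rep_nonzero
  refine ⟨s, hs, fun t ht => ?_⟩
  rw [← b.mk_rep] at ht
  unfold pc at ht
  rw [Projectivization.mk_eq_mk_iff'] at ht
  obtain ⟨c, hc'⟩ := ht
  exact h t c hc'.symm

end Pool.Agent.Y557.NF
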