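import Pool.Agent.Y557.NF.Line
import Pool.Agent.Y728.AK.Val
import Pool.Agent.TH876.TM.Def3

/-!
Rational curves in projective space over a number field which meet the coordinate hyperplanes in
rational points: the primes at which the orders of the coordinates are not all equal, and the height
(helper557).
-/

set_option autoImplicit false

namespace Pool.Agent.Y557.NF

open NumberField IsDedekindDomain Finset Polynomial
open Pool.Agent.TH876.KR (form localHeight localHeight_nonneg localHeight_eq localHeight_pos_iff
  log_Nv_pos' m2 form_le good_finite Good m2_of_good)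
open Pool.Agent.H691R3 Pool.Agent.TH876.Loc
open Pool.Agent.Y728.AK (fv_lt_iff)
open Pool.Agent.TH876.TM (supp)

variable {K : Type} [Field K] [NumberField K] {n : ℕ}

open Classical in
/-- the parameters of the points on the coordinate hyperplanes, except infinity -/
noncomputable def rts {K : Type} [Field K] {n : ℕ} (P : Fin n → K[X]) : Finset K :=
  (∏ i, P i).roots.toFinset

/-- infinity is on a coordinate hyperplane -/
def Unequal {K : Type} [Field K] {n : ℕ} (P : Fin n → K[X]) : Prop :=
  ∃ i j, (P i).natDegree < (P j).natDegree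

open Classical in
/-- the points of the line which are mapped to the coordinate hyperplanes -/
noncomputable def pts {K : Type} [Field K] {n : ℕ} (P : Fin n → K[X]) : Finset (Option K) :=
  (rts P).image some ∪ if Unequal P then {none} else ∅

/-- coordinates of the points of the line -/
def cd {K : Type} [Field K] : Option K → Fin 2 → K
  | some r => ![r, 1]
  | none => ![1, 0]

open Classical in
/-- the number of the points of the line which are mapped to the coordinate hyperplanes -/
noncomputable def nz {K : Type} [Field K] {n : ℕ} (P : Fin n → K[X]) : ℕ :=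
  (rts P).card + if Unequal P then 1 else 0

omit [NumberField K] in
theorem card_pts (P : Fin n → K[X]) : (pts P).card = nz P := by
  classical
  unfold pts nz
  rw [Finset.card_union_of_disjoint, Finset.card_image_of_injective _ (Option.some_injective K)]
  · congr 1
    split_ifs <;> simp
  · rw [Finset.disjoint_left]
    rintro a ha hb
    obtain ⟨r, -, rfl⟩ := Finset.mem_image.1 ha
    split_ifs at hb <;> simp at hb

omit [NumberField K] in
theorem mem_rts {P : Fin n → K[X]} (hP : ∀ i, P i ≠ 0) {r : K} :
    r ∈ rts P ↔ ∃ i, (P i).eval r = 0 := by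
  classical
  unfold rts
  rw [Multiset.mem_toFinset, mem_roots (Finset.prod_ne_zero_iff.2 fun i _ => hP i), IsRoot.def,
    eval_prod, Finset.prod_eq_zero_iff]
  simp

omit [NumberField K] in
theorem mem_pts_some {P : Fin n → K[X]} {r : K} : some r ∈ pts P ↔ r ∈ rts P := by
  classical
  unfold pts
  rw [Finset.mem_union, Finset.mem_image]
  constructor
  · rintro (⟨a, ha, h⟩ | h)
    · rw [Option.some.injEq] at h
      rw [← h]
      exact ha
    · split_ifs at h <;> simp at h
  · intro h
    exact Or.inl ⟨r, h, rfl⟩

omit [NumberField K] in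
theorem mem_pts_none {P : Fin n → K[X]} : none ∈ pts P ↔ Unequal P := by
  classical
  unfold pts
  rw [Finset.mem_union, Finset.mem_image]
  constructor
  · rintro (⟨a, ha, h⟩ | h)
    · cases h
    · split_ifs at h with h'
      · exact h'
      · simp at h
  · intro h
    right
    rw [if_pos h]
    exact Finset.mem_singleton_self _

omit [NumberField K] in
theorem form_cd {a b : Option K} (h : a ≠ b) : form (cd a) (cd b) ≠ 0 := by
  unfold form
  cases a with
  | none =>
    cases b with
    | none => exact absurd rfl h
    | some s => simp [cd]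
  | some r =>
    cases b with
    | none => simp [cd]
    | some s =>
      have : r ≠ s := fun h' => h (by rw [h'])
      simp [cd, sub_eq_zero, this]

omit [NumberField K] in
theorem form_cd_eval {P : Fin n → K[X]} (hP : ∀ i, P i ≠ 0) {t : K}
    (ht : ∀ i, (P i).eval t ≠ 0) {a : Option K} (ha : a ∈ pts P) : form (cd a) ![t, 1] ≠ 0 := by
  unfold form
  cases a with
  | none => simp [cd]
  | some r =>
    rw [mem_pts_some, mem_rts hP] at ha
    obtain ⟨i, hi⟩ := ha
    have : r ≠ t := by
      rintro rfl
      exact ht i hi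
    simp [cd, sub_eq_zero, this]

/-- the primes of good reduction of the curve -/
def GoodC (v : Pr K) (P : Fin n → K[X]) : Prop :=
  (∀ i, fv v (P i).leadingCoeff = 1) ∧ (∀ a ∈ rts P, fv v a ≤ 1) ∧
    ∀ a ∈ rts P, ∀ b ∈ rts P, a ≠ b → fv v (a - b) = 1

theorem goodC_finite {P : Fin n → K[X]} (hP : ∀ i, P i ≠ 0) : {v : Pr K | ¬ GoodC v P}.Finite := by
  classical
  have h1 : (⋃ i, {v : Pr K | fv v (P i).leadingCoeff ≠ 1}).Finite :=
    Set.finite_iUnion fun i => fv_support_finite (leadingCoeff_ne_zero.2 (hP i))
  have h2 : (⋃ a ∈ rts P, {v : Pr K | a ≠ 0 ∧ fv v a ≠ 1}).Finite := by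
    refine Set.Finite.biUnion (rts P).finite_toSet fun a _ => ?_
    by_cases ha : a = 0
    · refine Set.Finite.subset Set.finite_empty ?_
      rintro v ⟨h, -⟩
      exact absurd ha h
    · exact (fv_support_finite ha).subset fun v hv => hv.2
  have h3 : (⋃ a ∈ rts P, ⋃ b ∈ rts P, {v : Pr K | a ≠ b ∧ fv v (a - b) ≠ 1}).Finite := by
    refine Set.Finite.biUnion (rts P).finite_toSet fun a _ =>
      Set.Finite.biUnion (rts P).finite_toSet fun b _ => ?_
    by_cases hab : a = b
    · refine Set.Finite.subset Set.finite_empty ?_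
      rintro v ⟨h, -⟩
      exact absurd hab h
    · exact (fv_support_finite (sub_ne_zero.2 hab)).subset fun v hv => hv.2
  refine ((h1.union h2).union h3).subset ?_
  intro v hv
  by_contra hcon
  rw [Set.mem_union, Set.mem_union, not_or, not_or] at hcon
  obtain ⟨⟨k1, k2⟩, k3⟩ := hcon
  apply hv
  refine ⟨fun i => ?_, fun a ha => ?_, fun a ha b hb hab => ?_⟩
  · by_contra h
    exact k1 (Set.mem_iUnion.2 ⟨i, h⟩)
  · by_contra h
    apply k2
    refine Set.mem_iUnion₂.2 ⟨a, ha, ?_, ?_⟩
    · rintro rfl
      rw [map_zero] at h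
      exact h zero_le_one
    · intro h'
      exact h h'.le
  · by_contra h
    exact k3 (Set.mem_iUnion₂.2 ⟨a, ha, Set.mem_iUnion₂.2 ⟨b, hb, hab, h⟩⟩)

theorem fv_eval (v : Pr K) {f : K[X]} (hf : f.Splits) (t : K) :
    fv v (f.eval t) = fv v f.leadingCoeff * (f.roots.map fun a => fv v (t - a)).prod := by
  rw [hf.eval_eq_prod_roots, map_mul, map_multiset_prod, Multiset.map_map]
  rfl

theorem fv_sub_eq (v : Pr K) {t a : K} (h : fv v a < fv v t) : fv v (t - a) = fv v t := by
  refine le_antisymm ?_ ?_
  · refine (Pool.Agent.TH876.KR.fv_sub_le v t a).trans (max_le le_rfl h.le)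
  · have h1 : fv v t ≤ max (fv v (t - a)) (fv v a) := by
      have := fv_na v (t - a) a
      rwa [sub_add_cancel] at this
    rcases le_max_iff.1 h1 with h2 | h2
    · exact h2
    · exact absurd h (not_lt.2 h2)

theorem fv_sub_comm (v : Pr K) (a b : K) : fv v (a - b) = fv v (b - a) := by
  rw [← (fv v).map_neg (a - b), neg_sub]

omit [NumberField K] in
theorem mem_rts_of_roots {P : Fin n → K[X]} (hP : ∀ i, P i ≠ 0) {i : Fin n} {a : K}
    (ha : a ∈ (P i).roots) : a ∈ rts P := by
  rw [mem_rts hP]
  exact ⟨i, (mem_roots (hP i)).1 ha⟩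

/-- the primes at which the orders of the coordinates are not all equal -/
theorem mem_supp_iff {P : Fin n → K[X]} (hP : ∀ i, P i ≠ 0) (hs : ∀ i, (P i).Splits)
    (hc : ∀ r : K, ∃ i, (P i).eval r ≠ 0) {v : Pr K} (hv : GoodC v P) {t : K}
    (ht : ∀ i, (P i).eval t ≠ 0) :
    v ∈ supp (fun i => (P i).eval t) ↔ ∃ a ∈ pts P, 0 < localHeight v (cd a) ![t, 1] := by
  classical
  obtain ⟨g1, g2, g3⟩ := hv
  have hval : ∀ i j, v.valuation K ((P i).eval t) = v.valuation K ((P j).eval t) ↔
      fv v ((P i).eval t) = fv v ((P j).eval t) := by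
    intro i j
    constructor
    · intro h
      refine le_antisymm ?_ ?_
      · rw [← not_lt, fv_lt_iff, h]
        exact lt_irrefl _
      · rw [← not_lt, fv_lt_iff, h]
        exact lt_irrefl _
    · intro h
      refine le_antisymm ?_ ?_
      · rw [← not_lt, ← fv_lt_iff, h]
        exact lt_irrefl _
      · rw [← not_lt, ← fv_lt_iff, h]
        exact lt_irrefl _
  have hloc : ∀ r : K, r ∈ rts P → (0 < localHeight v (cd (some r)) ![t, 1] ↔
      fv v (t - r) < max (fv v t) 1) := by
    intro r hr
    have hf := form_cd_eval hP ht (mem_pts_some.2 hr)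
    rw [localHeight_pos_iff v hf]
    have e1 : m2 v (cd (some r)) = 1 := by
      show max (fv v r) (fv v 1) = 1
      rw [map_one]
      exact max_eq_right (g2 r hr)
    have e2 : m2 v ![t, 1] = max (fv v t) 1 := by
      show max (fv v t) (fv v 1) = _
      rw [map_one]
    have e3 : form (cd (some r)) ![t, 1] = r - t := by
      show r * 1 - 1 * t = _
      ring
    rw [e1, e2, e3, one_mul, fv_sub_comm]
  have hloc0 : 0 < localHeight v (cd none) ![t, 1] ↔ 1 < fv v t := by
    have hf : form (cd none) ![t, 1] ≠ 0 := by
      unfold form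
      simp [cd]
    rw [localHeight_pos_iff v hf]
    have e1 : m2 v (cd (none : Option K)) = 1 := by
      show max (fv v 1) (fv v 0) = 1
      rw [map_one, map_zero]
      exact max_eq_left zero_le_one
    have e2 : m2 v ![t, 1] = max (fv v t) 1 := by
      show max (fv v t) (fv v 1) = _
      rw [map_one]
    have e3 : form (cd (none : Option K)) ![t, 1] = 1 := by
      show (1 : K) * 1 - 0 * t = _
      ring
    rw [e1, e2, e3, one_mul, map_one, lt_max_iff]
    simp
  -- large `t`
  have hbig : 1 < fv v t → ∀ i, fv v ((P i).eval t) = fv v t ^ (P i).natDegree := by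
    intro h1 i
    rw [fv_eval v (hs i) t, g1 i, one_mul, (hs i).natDegree_eq_card_roots]
    have h2 : ((P i).roots.map fun a => fv v (t - a)) = (P i).roots.map fun _ => fv v t := by
      refine Multiset.map_congr rfl fun a ha => ?_
      exact fv_sub_eq v (lt_of_le_of_lt (g2 a (mem_rts_of_roots hP ha)) h1)
    rw [h2, Multiset.map_const', Multiset.prod_replicate]
  constructor
  · rintro ⟨i, j, hij⟩
    rw [Ne, hval] at hij
    rcases le_or_gt (fv v t) 1 with h1 | h1
    · -- small `t`
      by_contra hcon
      push Not at hcon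
      have h2 : ∀ r ∈ rts P, fv v (t - r) = 1 := by
        intro r hr
        have h3 := hcon (some r) (mem_pts_some.2 hr)
        rw [← not_lt, hloc r hr, not_lt, max_eq_right h1] at h3
        refine le_antisymm ?_ h3
        exact (Pool.Agent.TH876.KR.fv_sub_le v t r).trans (max_le h1 (g2 r hr))
      have h3 : ∀ i, fv v ((P i).eval t) = 1 := by
        intro i
        rw [fv_eval v (hs i) t, g1 i, one_mul]
        refine Multiset.prod_eq_one fun x hx => ?_
        obtain ⟨a, ha, rfl⟩ := Multiset.mem_map.1 hx
        exact h2 a (mem_rts_of_roots hP ha)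
      exact hij (by rw [h3, h3])
    · refine ⟨none, ?_, hloc0.2 h1⟩
      rw [mem_pts_none]
      by_contra hcon
      unfold Unequal at hcon
      push Not at hcon
      apply hij
      rw [hbig h1, hbig h1, le_antisymm (hcon j i) (hcon i j)]
  · rintro ⟨a, ha, hpos⟩
    cases a with
    | none =>
      rw [hloc0] at hpos
      obtain ⟨i, j, hij⟩ := mem_pts_none.1 ha
      refine ⟨i, j, ?_⟩
      rw [Ne, hval, hbig hpos, hbig hpos]
      exact (pow_lt_pow_right₀ hpos hij).ne
    | some r =>
      have hr := mem_pts_some.1 ha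
      rw [hloc r hr] at hpos
      have h1 : fv v t ≤ 1 := by
        by_contra hcon
        rw [not_le] at hcon
        rw [fv_sub_eq v (lt_of_le_of_lt (g2 r hr) hcon), max_eq_left hcon.le] at hpos
        exact lt_irrefl _ hpos
      rw [max_eq_right h1] at hpos
      have h2 : ∀ b ∈ rts P, b ≠ r → fv v (t - b) = 1 := by
        intro b hb hbr
        have h3 : fv v (r - b) = 1 := g3 r hr b hb (Ne.symm hbr)
        have h4 : fv v (r - b - (r - t)) = fv v (r - b) := by
          refine fv_sub_eq v ?_
          rw [h3, fv_sub_comm]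
          exact hpos
        have h5 : r - b - (r - t) = t - b := by ring
        rw [h5, h3] at h4
        exact h4
      have h3 : ∀ i, fv v ((P i).eval t) = fv v (t - r) ^ (P i).roots.count r := by
        intro i
        rw [fv_eval v (hs i) t, g1 i, one_mul]
        exact Multiset.prod_map_eq_pow_single r fun b hb hb' =>
          h2 b (mem_rts_of_roots hP hb') hb
      obtain ⟨i, hi⟩ := (mem_rts hP).1 hr
      obtain ⟨j, hj⟩ := hc r
      refine ⟨i, j, ?_⟩
      rw [Ne, hval, h3, h3]
      have h4 : (P j).roots.count r = 0 := by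
        rw [Multiset.count_eq_zero]
        intro h
        exact hj ((mem_roots (hP j)).1 h)
      have h5 : (P i).roots.count r ≠ 0 := by
        rw [Ne, Multiset.count_eq_zero, not_not]
        exact (mem_roots (hP i)).2 hi
      rw [h4, pow_zero]
      exact (pow_lt_one₀ ((fv v).nonneg _) hpos h5).ne

end Pool.Agent.Y557.NF
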