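import Mathlib

/-!
The height of the points of a rational curve in projective space (helper557).
-/

set_option autoImplicit false

namespace Pool.Agent.Y557.NF

open Polynomial Finset

section Hom

variable {K : Type} [Field K]

/-- the form of degree `M` in two variables given by a polynomial of degree at most `M` -/
noncomputable def hom (M : ℕ) (f : K[X]) : MvPolynomial (Fin 2) K :=
  ∑ k ∈ range (M + 1), MvPolynomial.C (f.coeff k) *
    (MvPolynomial.X 0 ^ k * MvPolynomial.X 1 ^ (M - k))

theorem hom_isHomogeneous (M : ℕ) (f : K[X]) : (hom M f).IsHomogeneous M := by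
  unfold hom
  refine MvPolynomial.IsHomogeneous.sum _ _ _ fun k hk => ?_
  have hk' : k ≤ M := Nat.lt_succ_iff.1 (mem_range.1 hk)
  have h1 : (MvPolynomial.X 0 ^ k * MvPolynomial.X 1 ^ (M - k) :
      MvPolynomial (Fin 2) K).IsHomogeneous (k + (M - k)) := by
    refine MvPolynomial.IsHomogeneous.mul ?_ ?_
    · have := (MvPolynomial.isHomogeneous_X K (0 : Fin 2)).pow k
      rwa [one_mul] at this
    · have := (MvPolynomial.isHomogeneous_X K (1 : Fin 2)).pow (M - k)
      rwa [one_mul] at this
  have h2 : k + (M - k) = M := by omega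
  rw [h2] at h1
  have h3 := (MvPolynomial.isHomogeneous_C (Fin 2) (f.coeff k)).mul h1
  rwa [zero_add] at h3

theorem eval_hom {M : ℕ} {f : K[X]} (hf : f.natDegree ≤ M) (t : K) :
    MvPolynomial.eval ![t, 1] (hom M f) = f.eval t := by
  unfold hom
  rw [map_sum, eval_eq_sum_range' (lt_of_le_of_lt hf (Nat.lt_succ_self M))]
  refine Finset.sum_congr rfl fun k _ => ?_
  simp

end Hom

section Ht

variable {K : Type} [Field K] [NumberField K] {n : ℕ}

theorem logHeight_vec (t : K) : Height.logHeight ![t, 1] = Height.logHeight₁ t := by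
  rw [← Height.logHeight₁_eq_logHeight]

/-- the upper bound for the height -/
theorem curve_height_le (P : Fin n → K[X]) {D : ℕ} (hD : ∀ i, (P i).natDegree ≤ D) :
    ∃ C : ℝ, ∀ t : K, Height.logHeight (fun i => (P i).eval t) ≤ C + D * Height.logHeight₁ t := by
  obtain ⟨C, hC⟩ := Height.logHeight_eval_le' (K := K) (p := fun i : Fin n => hom D (P i)) (N := D)
    fun i => hom_isHomogeneous D (P i)
  refine ⟨C, fun t => ?_⟩
  have h := hC ![t, 1]
  rw [logHeight_vec] at h
  have e : (fun i => MvPolynomial.eval ![t, 1] (hom D (P i))) = fun i => (P i).eval t :=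
    funext fun i => eval_hom (hD i) t
  rwa [e] at h

/-- the lower bound for the height -/
theorem le_curve_height (P : Fin n → K[X]) (hu : ∃ u : Fin n → K[X], ∑ i, u i * P i = 1) {D : ℕ}
    (hD : ∀ i, (P i).natDegree ≤ D) (hD' : ∃ i, (P i).natDegree = D ∧ P i ≠ 0) :
    ∃ C : ℝ, ∀ t : K, C + D * Height.logHeight₁ t ≤ Height.logHeight (fun i => (P i).eval t) := by
  classical
  obtain ⟨u, hu⟩ := hu
  obtain ⟨j, hj, hj0⟩ := hD'
  obtain ⟨M, hM1, hM2⟩ : ∃ M : ℕ, (∀ i, (u i).natDegree ≤ M) ∧ D ≤ M := by
    refine ⟨D + ∑ i, (u i).natDegree, fun i => ?_, by omega⟩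
    have := Finset.single_le_sum (f := fun i => (u i).natDegree) (fun _ _ => Nat.zero_le _)
      (Finset.mem_univ i)
    omega
  -- the remainders
  obtain ⟨w, hw⟩ : ∃ w : Fin n → K[X], w = fun i => (X ^ (M + D) * u i) % (P j) := ⟨_, rfl⟩
  have hwd : ∀ i, (w i).natDegree ≤ D := by
    intro i
    rw [hw]
    rcases Nat.eq_zero_or_pos (P j).natDegree with h0 | h0
    · -- `P j` is a constant
      have h1 : P j ∣ X ^ (M + D) * u i := by
        rw [eq_C_of_natDegree_eq_zero h0] at hj0 ⊢
        have h2 : (P j).coeff 0 ≠ 0 := fun h => hj0 (by rw [h, C_0])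
        exact (isUnit_C.2 (isUnit_iff_ne_zero.2 h2)).dvd
      have h3 : (X ^ (M + D) * u i) % (P j) = 0 := (EuclideanDomain.mod_eq_zero).2 h1
      show ((X ^ (M + D) * u i) % (P j)).natDegree ≤ D
      rw [h3, natDegree_zero]
      exact Nat.zero_le _
    · have h1 := natDegree_mod_lt (X ^ (M + D) * u i) (q := P j) (by omega)
      show ((X ^ (M + D) * u i) % (P j)).natDegree ≤ D
      omega
  have hdvd : P j ∣ X ^ (M + D) - ∑ i ∈ univ.erase j, w i * P i := by
    have h1 : X ^ (M + D) - ∑ i ∈ univ.erase j, w i * P i =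
        X ^ (M + D) * u j * P j + ∑ i ∈ univ.erase j, (X ^ (M + D) * u i - w i) * P i := by
      have h2 : (X : K[X]) ^ (M + D) = ∑ i, X ^ (M + D) * u i * P i := by
        have h3 : ∑ i, X ^ (M + D) * u i * P i = X ^ (M + D) * ∑ i, u i * P i := by
          rw [Finset.mul_sum]
          exact Finset.sum_congr rfl fun i _ => by ring
        rw [h3, hu, mul_one]
      conv_lhs => rw [h2]
      rw [← Finset.add_sum_erase _ _ (Finset.mem_univ j), add_sub_assoc, ← Finset.sum_sub_distrib]
      congr 1
      exact Finset.sum_congr rfl fun i _ => by ring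
    rw [h1]
    refine dvd_add (dvd_mul_left _ _) (Finset.dvd_sum fun i _ => Dvd.dvd.mul_right ?_ _)
    rw [hw]
    show P j ∣ X ^ (M + D) * u i - (X ^ (M + D) * u i) % (P j)
    refine ⟨(X ^ (M + D) * u i) / (P j), ?_⟩
    have := EuclideanDomain.div_add_mod (X ^ (M + D) * u i) (P j)
    linear_combination -this
  obtain ⟨g, hg⟩ := hdvd
  have hgd : g.natDegree ≤ M := by
    rcases eq_or_ne g 0 with h0 | h0
    · rw [h0, natDegree_zero]
      exact Nat.zero_le _
    have h1 : (P j * g).natDegree ≤ M + D := by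
      rw [← hg]
      refine (natDegree_sub_le _ _).trans (max_le (natDegree_X_pow_le _) ?_)
      refine natDegree_sum_le_of_forall_le _ _ fun i _ => ?_
      refine natDegree_mul_le.trans ?_
      have := hwd i
      have := hD i
      omega
    rw [natDegree_mul hj0 h0, hj] at h1
    omega
  obtain ⟨W, hW⟩ : ∃ W : Fin n → K[X], W = fun i => if i = j then g else w i := ⟨_, rfl⟩
  have hWs : ∑ i, W i * P i = X ^ (M + D) := by
    rw [← Finset.add_sum_erase _ _ (Finset.mem_univ j)]
    have h1 : W j = g := by rw [hW]; simp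
    have h2 : ∑ i ∈ univ.erase j, W i * P i = ∑ i ∈ univ.erase j, w i * P i := by
      refine Finset.sum_congr rfl fun i hi => ?_
      rw [hW]
      simp [Finset.ne_of_mem_erase hi]
    rw [h1, h2, mul_comm g, ← hg]
    ring
  have hWd : ∀ i, (W i).natDegree ≤ M := by
    intro i
    rw [hW]
    show (if i = j then g else w i).natDegree ≤ M
    split_ifs
    · exact hgd
    · exact (hwd i).trans hM2
  obtain ⟨Q, hQ⟩ : ∃ Q : Fin 2 × Fin n → MvPolynomial (Fin 2) K,
      Q = fun a => if a.1 = 0 then hom M (W a.2) else hom M (u a.2) := ⟨_, rfl⟩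
  obtain ⟨C, hC⟩ := Height.logHeight_eval_ge' (K := K) (N := D) (M := M) (q := Q) fun a => by
    rw [hQ]
    show (if a.1 = 0 then hom M (W a.2) else hom M (u a.2)).IsHomogeneous M
    split_ifs
    · exact hom_isHomogeneous _ _
    · exact hom_isHomogeneous _ _
  refine ⟨C, fun t => ?_⟩
  have h := hC (fun i => hom D (P i)) (x := ![t, 1]) (by
    intro k
    have e1 : ∀ i, MvPolynomial.eval ![t, 1] (hom D (P i)) = (P i).eval t :=
      fun i => eval_hom (hD i) t
    fin_cases k
    · have e2 : ∀ i, MvPolynomial.eval ![t, 1] (Q ((0 : Fin 2), i)) = (W i).eval t := by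
        intro i
        rw [hQ]
        exact eval_hom (hWd i) t
      have e3 : ∑ i, (W i).eval t * (P i).eval t = t ^ (M + D) := by
        have h1 := congrArg (Polynomial.eval t) hWs
        rw [eval_finsetSum] at h1
        simpa using h1
      show ∑ i, MvPolynomial.eval ![t, 1] (Q ((0 : Fin 2), i)) *
        MvPolynomial.eval ![t, 1] (hom D (P i)) = t ^ (M + D)
      rw [← e3]
      exact Finset.sum_congr rfl fun i _ => by rw [e1, e2]
    · have e2 : ∀ i, MvPolynomial.eval ![t, 1] (Q ((1 : Fin 2), i)) = (u i).eval t := by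
        intro i
        rw [hQ]
        exact eval_hom (hM1 i) t
      have e3 : ∑ i, (u i).eval t * (P i).eval t = 1 := by
        have h1 := congrArg (Polynomial.eval t) hu
        rw [eval_finsetSum] at h1
        simpa using h1
      show ∑ i, MvPolynomial.eval ![t, 1] (Q ((1 : Fin 2), i)) *
        MvPolynomial.eval ![t, 1] (hom D (P i)) = 1 ^ (M + D)
      rw [one_pow]
      refine Eq.trans ?_ e3
      exact Finset.sum_congr rfl fun i _ => by rw [e1, e2])
  rw [logHeight_vec] at h
  have e : (fun i => MvPolynomial.eval ![t, 1] (hom D (P i))) = fun i => (P i).eval t :=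
    funext fun i => eval_hom (hD i) t
  rwa [e] at h

end Ht

end Pool.Agent.Y557.NF
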