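import Pool.Agent.Y557.NF.Curve
import Pool.Agent.Y557.NF.CurveHt

/-!
The points of all heights on a rational curve in projective space over a number field, counted by
their radical (helper557).
-/

set_option autoImplicit false

namespace Pool.Agent.Y557.NF

open NumberField IsDedekindDomain Finset Polynomial
open Pool.Agent.TH876.KR (form counting localHeight localHeight_nonneg localHeight_eq
  localHeight_pos_iff log_Nv_pos' m2 form_le good_finite Good m2_of_good)
open Pool.Agent.H691R3 Pool.Agent.TH876.Loc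
open Pool.Agent.Y728 Pool.Agent.Y728.AK
open Pool.Agent.TH876.TM (supp)

variable {K : Type} [Field K] [NumberField K] {n : ℕ}

/-- the points of the line which are mapped to the coordinate hyperplanes, as a family -/
noncomputable def al {K : Type} [Field K] {n : ℕ} (P : Fin n → K[X]) (j : Fin (nz P)) :
    Fin 2 → K :=
  cd (((pts P).equivFinOfCardEq (card_pts P)).symm j).1

omit [NumberField K] in
theorem form_al (P : Fin n → K[X]) (i j : Fin (nz P)) (h : i ≠ j) :
    form (al P i) (al P j) ≠ 0 := by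
  unfold al
  refine form_cd fun h' => h ?_
  exact ((pts P).equivFinOfCardEq (card_pts P)).symm.injective (Subtype.ext h')

omit [NumberField K] in
theorem al_spec {P : Fin n → K[X]} {p : (Fin 2 → K) → Prop} :
    (∃ j, p (al P j)) ↔ ∃ a ∈ pts P, p (cd a) := by
  constructor
  · rintro ⟨j, hj⟩
    exact ⟨_, (((pts P).equivFinOfCardEq (card_pts P)).symm j).2, hj⟩
  · rintro ⟨a, ha, h⟩
    refine ⟨(pts P).equivFinOfCardEq (card_pts P) ⟨a, ha⟩, ?_⟩
    unfold al
    rw [Equiv.symm_apply_apply]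
    exact h

omit [NumberField K] in
theorem form_al_eval {P : Fin n → K[X]} (hP : ∀ i, P i ≠ 0) {t : K}
    (ht : ∀ i, (P i).eval t ≠ 0) (j : Fin (nz P)) : form (al P j) ![t, 1] ≠ 0 :=
  form_cd_eval hP ht (((pts P).equivFinOfCardEq (card_pts P)).symm j).2

/-- the logarithm of the radical of a point of the curve, relative to `K` -/
noncomputable def rd (P : Fin n → K[X]) (t : K) : ℝ :=
  ∑ᶠ v ∈ supp (fun i => (P i).eval t), Real.log (Ideal.absNorm v.asIdeal : ℝ)

theorem supp_fin (z : Fin n → K) (hz : ∀ i, z i ≠ 0) : (supp z).Finite := by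
  refine (Set.finite_iUnion fun i => fv_support_finite (hz i)).subset ?_
  rintro v ⟨i, j, hij⟩
  by_contra hc
  rw [Set.mem_iUnion, not_exists] at hc
  have h0 : ∀ i, fv v (z i) = 1 := by
    intro i
    have := hc i
    rw [Set.mem_ofPred_eq, not_not] at this
    exact this
  apply hij
  refine le_antisymm ?_ ?_
  · rw [← not_lt, ← fv_lt_iff, h0, h0]
    exact lt_irrefl _
  · rw [← not_lt, ← fv_lt_iff, h0, h0]
    exact lt_irrefl _

/-- the radical and the truncated counting function -/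
theorem rd_bounds {P : Fin n → K[X]} (hP : ∀ i, P i ≠ 0) (hs : ∀ i, (P i).Splits)
    (hc : ∀ r : K, ∃ i, (P i).eval r ≠ 0) :
    ∃ (S : Set (Pr K)) (c : ℝ), S.Finite ∧ 0 ≤ c ∧ ∀ t : K, (∀ i, (P i).eval t ≠ 0) →
      counting S (al P) ![t, 1] ≤ rd P t ∧ rd P t ≤ counting S (al P) ![t, 1] + c := by
  classical
  obtain ⟨S, hSe⟩ : ∃ S : Set (Pr K), S = {v : Pr K | ¬ GoodC v P} := ⟨_, rfl⟩
  have hS : S.Finite := by
    rw [hSe]
    exact goodC_finite hP
  refine ⟨S, ∑ v ∈ hS.toFinset, Real.log (Nv v), hS,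
    Finset.sum_nonneg fun v _ => (log_Nv_pos' v).le, fun t ht => ?_⟩
  have hfin : (supp (fun i => (P i).eval t)).Finite := supp_fin _ ht
  have hset : {v : HeightOneSpectrum (𝓞 K) | v ∉ S ∧ 0 < ∑ i, localHeight v (al P i) ![t, 1]} =
      supp (fun i => (P i).eval t) \ S := by
    ext v
    rw [Set.mem_ofPred_eq, Set.mem_sdiff, and_comm]
    refine and_congr_left fun hv => ?_
    have hg : GoodC v P := by
      by_contra h
      apply hv
      rw [hSe]
      exact h
    rw [mem_supp_iff hP hs hc hg ht, ← al_spec (p := fun a => 0 < localHeight v a ![t, 1])]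
    constructor
    · intro h
      by_contra hcon
      push Not at hcon
      have : ∑ i, localHeight v (al P i) ![t, 1] ≤ 0 := Finset.sum_nonpos fun i _ => hcon i
      linarith
    · rintro ⟨j, hj⟩
      exact Finset.sum_pos' (fun i _ => localHeight_nonneg v (form_al_eval hP ht i))
        ⟨j, Finset.mem_univ _, hj⟩
  have h1 : rd P t = ∑ᶠ v ∈ supp (fun i => (P i).eval t) ∩ S,
      Real.log (Ideal.absNorm v.asIdeal : ℝ) + counting S (al P) ![t, 1] := by
    unfold rd counting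
    rw [hset]
    exact (finsum_mem_inter_add_sdiff S hfin).symm
  have h2 : 0 ≤ ∑ᶠ v ∈ supp (fun i => (P i).eval t) ∩ S,
      Real.log (Ideal.absNorm v.asIdeal : ℝ) :=
    finsum_nonneg fun v => finsum_nonneg fun _ => (log_Nv_pos' v).le
  have h3 : ∑ᶠ v ∈ supp (fun i => (P i).eval t) ∩ S, Real.log (Ideal.absNorm v.asIdeal : ℝ) ≤
      ∑ v ∈ hS.toFinset, Real.log (Nv v) := by
    have hf : (supp (fun i => (P i).eval t) ∩ S).Finite := hfin.subset Set.inter_subset_left
    rw [finsum_mem_eq_finite_toFinset_sum _ hf]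
    refine Finset.sum_le_sum_of_subset_of_nonneg ?_ fun v _ _ => (log_Nv_pos' v).le
    intro v hv
    rw [Set.Finite.mem_toFinset] at hv ⊢
    exact hv.2
  constructor <;> linarith

theorem localHeight_comm (v : Pr K) (a x : Fin 2 → K) : localHeight v a x = localHeight v x a := by
  rw [localHeight_eq, localHeight_eq]
  have e : form a x = -form x a := by
    unfold form
    ring
  rw [e, (fv v).map_neg, mul_comm (m2 v a)]

theorem counting_smul (S : Set (Pr K)) {q : ℕ} (a : Fin q → Fin 2 → K) {c : K} (hc : c ≠ 0)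
    {x : Fin 2 → K} (hx : ∀ i, form (a i) x ≠ 0) :
    counting S a (c • x) = counting S a x := by
  have h : ∀ (v : Pr K) (i : Fin q), localHeight v (a i) (c • x) = localHeight v (a i) x := by
    intro v i
    rw [localHeight_comm, Pool.Agent.Y730.QP.localHeight_smul v hc, localHeight_comm]
    have e : form x (a i) = -form (a i) x := by
      unfold form
      ring
    rw [e]
    exact neg_ne_zero.2 (hx i)
  unfold counting
  simp only [h]

/-- the parameters with radical at most `log X` -/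
def VV (P : Fin n → K[X]) (X : ℝ) : Set K :=
  {t | (∀ i, (P i).eval t ≠ 0) ∧ rd P t ≤ Real.log X}

/-- those with a large height -/
def EE (P : Fin n → K[X]) (M c X : ℝ) : Set K :=
  {t | t ∈ VV P X ∧ M * rd P t ≤ Height.logHeight (fun i => (P i).eval t) + c}

/-- the count from above -/
theorem vv_upper {P : Fin n → K[X]} (hP : ∀ i, P i ≠ 0) (hs : ∀ i, (P i).Splits)
    (hc : ∀ r : K, ∃ i, (P i).eval r ≠ 0) (hq : 3 ≤ nz P) (δ : ℝ) (hδ : 0 < δ) :
    ∃ C : ℝ, ∀ X : ℝ, 1 ≤ X → (VV P X).Finite ∧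
      ((VV P X).ncard : ℝ) ≤ C * X ^ (2 / (nz P : ℝ) + δ) := by
  obtain ⟨S, c, hS, hc0, hb⟩ := rd_bounds hP hs hc
  obtain ⟨C, hC⟩ := line_final K S hS (nz P) hq (al P) (form_al P) δ hδ
  refine ⟨C, fun X hX => ?_⟩
  obtain ⟨h1, h2⟩ := hC X hX
  have hmaps : ∀ t ∈ VV P X, toP t ∈ PtsQ S (al P) X := by
    rintro t ⟨ht, hr⟩
    refine ⟨![t, 1], _, rfl, fun i => form_al_eval hP ht i, ?_⟩
    rw [← Real.le_log_iff_exp_le (by linarith)]
    exact (hb t ht).1.trans hr
  refine ⟨Set.Finite.of_injOn hmaps toP_inj.injOn h1, le_trans ?_ h2⟩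
  exact_mod_cast Set.ncard_le_ncard_of_injOn toP hmaps toP_inj.injOn h1

/-- the points of large height -/
theorem ee_upper {P : Fin n → K[X]} (hP : ∀ i, P i ≠ 0) (hs : ∀ i, (P i).Splits)
    (hc : ∀ r : K, ∃ i, (P i).eval r ≠ 0) (hq : 3 ≤ nz P) {D : ℕ} (hD0 : 1 ≤ D)
    (hD : ∀ i, (P i).natDegree ≤ D) {M : ℝ} (hM : (D : ℝ) / nz P < M) (c : ℝ) :
    ∃ ν C : ℝ, 0 < ν ∧ 0 ≤ C ∧ ∀ X : ℝ, 1 ≤ X →
      ((EE P M c X).ncard : ℝ) ≤ C * X ^ (2 / (nz P : ℝ) - ν) := by
  classical
  obtain ⟨S, c1, hS, hc0, hb⟩ := rd_bounds hP hs hc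
  obtain ⟨C0, hC0⟩ := curve_height_le P hD
  obtain ⟨q, hqe⟩ : ∃ q : ℝ, q = nz P := ⟨_, rfl⟩
  have hq0 : (3 : ℝ) ≤ q := by rw [hqe]; exact_mod_cast hq
  have hqp : (0 : ℝ) < q := by linarith
  have hDp : (0 : ℝ) < D := by exact_mod_cast hD0
  rw [← hqe] at hM
  obtain ⟨M1, hM1⟩ : ∃ M1 : ℝ, M1 = (M / D + 1 / q) / 2 := ⟨_, rfl⟩
  have hMD : 1 / q < M / D := by
    rw [div_lt_div_iff₀ hqp hDp]
    rw [div_lt_iff₀ hqp] at hM
    linarith
  have hM1a : 1 / q < M1 := by rw [hM1]; linarith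
  have hM1b : M1 < M / D := by rw [hM1]; linarith
  have h1q : 0 < 1 / q := by positivity
  obtain ⟨ν, C1, hν, hνq, hC1, hexc⟩ := line_exc K S hS (nz P) hq (al P) (form_al P)
    (M := M1) (by rw [← hqe]; exact hM1a)
  obtain ⟨C2, hC2⟩ := line_final K S hS (nz P) hq (al P) (form_al P) 1 one_pos
  obtain ⟨L, hL⟩ : ∃ L : ℝ, L = (|C0| + |c|) / D / (M / D - M1) := ⟨_, rfl⟩
  have hfinL : (PtsQ S (al P) (Real.exp L)).Finite := by
    have h1 := (hC2 (max 1 (Real.exp L)) (le_max_left _ _)).1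
    refine h1.subset ?_
    rintro P ⟨x, hx, e1, e2, e3⟩
    exact ⟨x, hx, e1, e2, e3.trans (le_max_right _ _)⟩
  obtain ⟨N, hN⟩ : ∃ N : ℝ, N = ((PtsQ S (al P) (Real.exp L)).ncard : ℝ) := ⟨_, rfl⟩
  have hN0 : 0 ≤ N := by rw [hN]; positivity
  refine ⟨ν, C1 + N, hν, by positivity, fun X hX => ?_⟩
  have hX0 : 0 < X := by linarith
  have hfin1 : (ExcQ S (al P) M1 X).Finite := (hC2 X hX).1.subset (ExcQ_sub _ _ _ _)
  have hmaps : ∀ t ∈ EE P M c X, toP t ∈ ExcQ S (al P) M1 X ∪ PtsQ S (al P) (Real.exp L) := by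
    rintro t ⟨⟨ht, hr⟩, hlt⟩
    obtain ⟨b1, b2⟩ := hb t ht
    have hcn : 0 ≤ counting S (al P) ![t, 1] := by
      unfold counting
      exact finsum_nonneg fun v => finsum_nonneg fun _ => (log_Nv_pos' v).le
    have hMp : 0 < M := lt_trans (by positivity) hM
    have h1 : M * counting S (al P) ![t, 1] ≤ C0 + D * Height.logHeight₁ t + c :=
      ((mul_le_mul_of_nonneg_left b1 hMp.le).trans hlt).trans (by linarith [hC0 t])
    have h2 : M / D * counting S (al P) ![t, 1] ≤
        (|C0| + |c|) / D + Height.logHeight₁ t := by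
      rw [div_mul_eq_mul_div, div_le_iff₀ hDp, add_mul, div_mul_cancel₀ _ hDp.ne']
      have := le_abs_self C0
      have := le_abs_self c
      linarith
    by_cases hbig : (|C0| + |c|) / D ≤ (M / D - M1) * counting S (al P) ![t, 1]
    · left
      refine ⟨![t, 1], _, rfl, fun i => form_al_eval hP ht i, ?_, ?_⟩
      · rw [← Real.le_log_iff_exp_le hX0]
        exact b1.trans hr
      · rw [logHeight_vec]
        linarith
    · right
      rw [not_le] at hbig
      refine ⟨![t, 1], _, rfl, fun i => form_al_eval hP ht i, ?_⟩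
      refine Real.exp_le_exp.2 ?_
      rw [hL, le_div_iff₀ (by linarith)]
      linarith
  have h1 : ((EE P M c X).ncard : ℝ) ≤ ((ExcQ S (al P) M1 X).ncard : ℝ) + N := by
    rw [hN]
    exact_mod_cast (Set.ncard_le_ncard_of_injOn toP hmaps toP_inj.injOn
      (hfin1.union hfinL)).trans (Set.ncard_union_le _ _)
  have h2 := hexc X hX
  have h3 : 1 ≤ X ^ (2 / (nz P : ℝ) - ν) := by
    refine Real.one_le_rpow hX ?_
    rw [← hqe] at hνq ⊢
    have : 1 / q ≤ 2 / q := div_le_div_of_nonneg_right (by norm_num) hqp.le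
    linarith
  nlinarith

/-- the count from below -/
theorem vv_lower {P : Fin n → K[X]} (hP : ∀ i, P i ≠ 0) (hs : ∀ i, (P i).Splits)
    (hc : ∀ r : K, ∃ i, (P i).eval r ≠ 0) (hq : 3 ≤ nz P) (δ : ℝ) (hδ : 0 < δ) :
    ∃ X₀ : ℝ, 1 ≤ X₀ ∧ ∀ X : ℝ, X₀ ≤ X →
      X ^ (2 / (nz P : ℝ) - δ) ≤ ((VV P X).ncard : ℝ) := by
  classical
  obtain ⟨S, c, hS, hc0, hb⟩ := rd_bounds hP hs hc
  obtain ⟨q, hqe⟩ : ∃ q : ℝ, q = nz P := ⟨_, rfl⟩
  have hq0 : (3 : ℝ) ≤ q := by rw [hqe]; exact_mod_cast hq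
  have hqp : (0 : ℝ) < q := by linarith
  obtain ⟨δ', hδ'⟩ : ∃ δ' : ℝ, δ' = min δ (1 / q) / 2 := ⟨_, rfl⟩
  have h1q : 0 < 1 / (q : ℝ) := by positivity
  have h0 : 0 < δ' := by
    rw [hδ']
    have : 0 < min δ (1 / (q : ℝ)) := lt_min hδ h1q
    positivity
  have hδ1 : 2 * δ' ≤ δ := by rw [hδ']; linarith [min_le_left δ (1 / (q : ℝ))]
  have hδ2 : 2 * δ' ≤ 1 / q := by rw [hδ']; linarith [min_le_right δ (1 / (q : ℝ))]
  have h21 : 1 / q ≤ 2 / q := div_le_div_of_nonneg_right (by norm_num) hqp.le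
  obtain ⟨X0, hX0, h⟩ := line_low K S hS (nz P) hq (al P) (form_al P) δ' h0
  obtain ⟨C, hC⟩ := vv_upper hP hs hc hq 1 one_pos
  rw [← hqe] at h ⊢
  obtain ⟨Λ, hΛ⟩ : ∃ Λ : ℝ, Λ = (Real.log 2 + c * (2 / q - δ')) / δ' := ⟨_, rfl⟩
  refine ⟨max (X0 * Real.exp c) (Real.exp Λ), ?_, fun X hX => ?_⟩
  · refine le_trans ?_ (le_max_left _ _)
    have : 1 ≤ Real.exp c := Real.one_le_exp hc0
    nlinarith
  have hXX : X0 * Real.exp c ≤ X := (le_max_left _ _).trans hX
  have hXe : Real.exp Λ ≤ X := (le_max_right _ _).trans hX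
  have h1X : 1 ≤ X := by
    have : 1 ≤ Real.exp c := Real.one_le_exp hc0
    nlinarith
  have hXp : 0 < X := by linarith
  obtain ⟨Y, hY⟩ : ∃ Y : ℝ, Y = X * Real.exp (-c) := ⟨_, rfl⟩
  have hYX : X0 ≤ Y := by
    have h2 := mul_le_mul_of_nonneg_right hXX (Real.exp_pos (-c)).le
    rw [mul_assoc, ← Real.exp_add, add_neg_cancel, Real.exp_zero, mul_one] at h2
    rw [hY]
    exact h2
  have hYp : 0 < Y := by linarith
  have hlogY : Real.log Y = Real.log X - c := by
    rw [hY, Real.log_mul hXp.ne' (Real.exp_pos _).ne', Real.log_exp]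
    ring
  have hfin := (hC X h1X).1
  -- the points different from infinity are values
  have hsub : PtsQ S (al P) Y ⊆ (toP '' (VV P X)) ∪ {Projectivization.mk K ![1, 0]
        (fun h => one_ne_zero (congrFun h 0))} := by
    rintro Q ⟨x, hx, rfl, hf, hcn⟩
    by_cases hx1 : x 1 = 0
    · right
      rw [Set.mem_singleton_iff, Projectivization.mk_eq_mk_iff']
      refine ⟨x 0, ?_⟩
      funext i
      fin_cases i
      · simp
      · simp [hx1]
    · left
      have e1 : Projectivization.mk K x hx = toP (x 0 / x 1) := by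
        unfold toP
        rw [Projectivization.mk_eq_mk_iff']
        refine ⟨x 1, ?_⟩
        funext i
        fin_cases i
        · show x 1 * (x 0 / x 1) = x 0
          field_simp
        · show x 1 * 1 = x 1
          rw [mul_one]
      have e2 : x = x 1 • ![x 0 / x 1, 1] := by
        funext i
        fin_cases i
        · show x 0 = x 1 * (x 0 / x 1)
          field_simp
        · show x 1 = x 1 * 1
          rw [mul_one]
      have e3 : ∀ i, form (al P i) ![x 0 / x 1, 1] ≠ 0 := by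
        intro i h'
        apply hf i
        rw [e2]
        unfold form at h' ⊢
        rw [Pi.smul_apply, Pi.smul_apply, smul_eq_mul, smul_eq_mul]
        linear_combination x 1 * h'
      have hne : ∀ i, (P i).eval (x 0 / x 1) ≠ 0 := by
        intro i hi
        have hr : x 0 / x 1 ∈ rts P := (mem_rts hP).2 ⟨i, hi⟩
        obtain ⟨j, hj⟩ := (al_spec (P := P) (p := fun a => form a ![x 0 / x 1, 1] = 0)).2
          ⟨some (x 0 / x 1), mem_pts_some.2 hr, by
            unfold form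
            simp [cd]⟩
        exact e3 j hj
      refine ⟨x 0 / x 1, ⟨hne, ?_⟩, e1.symm⟩
      have e4 : counting S (al P) x = counting S (al P) ![x 0 / x 1, 1] := by
        conv_lhs => rw [e2]
        exact counting_smul S (al P) hx1 e3
      rw [e4, ← Real.le_log_iff_exp_le hYp, hlogY] at hcn
      have := (hb _ hne).2
      linarith
  have h2 := h Y hYX
  have h3 : ((PtsQ S (al P) Y).ncard : ℝ) ≤ ((VV P X).ncard : ℝ) + 1 := by
    have h4 := Set.ncard_le_ncard hsub ((hfin.image toP).union (Set.finite_singleton _))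
    have h5 := h4.trans (Set.ncard_union_le _ _)
    rw [Set.ncard_singleton, Set.ncard_image_of_injective _ toP_inj] at h5
    exact_mod_cast h5
  have h6 : 1 ≤ X ^ (2 / (q : ℝ) - 2 * δ') := by
    refine Real.one_le_rpow h1X ?_
    linarith
  have h7 : X ^ (2 / (q : ℝ) - δ) ≤ X ^ (2 / (q : ℝ) - 2 * δ') :=
    Real.rpow_le_rpow_of_exponent_le h1X (by linarith)
  have h8 : X ^ (2 / (q : ℝ) - 2 * δ') * 2 ≤ Y ^ (2 / (q : ℝ) - δ') := by
    have h9 : Y ^ (2 / (q : ℝ) - δ') =
        X ^ (2 / (q : ℝ) - 2 * δ') * (X ^ δ' * Real.exp (-(c * (2 / q - δ')))) := by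
      rw [hY, Real.mul_rpow hXp.le (Real.exp_pos _).le, ← mul_assoc, ← Real.rpow_add hXp,
        ← Real.exp_mul]
      congr 2 <;> ring
    rw [h9]
    refine mul_le_mul_of_nonneg_left ?_ (by positivity)
    have h10 : Λ ≤ Real.log X := (Real.le_log_iff_exp_le hXp).2 hXe
    have h11 : Real.log 2 + c * (2 / q - δ') ≤ δ' * Real.log X := by
      rw [hΛ, div_le_iff₀ h0] at h10
      linarith
    have h12 : X ^ δ' = Real.exp (δ' * Real.log X) := by
      rw [Real.rpow_def_of_pos hXp, mul_comm]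
    rw [h12, ← Real.exp_add]
    calc (2 : ℝ) = Real.exp (Real.log 2) := (Real.exp_log two_pos).symm
      _ ≤ _ := Real.exp_le_exp.2 (by linarith)
  linarith

/-- the radical is bounded by the height -/
theorem rd_le_height {P : Fin n → K[X]} (hP : ∀ i, P i ≠ 0) (hs : ∀ i, (P i).Splits)
    (hu : ∃ u : Fin n → K[X], ∑ i, u i * P i = 1) {D : ℕ}
    (hD : ∀ i, (P i).natDegree ≤ D) (hD' : ∃ i, (P i).natDegree = D) :
    ∃ C : ℝ, ∀ t : K, (∀ i, (P i).eval t ≠ 0) →
      D * rd P t ≤ nz P * Height.logHeight (fun i => (P i).eval t) + C := by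
  have hc : ∀ r : K, ∃ i, (P i).eval r ≠ 0 := by
    obtain ⟨u, hu⟩ := hu
    intro r
    by_contra hcon
    push Not at hcon
    have h1 := congrArg (Polynomial.eval r) hu
    rw [eval_finsetSum, eval_one] at h1
    simp [hcon] at h1
  obtain ⟨S, c, hS, hc0, hb⟩ := rd_bounds hP hs hc
  obtain ⟨i0, hi0⟩ := hD'
  obtain ⟨C1, hC1⟩ := le_curve_height P hu hD ⟨i0, hi0, hP i0⟩
  obtain ⟨C2, hC2⟩ := cnt_le_logHeight S (al P)
  have hDn : (0 : ℝ) ≤ D := Nat.cast_nonneg _
  have hqn : (0 : ℝ) ≤ nz P := Nat.cast_nonneg _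
  refine ⟨D * (C2 + c) - nz P * C1, fun t ht => ?_⟩
  have hx0 : (![t, 1] : Fin 2 → K) ≠ 0 := fun h => one_ne_zero (congrFun h 1)
  have hf := fun i => form_al_eval hP ht i
  have h1 := (hb t ht).2
  have h2 := hC2 ![t, 1] hx0 hf
  have h3 : counting S (al P) ![t, 1] ≤ Pool.Agent.Y730.QP.cnt S (al P) ![t, 1] :=
    Pool.Agent.Y730.QP.counting_le S (fun i => (ne_of_form (hf i)).1) hx0 hf
  rw [logHeight_vec] at h2
  have h4 : rd P t ≤ nz P * Height.logHeight₁ t + (C2 + c) := by linarith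
  have h5 := mul_le_mul_of_nonneg_left h4 hDn
  have h6 := mul_le_mul_of_nonneg_left (hC1 t) hqn
  linarith

end Pool.Agent.Y557.NF
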