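import Pool.Agent.Y557.NF.CurveCnt

/-!
The points of all heights on a rational curve in projective space over a number field, ordered by
their radical: the final statement, with absolute heights (helper557).
-/

set_option autoImplicit false

namespace Pool.Agent.Y557.NF

open NumberField IsDedekindDomain Finset Polynomial
open Pool.Agent.TH876.KR (log_Nv_pos')
open Pool.Agent.TH876.TM (supp)

variable {K : Type} [Field K] [NumberField K] {n : ℕ}

theorem ratio_of {A P : ℝ → ℝ} {e ν C X₁ : ℝ} (hν : 0 < ν)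
    (h1 : ∀ X : ℝ, 1 ≤ X → A X ≤ C * X ^ (e - ν))
    (h2 : ∀ X : ℝ, X₁ ≤ X → X ^ (e - ν / 2) ≤ P X) :
    ∃ X₀ : ℝ, ∀ X : ℝ, X₀ ≤ X → A X ≤ X ^ (-(ν / 4)) * P X := by
  have htend : Filter.Tendsto (fun X : ℝ => X ^ (ν / 4)) Filter.atTop Filter.atTop :=
    tendsto_rpow_atTop (by positivity)
  obtain ⟨X₂, hX₂⟩ := (Filter.eventually_atTop.1 (htend.eventually (Filter.eventually_ge_atTop C)))
  refine ⟨max 1 (max X₁ X₂), fun X hX => ?_⟩
  have k1 : 1 ≤ X := (le_max_left _ _).trans hX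
  have k2 : X₁ ≤ X := (le_max_left _ _).trans ((le_max_right _ _).trans hX)
  have k3 : X₂ ≤ X := (le_max_right _ _).trans ((le_max_right _ _).trans hX)
  have hX0 : 0 < X := by linarith
  have hp : ∀ b : ℝ, 0 < X ^ b := fun b => Real.rpow_pos_of_pos hX0 b
  calc A X ≤ C * X ^ (e - ν) := h1 X k1
    _ ≤ X ^ (ν / 4) * X ^ (e - ν) := mul_le_mul_of_nonneg_right (hX₂ X k3) (hp _).le
    _ = X ^ (-(ν / 4)) * X ^ (e - ν / 2) := by
        rw [← Real.rpow_add hX0, ← Real.rpow_add hX0]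
        congr 1
        ring
    _ ≤ X ^ (-(ν / 4)) * P X := mul_le_mul_of_nonneg_left (h2 X k2) (hp _).le

/-- the degree of the field -/
noncomputable def dg (K : Type) [Field K] [NumberField K] : ℝ := (Module.finrank ℚ K : ℝ)

theorem dg_one_le (K : Type) [Field K] [NumberField K] : 1 ≤ dg K := by
  unfold dg
  exact_mod_cast (Module.finrank_pos (R := ℚ) (M := K))

/-- the parameters with normalised radical at most `log X` -/
def VN (P : Fin n → K[X]) (X : ℝ) : Set K :=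
  {t | (∀ i, (P i).eval t ≠ 0) ∧ rd P t / dg K ≤ Real.log X}

/-- those at which `h < M rad + c` fails -/
def EN (P : Fin n → K[X]) (M c X : ℝ) : Set K :=
  {t | t ∈ VN P X ∧ M * (rd P t / dg K) + c ≤
    Height.logHeight (fun i => (P i).eval t) / dg K}

theorem VN_eq (P : Fin n → K[X]) {X : ℝ} (hX : 1 ≤ X) : VN P X = VV P (X ^ dg K) := by
  have hd := dg_one_le K
  ext t
  unfold VN VV
  rw [Set.mem_ofPred_eq, Set.mem_ofPred_eq, Real.log_rpow (by linarith),
    div_le_iff₀ (by linarith), mul_comm (Real.log X)]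

theorem EN_eq (P : Fin n → K[X]) (M c : ℝ) {X : ℝ} (hX : 1 ≤ X) :
    EN P M c X = EE P M (-(dg K * c)) (X ^ dg K) := by
  have hd := dg_one_le K
  ext t
  unfold EN EE
  rw [Set.mem_ofPred_eq, Set.mem_ofPred_eq, VN_eq P hX]
  refine and_congr_right fun _ => ?_
  rw [le_div_iff₀ (by linarith)]
  have : (M * (rd P t / dg K) + c) * dg K = M * rd P t + dg K * c := by
    field_simp
  rw [this]
  constructor <;> intro h <;> linarith

theorem common {P : Fin n → K[X]} (hu : ∃ u : Fin n → K[X], ∑ i, u i * P i = 1) :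
    ∀ r : K, ∃ i, (P i).eval r ≠ 0 := by
  obtain ⟨u, hu⟩ := hu
  intro r
  by_contra hcon
  push Not at hcon
  have h1 := congrArg (Polynomial.eval r) hu
  rw [eval_finsetSum, eval_one] at h1
  simp [hcon] at h1

theorem curve_main {P : Fin n → K[X]} (hP : ∀ i, P i ≠ 0) (hs : ∀ i, (P i).Splits)
    (hu : ∃ u : Fin n → K[X], ∑ i, u i * P i = 1) (hq : 3 ≤ nz P) {D : ℕ}
    (hD : ∀ i, (P i).natDegree ≤ D) (hD' : ∃ i, (P i).natDegree = D) :
    (∀ δ : ℝ, 0 < δ →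
      (∃ C : ℝ, ∀ X : ℝ, 1 ≤ X → (VN P X).Finite ∧
        ((VN P X).ncard : ℝ) ≤ C * X ^ (2 * dg K / nz P + δ)) ∧
      ∃ X₀ : ℝ, ∀ X : ℝ, X₀ ≤ X → X ^ (2 * dg K / nz P - δ) ≤ ((VN P X).ncard : ℝ)) ∧
    (∀ M : ℝ, (D : ℝ) / nz P < M → ∀ c : ℝ, ∃ ν : ℝ, 0 < ν ∧
      (∃ C : ℝ, ∀ X : ℝ, 1 ≤ X →
        ((EN P M c X).ncard : ℝ) ≤ C * X ^ (2 * dg K / nz P - ν)) ∧
      ∃ X₀ : ℝ, ∀ X : ℝ, X₀ ≤ X →
        ((EN P M c X).ncard : ℝ) ≤ X ^ (-ν) * ((VN P X).ncard : ℝ)) ∧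
    (∃ C : ℝ, ∀ t : K, (∀ i, (P i).eval t ≠ 0) →
      D * (rd P t / dg K) ≤ nz P * (Height.logHeight (fun i => (P i).eval t) / dg K) + C) ∧
    (∀ M : ℝ, M < (D : ℝ) / nz P → ∀ c : ℝ, {t : K | (∀ i, (P i).eval t ≠ 0) ∧
      Height.logHeight (fun i => (P i).eval t) / dg K < M * (rd P t / dg K) + c}.Finite) := by
  classical
  have hd := dg_one_le K
  have hd0 : 0 < dg K := by linarith
  have hc := common hu
  obtain ⟨q, hqe⟩ : ∃ q : ℝ, q = nz P := ⟨_, rfl⟩
  have hq0 : (3 : ℝ) ≤ q := by rw [hqe]; exact_mod_cast hq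
  have hqp : (0 : ℝ) < q := by linarith
  -- a positive degree
  have hD1 : 1 ≤ D := by
    by_contra hcon
    have hD0 : D = 0 := by omega
    have h0 : ∀ i, (P i).natDegree = 0 := fun i => by
      have := hD i
      omega
    have h1 : ¬ Unequal P := by
      rintro ⟨i, j, hij⟩
      rw [h0, h0] at hij
      exact lt_irrefl _ hij
    have h2 : rts P = ∅ := by
      rw [Finset.eq_empty_iff_forall_notMem]
      intro r hr
      obtain ⟨i, hi⟩ := (mem_rts hP).1 hr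
      rw [eq_C_of_natDegree_eq_zero (h0 i), eval_C] at hi
      apply hP i
      rw [eq_C_of_natDegree_eq_zero (h0 i), hi, C_0]
    unfold nz at hq
    rw [h2, if_neg h1] at hq
    simp at hq
  -- substitution of the exponents
  have hexp : ∀ {X : ℝ}, 1 ≤ X → ∀ b : ℝ, (X ^ dg K) ^ b = X ^ (dg K * b) := by
    intro X hX b
    rw [← Real.rpow_mul (by linarith)]
  have hup : ∀ δ : ℝ, 0 < δ → ∃ C : ℝ, ∀ X : ℝ, 1 ≤ X → (VN P X).Finite ∧
      ((VN P X).ncard : ℝ) ≤ C * X ^ (2 * dg K / q + δ) := by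
    intro δ hδ
    obtain ⟨C, hC⟩ := vv_upper hP hs hc hq (δ / dg K) (by positivity)
    refine ⟨C, fun X hX => ?_⟩
    obtain ⟨h1, h2⟩ := hC (X ^ dg K) (Real.one_le_rpow hX hd0.le)
    rw [VN_eq P hX]
    refine ⟨h1, h2.trans (le_of_eq ?_)⟩
    rw [hexp hX, ← hqe]
    congr 2
    field_simp
  have hlow : ∀ δ : ℝ, 0 < δ → ∃ X₀ : ℝ, ∀ X : ℝ, X₀ ≤ X →
      X ^ (2 * dg K / q - δ) ≤ ((VN P X).ncard : ℝ) := by
    intro δ hδ
    obtain ⟨X0, hX0, h⟩ := vv_lower hP hs hc hq (δ / dg K) (by positivity)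
    refine ⟨X0, fun X hX => ?_⟩
    have hX1 : 1 ≤ X := hX0.trans hX
    have h1 : X0 ≤ X ^ dg K := by
      refine hX.trans ?_
      calc X = X ^ (1 : ℝ) := (Real.rpow_one X).symm
        _ ≤ X ^ dg K := Real.rpow_le_rpow_of_exponent_le hX1 hd
    have h2 := h _ h1
    rw [VN_eq P hX1]
    refine le_trans (le_of_eq ?_) h2
    rw [hexp hX1, ← hqe]
    congr 1
    field_simp
  have hrad : ∃ C : ℝ, ∀ t : K, (∀ i, (P i).eval t ≠ 0) →
      D * (rd P t / dg K) ≤ q * (Height.logHeight (fun i => (P i).eval t) / dg K) + C := by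
    obtain ⟨C, hC⟩ := rd_le_height hP hs hu hD hD'
    refine ⟨C / dg K, fun t ht => ?_⟩
    have h1 := div_le_div_of_nonneg_right (hC t ht) hd0.le
    rw [← hqe] at h1
    have e1 : D * (rd P t / dg K) = D * rd P t / dg K := by ring
    have e2 : q * (Height.logHeight (fun i => (P i).eval t) / dg K) + C / dg K =
        (q * Height.logHeight (fun i => (P i).eval t) + C) / dg K := by ring
    rw [e1, e2]
    exact h1
  rw [← hqe]
  refine ⟨fun δ hδ => ⟨hup δ hδ, hlow δ hδ⟩, fun M hM c => ?_, hrad, fun M hM c => ?_⟩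
  · obtain ⟨ν, C, hν, hC0, hC⟩ := ee_upper hP hs hc hq hD1 hD (by rw [← hqe]; exact hM)
      (-(dg K * c))
    have hdν : 0 < dg K * ν := mul_pos hd0 hν
    have h1 : ∀ X : ℝ, 1 ≤ X → ((EN P M c X).ncard : ℝ) ≤
        C * X ^ (2 * dg K / q - dg K * ν) := by
      intro X hX
      have h2 := hC (X ^ dg K) (Real.one_le_rpow hX hd0.le)
      rw [EN_eq P M c hX]
      refine h2.trans (le_of_eq ?_)
      rw [hexp hX, ← hqe]
      congr 2
      ring
    obtain ⟨X1, hX1⟩ := hlow (dg K * ν / 2) (by positivity)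
    obtain ⟨X0, hX0⟩ := ratio_of hdν h1 hX1
    refine ⟨dg K * ν / 4, by positivity, ⟨C, fun X hX => (h1 X hX).trans ?_⟩, X0, hX0⟩
    refine mul_le_mul_of_nonneg_left ?_ hC0
    exact Real.rpow_le_rpow_of_exponent_le hX (by linarith)
  · obtain ⟨C, hC⟩ := hrad
    have hpos : 0 < D - q * M := by
      rw [lt_div_iff₀ hqp] at hM
      linarith
    obtain ⟨C1, hC1⟩ := hup 1 one_pos
    obtain ⟨R, hR⟩ : ∃ R : ℝ, R = (q * c + C) / (D - q * M) := ⟨_, rfl⟩
    have hfin := (hC1 (Real.exp |R|) (Real.one_le_exp (abs_nonneg R))).1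
    refine hfin.subset ?_
    rintro t ⟨ht, hlt⟩
    refine ⟨ht, ?_⟩
    rw [Real.log_exp]
    refine le_trans ?_ (le_abs_self R)
    rw [hR, le_div_iff₀ hpos]
    have h1 := hC t ht
    have h2 := mul_lt_mul_of_pos_left hlt hqp
    nlinarith

end Pool.Agent.Y557.NF
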