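import Pool.Agent.Y557.NF.AbsCurve

/-!
Rational curves in projective space over a number field and a hypersurface which they meet in
rational points: the primes at which the local height of the hypersurface is positive (helper557).
-/

set_option autoImplicit false

namespace Pool.Agent.Y557.NF

open NumberField IsDedekindDomain Finset Polynomial
open Pool.Agent.TH876.KR (form localHeight localHeight_nonneg localHeight_eq localHeight_pos_iff
  log_Nv_pos' m2 counting)
open Pool.Agent.H691R3 Pool.Agent.TH876.Loc

variable {K : Type} [Field K] [NumberField K] {n : ℕ}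

/-- the points of a finite set, as a family -/
noncomputable def aS {K : Type} [Field K] (s : Finset (Option K)) (j : Fin s.card) : Fin 2 → K :=
  cd (s.equivFin.symm j).1

omit [NumberField K] in
theorem form_aS (s : Finset (Option K)) (i j : Fin s.card) (h : i ≠ j) :
    form (aS s i) (aS s j) ≠ 0 := by
  unfold aS
  refine form_cd fun h' => h ?_
  exact s.equivFin.symm.injective (Subtype.ext h')

omit [NumberField K] in
theorem aS_spec {s : Finset (Option K)} {p : (Fin 2 → K) → Prop} :
    (∃ j, p (aS s j)) ↔ ∃ a ∈ s, p (cd a) := by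
  constructor
  · rintro ⟨j, hj⟩
    exact ⟨_, (s.equivFin.symm j).2, hj⟩
  · rintro ⟨a, ha, h⟩
    refine ⟨s.equivFin ⟨a, ha⟩, ?_⟩
    unfold aS
    rw [Equiv.symm_apply_apply]
    exact h

open Classical in
/-- the zeros of a polynomial of formal degree `N` -/
noncomputable def zs {K : Type} [Field K] (G : K[X]) (N : ℕ) : Finset (Option K) :=
  G.roots.toFinset.image some ∪ if G.natDegree < N then {none} else ∅

omit [NumberField K] in
theorem mem_zs_some {G : K[X]} (hG : G ≠ 0) {N : ℕ} {r : K} :
    some r ∈ zs G N ↔ G.eval r = 0 := by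
  classical
  unfold zs
  rw [Finset.mem_union, Finset.mem_image]
  constructor
  · rintro (⟨a, ha, h⟩ | h)
    · rw [Option.some.injEq] at h
      rw [← h]
      rw [Multiset.mem_toFinset, mem_roots hG] at ha
      exact ha
    · split_ifs at h <;> simp at h
  · intro h
    refine Or.inl ⟨r, ?_, rfl⟩
    rw [Multiset.mem_toFinset, mem_roots hG]
    exact h

omit [NumberField K] in
theorem mem_zs_none {G : K[X]} {N : ℕ} : none ∈ zs G N ↔ G.natDegree < N := by
  classical
  unfold zs
  rw [Finset.mem_union, Finset.mem_image]
  constructor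
  · rintro (⟨a, ha, h⟩ | h)
    · cases h
    · split_ifs at h with h'
      · exact h'
      · simp at h
  · intro h
    right
    rw [if_pos h]
    exact Finset.mem_singleton_self _

omit [NumberField K] in
theorem card_zs (G : K[X]) (N : ℕ) :
    (zs G N).card = by classical exact (G.roots.toFinset.card + if G.natDegree < N then 1 else 0) := by
  classical
  unfold zs
  rw [Finset.card_union_of_disjoint, Finset.card_image_of_injective _ (Option.some_injective K)]
  · congr 1
    split_ifs <;> simp
  · rw [Finset.disjoint_left]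
    rintro a ha hb
    obtain ⟨r, -, rfl⟩ := Finset.mem_image.1 ha
    split_ifs at hb <;> simp at hb

omit [NumberField K] in
theorem mem_GG_aS {G : K[X]} (hG : G ≠ 0) {N : ℕ} {t : K} :
    t ∈ GG (aS (zs G N)) ↔ G.eval t ≠ 0 := by
  constructor
  · intro h h0
    obtain ⟨j, hj⟩ := (aS_spec (s := zs G N) (p := fun a => form a ![t, 1] = 0)).2
      ⟨some t, (mem_zs_some hG).2 h0, by
        unfold form
        simp [cd]⟩
    exact h j hj
  · intro h j hj
    obtain ⟨a, ha, h1⟩ := (aS_spec (s := zs G N) (p := fun a => form a ![t, 1] = 0)).1 ⟨j, hj⟩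
    cases a with
    | none =>
      unfold form at h1
      simp [cd] at h1
    | some r =>
      have h2 := (mem_zs_some hG).1 ha
      unfold form at h1
      simp only [cd, Matrix.cons_val_zero, Matrix.cons_val_one, mul_one, one_mul] at h1
      rw [sub_eq_zero] at h1
      rw [h1] at h2
      exact h h2

theorem prod_le_one' {α : Type} (m : Multiset α) (f : α → ℝ) (h0 : ∀ a ∈ m, 0 ≤ f a)
    (h1 : ∀ a ∈ m, f a ≤ 1) : (m.map f).prod ≤ 1 := by
  induction m using Multiset.induction_on with
  | empty => simp
  | cons a m ih =>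
    rw [Multiset.map_cons, Multiset.prod_cons]
    have h2 := ih (fun b hb => h0 b (Multiset.mem_cons_of_mem hb))
      (fun b hb => h1 b (Multiset.mem_cons_of_mem hb))
    have h3 := h0 a (Multiset.mem_cons_self a m)
    have h4 := h1 a (Multiset.mem_cons_self a m)
    calc f a * (m.map f).prod ≤ f a * 1 := mul_le_mul_of_nonneg_left h2 h3
      _ ≤ 1 := by rw [mul_one]; exact h4

/-- the values of a polynomial at the primes of good reduction -/
theorem eval_lt_iff {G : K[X]} (hG : G ≠ 0) (hs : G.Splits) {N : ℕ} (hN : G.natDegree ≤ N)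
    {v : Pr K} (g1 : fv v G.leadingCoeff = 1) (g2 : ∀ a ∈ G.roots, fv v a ≤ 1) {t : K}
    (ht : G.eval t ≠ 0) :
    fv v (G.eval t) < max (fv v t) 1 ^ N ↔ ∃ j, 0 < localHeight v (aS (zs G N) j) ![t, 1] := by
  classical
  rw [aS_spec (p := fun a => 0 < localHeight v a ![t, 1])]
  have hloc : ∀ r : K, r ∈ G.roots → (0 < localHeight v (cd (some r)) ![t, 1] ↔
      fv v (t - r) < max (fv v t) 1) := by
    intro r hr
    have hrt : r ≠ t := by
      rintro rfl
      exact ht ((mem_roots hG).1 hr)
    have hf : form (cd (some r)) ![t, 1] ≠ 0 := by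
      unfold form
      simp [cd, sub_eq_zero, hrt]
    rw [localHeight_pos_iff v hf]
    have e1 : m2 v (cd (some r)) = 1 := by
      show max (fv v r) (fv v 1) = 1
      rw [map_one]
      exact max_eq_right (g2 r hr)
    have e2 : m2 v ![t, 1] = max (fv v t) 1 := by
      show max (fv v t) (fv v 1) = _
      rw [map_one]
    have e3 : form (cd (some r)) ![t, 1] = r - t := by
      show r * 1 - 1 * t = _
      ring
    rw [e1, e2, e3, one_mul, fv_sub_comm]
  have hloc0 : 0 < localHeight v (cd none) ![t, 1] ↔ 1 < fv v t := by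
    have hf : form (cd none) ![t, 1] ≠ 0 := by
      unfold form
      simp [cd]
    rw [localHeight_pos_iff v hf]
    have e1 : m2 v (cd (none : Option K)) = 1 := by
      show max (fv v 1) (fv v 0) = 1
      rw [map_one, map_zero]
      exact max_eq_left zero_le_one
    have e2 : m2 v ![t, 1] = max (fv v t) 1 := by
      show max (fv v t) (fv v 1) = _
      rw [map_one]
    have e3 : form (cd (none : Option K)) ![t, 1] = 1 := by
      show (1 : K) * 1 - 0 * t = _
      ring
    rw [e1, e2, e3, one_mul, map_one, lt_max_iff]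
    simp
  have hbig : 1 < fv v t → fv v (G.eval t) = fv v t ^ G.natDegree := by
    intro h1
    rw [fv_eval v hs t, g1, one_mul, hs.natDegree_eq_card_roots]
    have h2 : (G.roots.map fun a => fv v (t - a)) = G.roots.map fun _ => fv v t := by
      refine Multiset.map_congr rfl fun a ha => ?_
      exact fv_sub_eq v (lt_of_le_of_lt (g2 a ha) h1)
    rw [h2, Multiset.map_const', Multiset.prod_replicate]
  rcases le_or_gt (fv v t) 1 with h1 | h1
  · rw [max_eq_right h1, one_pow]
    constructor
    · intro h
      by_contra hcon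
      push Not at hcon
      have h2 : ∀ r ∈ G.roots, fv v (t - r) = 1 := by
        intro r hr
        have h3 := hcon (some r) ((mem_zs_some hG).2 ((mem_roots hG).1 hr))
        rw [← not_lt, hloc r hr, not_lt, max_eq_right h1] at h3
        refine le_antisymm ?_ h3
        exact (Pool.Agent.TH876.KR.fv_sub_le v t r).trans (max_le h1 (g2 r hr))
      have h3 : fv v (G.eval t) = 1 := by
        rw [fv_eval v hs t, g1, one_mul]
        refine Multiset.prod_eq_one fun x hx => ?_
        obtain ⟨a, ha, rfl⟩ := Multiset.mem_map.1 hx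
        exact h2 a ha
      rw [h3] at h
      exact lt_irrefl _ h
    · rintro ⟨a, ha, hpos⟩
      cases a with
      | none =>
        rw [hloc0] at hpos
        exact absurd h1 (not_le.2 hpos)
      | some r =>
        have hr : r ∈ G.roots := (mem_roots hG).2 ((mem_zs_some hG).1 ha)
        rw [hloc r hr, max_eq_right h1] at hpos
        rw [fv_eval v hs t, g1, one_mul, ← Multiset.cons_erase hr, Multiset.map_cons,
          Multiset.prod_cons]
        have h2 : ((G.roots.erase r).map fun a => fv v (t - a)).prod ≤ 1 := by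
          refine prod_le_one' _ _ (fun a _ => (fv v).nonneg _) fun a ha' => ?_
          exact (Pool.Agent.TH876.KR.fv_sub_le v t a).trans
            (max_le h1 (g2 a (Multiset.mem_of_mem_erase ha')))
        have h3 : 0 ≤ fv v (t - r) := (fv v).nonneg _
        calc fv v (t - r) * _ ≤ fv v (t - r) * 1 := mul_le_mul_of_nonneg_left h2 h3
          _ < 1 := by rw [mul_one]; exact hpos
  · rw [max_eq_left h1.le, hbig h1, pow_lt_pow_iff_right₀ h1]
    constructor
    · intro h
      exact ⟨none, mem_zs_none.2 h, hloc0.2 h1⟩
    · rintro ⟨a, ha, hpos⟩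
      cases a with
      | none => exact mem_zs_none.1 ha
      | some r =>
        exfalso
        have hr : r ∈ G.roots := (mem_roots hG).2 ((mem_zs_some hG).1 ha)
        rw [hloc r hr, fv_sub_eq v (lt_of_le_of_lt (g2 r hr) h1), max_eq_left h1.le] at hpos
        exact lt_irrefl _ hpos

theorem fv_sum_le' (v : Pr K) {ι : Type} (s : Finset ι) (f : ι → K) {c : ℝ} (hc : 0 ≤ c)
    (h : ∀ i ∈ s, fv v (f i) ≤ c) : fv v (∑ i ∈ s, f i) ≤ c := by
  classical
  induction s using Finset.induction_on with
  | empty => simpa using hc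
  | insert a s ha ih =>
    rw [Finset.sum_insert ha]
    refine (fv_na v _ _).trans (max_le (h a (Finset.mem_insert_self a s)) ?_)
    exact ih fun i hi => h i (Finset.mem_insert_of_mem hi)

/-- a polynomial with integral coefficients -/
def IntC (v : Pr K) (f : K[X]) : Prop := ∀ k, fv v (f.coeff k) ≤ 1

theorem intC_finite (f : K[X]) : {v : Pr K | ¬ IntC v f}.Finite := by
  classical
  have h1 : (⋃ k ∈ f.support, {v : Pr K | fv v (f.coeff k) ≠ 1}).Finite := by
    refine Set.Finite.biUnion f.support.finite_toSet fun k hk => ?_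
    exact fv_support_finite (mem_support_iff.1 hk)
  refine h1.subset ?_
  intro v hv
  by_contra hcon
  apply hv
  intro k
  by_cases hk : k ∈ f.support
  · by_contra h
    apply hcon
    refine Set.mem_iUnion₂.2 ⟨k, hk, ?_⟩
    intro h'
    exact h h'.le
  · rw [notMem_support_iff.1 hk, map_zero]
    exact zero_le_one

theorem intC_eval {v : Pr K} {f : K[X]} (hf : IntC v f) {D : ℕ} (hD : f.natDegree ≤ D) (t : K) :
    fv v (f.eval t) ≤ max (fv v t) 1 ^ D := by
  have h1 : 1 ≤ max (fv v t) 1 := le_max_right _ _
  rw [eval_eq_sum_range]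
  refine fv_sum_le' v _ _ (by positivity) fun k hk => ?_
  rw [map_mul, map_pow]
  have hk' : k ≤ D := (Nat.lt_succ_iff.1 (Finset.mem_range.1 hk)).trans hD
  calc fv v (f.coeff k) * fv v t ^ k ≤ 1 * max (fv v t) 1 ^ k :=
        mul_le_mul (hf k) (pow_le_pow_left₀ ((fv v).nonneg _) (le_max_left _ _) k)
          (pow_nonneg ((fv v).nonneg _) _) zero_le_one
    _ ≤ max (fv v t) 1 ^ D := by
        rw [one_mul]
        exact pow_le_pow_right₀ h1 hk'

/-- the size of the vector of the coordinates of a point of the curve -/
theorem sup_eval {P : Fin n → K[X]} {u : Fin n → K[X]} (hu : ∑ i, u i * P i = 1)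
    {D : ℕ} (hD : ∀ i, (P i).natDegree ≤ D) {i0 : Fin n} (hi0 : (P i0).natDegree = D)
    {v : Pr K} (h1 : ∀ i, IntC v (P i)) (h2 : ∀ i, IntC v (u i))
    (h3 : fv v (P i0).leadingCoeff = 1) (t : K) :
    ⨆ i, fv v ((P i).eval t) = max (fv v t) 1 ^ D := by
  have : Nonempty (Fin n) := ⟨i0⟩
  have hb : BddAbove (Set.range fun i => fv v ((P i).eval t)) := (Set.finite_range _).bddAbove
  refine le_antisymm (ciSup_le fun i => intC_eval (h1 i) (hD i) t) ?_
  rcases le_or_gt (fv v t) 1 with ht | ht
  · rw [max_eq_right ht, one_pow]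
    by_contra hcon
    rw [not_le] at hcon
    obtain ⟨m, hm⟩ : ∃ m, m = ⨆ i, fv v ((P i).eval t) := ⟨_, rfl⟩
    rw [← hm] at hcon
    have h4 : ∀ i, fv v ((P i).eval t) ≤ m := fun i => by rw [hm]; exact le_ciSup hb i
    have hm0 : 0 ≤ m := ((fv v).nonneg _).trans (h4 i0)
    have h5 : fv v (∑ i, (u i).eval t * (P i).eval t) ≤ m := by
      refine fv_sum_le' v _ _ hm0 fun i _ => ?_
      rw [map_mul]
      have h6 : fv v ((u i).eval t) ≤ 1 := by
        have := intC_eval (h2 i) (le_refl _) t
        rwa [max_eq_right ht, one_pow] at this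
      calc fv v ((u i).eval t) * fv v ((P i).eval t) ≤ 1 * m :=
            mul_le_mul h6 (h4 i) ((fv v).nonneg _) zero_le_one
        _ = m := one_mul m
    have h7 : ∑ i, (u i).eval t * (P i).eval t = 1 := by
      have h8 := congrArg (Polynomial.eval t) hu
      rw [eval_finsetSum] at h8
      simpa using h8
    rw [h7, map_one] at h5
    linarith
  · rw [max_eq_left ht.le]
    refine le_trans ?_ (le_ciSup hb i0)
    -- the leading term dominates
    show fv v t ^ D ≤ fv v ((P i0).eval t)
    have h4 : (P i0).eval t = (P i0).leadingCoeff * t ^ D + (P i0).eraseLead.eval t := by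
      conv_lhs => rw [← eraseLead_add_monomial_natDegree_leadingCoeff (P i0)]
      rw [eval_add, eval_monomial, hi0]
      ring
    have h5 : fv v ((P i0).leadingCoeff * t ^ D) = fv v t ^ D := by
      rw [map_mul, h3, one_mul, map_pow]
    have h6 : fv v ((P i0).eraseLead.eval t) < fv v t ^ D ∨ (P i0).eraseLead = 0 := by
      by_cases hz : (P i0).eraseLead = 0
      · exact Or.inr hz
      left
      have hlt : (P i0).eraseLead.natDegree < D := by
        rw [← hi0]
        rcases eraseLead_natDegree_lt_or_eraseLead_eq_zero (P i0) with h | h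
        · exact h
        · exact absurd h hz
      have hint : IntC v (P i0).eraseLead := by
        intro k
        rw [eraseLead_coeff]
        split_ifs
        · rw [map_zero]
          exact zero_le_one
        · exact h1 i0 k
      have := intC_eval hint (le_refl _) t
      rw [max_eq_left ht.le] at this
      exact lt_of_le_of_lt this (pow_lt_pow_right₀ ht hlt)
    rcases h6 with h6 | h6
    · have h7 : fv v ((P i0).leadingCoeff * t ^ D) ≤
          max (fv v ((P i0).eval t)) (fv v ((P i0).eraseLead.eval t)) := by
        have h8 : (P i0).leadingCoeff * t ^ D = (P i0).eval t - (P i0).eraseLead.eval t := by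
          rw [h4]
          ring
        rw [h8]
        exact Pool.Agent.TH876.KR.fv_sub_le v _ _
      rw [h5] at h7
      rcases le_max_iff.1 h7 with h8 | h8
      · exact h8
      · exact absurd h6 (not_lt.2 h8)
    · rw [h4, h6, eval_zero, add_zero, h5]

end Pool.Agent.Y557.NF
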