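import Pool.Agent.Y557.NF.Hyp

/-!
Rational curves in projective space over a number field and a hypersurface which they meet in
rational points: the truncated counting function (helper557).
-/

set_option autoImplicit false

namespace Pool.Agent.Y557.NF

open NumberField IsDedekindDomain Finset Polynomial
open Pool.Agent.TH876.KR (form localHeight counting)
open Pool.Agent.H691R3 Pool.Agent.TH876.Loc

variable {K : Type} [Field K] [NumberField K] {n : ℕ}

/-- the restriction of the form to the curve -/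
noncomputable def res {K : Type} [Field K] {n : ℕ} (P : Fin n → K[X])
    (F : MvPolynomial (Fin n) K) : K[X] := MvPolynomial.aeval P F

omit [NumberField K] in
theorem eval_res (P : Fin n → K[X]) (F : MvPolynomial (Fin n) K) (t : K) :
    (res P F).eval t = MvPolynomial.eval (fun i => (P i).eval t) F := by
  unfold res
  have h := MvPolynomial.eval₂_comp_left (Polynomial.evalRingHom t) (algebraMap K K[X]) P F
  rw [MvPolynomial.aeval_def]
  have e1 : (Polynomial.evalRingHom t) (MvPolynomial.eval₂ (algebraMap K K[X]) P F) =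
    (MvPolynomial.eval₂ (algebraMap K K[X]) P F).eval t := rfl
  rw [← e1, h]
  have e2 : (Polynomial.evalRingHom t).comp (algebraMap K K[X]) = RingHom.id K := by
    ext a
    simp
  rw [e2]
  rfl

omit [NumberField K] in
theorem natDegree_res {P : Fin n → K[X]} {D : ℕ} (hD : ∀ i, (P i).natDegree ≤ D)
    {F : MvPolynomial (Fin n) K} {e : ℕ} (hF : F.IsHomogeneous e) :
    (res P F).natDegree ≤ D * e := by
  unfold res
  rw [MvPolynomial.aeval_def, MvPolynomial.eval₂_eq]
  refine natDegree_sum_le_of_forall_le _ _ fun d hd => ?_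
  have h1 : ∑ i, d i = e := by
    have := hF (MvPolynomial.mem_support_iff.1 hd)
    rw [Finsupp.weight_apply, Finsupp.sum_fintype _ _ (by simp)] at this
    simpa using this
  refine natDegree_mul_le.trans ?_
  have h2 : (algebraMap K K[X] (MvPolynomial.coeff d F)).natDegree = 0 := natDegree_C _
  rw [h2, zero_add]
  refine (natDegree_prod_le _ _).trans ?_
  have h3 : ∀ i ∈ d.support, (P i ^ d i).natDegree ≤ D * d i := fun i _ =>
    (natDegree_pow_le).trans (by rw [mul_comm]; exact Nat.mul_le_mul_right _ (hD i))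
  refine (Finset.sum_le_sum h3).trans ?_
  rw [← Finset.mul_sum]
  refine Nat.mul_le_mul_left _ ?_
  rw [← h1]
  exact Finset.sum_le_sum_of_subset_of_nonneg (Finset.subset_univ _) fun _ _ _ => Nat.zero_le _

/-- the local height of the hypersurface `F = 0` of degree `e` -/
noncomputable def lamH (F : MvPolynomial (Fin n) K) (e : ℕ) (v : Pr K) (x : Fin n → K) : ℝ :=
  Real.log ((⨆ i, FinitePlace.mk v (x i)) ^ e / FinitePlace.mk v (MvPolynomial.eval x F))

/-- the primes outside `S` where the local height is positive -/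
def BH (S : Set (Pr K)) (F : MvPolynomial (Fin n) K) (e : ℕ) (x : Fin n → K) : Set (Pr K) :=
  {v | v ∉ S ∧ 0 < lamH F e v x}

theorem hyp_bounds {S : Set (Pr K)} (hS : S.Finite) {P : Fin n → K[X]}
    (hu : ∃ u : Fin n → K[X], ∑ i, u i * P i = 1) {D : ℕ} (hD : ∀ i, (P i).natDegree ≤ D)
    {i0 : Fin n} (hi0 : (P i0).natDegree = D) (hP0 : P i0 ≠ 0)
    {F : MvPolynomial (Fin n) K} {e : ℕ} (hF : F.IsHomogeneous e) (hG : res P F ≠ 0)
    (hs : (res P F).Splits) :
    ∃ (S' : Set (Pr K)) (c : ℝ), S'.Finite ∧ 0 ≤ c ∧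
      (∀ t ∈ GG (aS (zs (res P F) (D * e))), counting S' (aS (zs (res P F) (D * e))) ![t, 1] ≤
        ∑ᶠ v ∈ BH S F e (fun i => (P i).eval t), Real.log (Ideal.absNorm v.asIdeal : ℝ)) ∧
      (∀ t ∈ GG (aS (zs (res P F) (D * e))),
        ∑ᶠ v ∈ BH S F e (fun i => (P i).eval t), Real.log (Ideal.absNorm v.asIdeal : ℝ) ≤
        counting S' (aS (zs (res P F) (D * e))) ![t, 1] + c) := by
  classical
  obtain ⟨u, hu⟩ := hu
  obtain ⟨G, hGe⟩ : ∃ G, G = res P F := ⟨_, rfl⟩
  have hGd : G.natDegree ≤ D * e := by rw [hGe]; exact natDegree_res hD hF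
  rw [← hGe] at hG hs ⊢
  -- the bad primes
  obtain ⟨T, hT⟩ : ∃ T : Set (Pr K), T = (⋃ i, {v : Pr K | ¬ IntC v (P i)}) ∪
    (⋃ i, {v : Pr K | ¬ IntC v (u i)}) ∪ {v : Pr K | fv v (P i0).leadingCoeff ≠ 1} ∪
    {v : Pr K | fv v G.leadingCoeff ≠ 1} ∪
    ⋃ a ∈ G.roots.toFinset, {v : Pr K | a ≠ 0 ∧ fv v a ≠ 1} := ⟨_, rfl⟩
  have hTf : T.Finite := by
    rw [hT]
    refine ((((Set.finite_iUnion fun i => intC_finite (P i)).union
      (Set.finite_iUnion fun i => intC_finite (u i))).union
      (fv_support_finite (leadingCoeff_ne_zero.2 hP0))).union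
      (fv_support_finite (leadingCoeff_ne_zero.2 hG))).union ?_
    refine Set.Finite.biUnion (Finset.finite_toSet _) fun a _ => ?_
    by_cases ha : a = 0
    · refine Set.Finite.subset Set.finite_empty ?_
      rintro v ⟨h, -⟩
      exact absurd ha h
    · exact (fv_support_finite ha).subset fun v hv => hv.2
  have hgood : ∀ v ∉ T, (∀ i, IntC v (P i)) ∧ (∀ i, IntC v (u i)) ∧
      fv v (P i0).leadingCoeff = 1 ∧ fv v G.leadingCoeff = 1 ∧ ∀ a ∈ G.roots, fv v a ≤ 1 := by
    intro v hv
    rw [hT] at hv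
    simp only [Set.mem_union, not_or] at hv
    obtain ⟨⟨⟨⟨k1, k2⟩, k3⟩, k4⟩, k5⟩ := hv
    refine ⟨fun i => ?_, fun i => ?_, ?_, ?_, fun a ha => ?_⟩
    · by_contra h
      exact k1 (Set.mem_iUnion.2 ⟨i, h⟩)
    · by_contra h
      exact k2 (Set.mem_iUnion.2 ⟨i, h⟩)
    · by_contra h
      exact k3 h
    · by_contra h
      exact k4 h
    · by_contra h
      apply k5
      refine Set.mem_iUnion₂.2 ⟨a, Multiset.mem_toFinset.2 ha, ?_, ?_⟩
      · rintro rfl
        rw [map_zero] at h
        exact h zero_le_one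
      · intro h'
        exact h h'.le
  -- the condition at the good primes
  have hcond : ∀ v ∉ T, ∀ t : K, G.eval t ≠ 0 → (0 < lamH F e v (fun i => (P i).eval t) ↔
      fv v (G.eval t) < max (fv v t) 1 ^ (D * e)) := by
    intro v hv t ht
    obtain ⟨k1, k2, k3, -, -⟩ := hgood v hv
    have h1 := sup_eval hu hD hi0 k1 k2 k3 t
    have h2 : 0 < fv v (G.eval t) := (fv v).pos ht
    have h3 : 0 < max (fv v t) 1 := lt_of_lt_of_le one_pos (le_max_right _ _)
    unfold lamH
    have e1 : FinitePlace.mk v (MvPolynomial.eval (fun i => (P i).eval t) F) =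
        fv v (G.eval t) := by
      rw [hGe, eval_res]
      rfl
    have e2 : (⨆ i, FinitePlace.mk v ((P i).eval t)) = max (fv v t) 1 ^ D := h1
    rw [e1, e2, Real.log_pos_iff (by positivity), one_lt_div h2, ← pow_mul]
  have hS' : (S ∪ T).Finite := hS.union hTf
  obtain ⟨c, hc0, h⟩ := bounds_of hS' (aS (zs G (D * e)))
    (fun t => BH S F e (fun i => (P i).eval t))
    (fun t ht => by
      have ht' := (mem_GG_aS hG).1 ht
      have h1 : {v : Pr K | fv v (G.eval t) ≠ 1}.Finite := fv_support_finite ht'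
      have h2 : {v : Pr K | t ≠ 0 ∧ fv v t ≠ 1}.Finite := by
        by_cases h0 : t = 0
        · refine Set.Finite.subset Set.finite_empty ?_
          rintro v ⟨h, -⟩
          exact absurd h0 h
        · exact (fv_support_finite h0).subset fun v hv => hv.2
      refine ((hTf.union h1).union h2).subset ?_
      rintro v ⟨hvS, hpos⟩
      by_contra hcon
      rw [Set.mem_union, Set.mem_union, not_or, not_or] at hcon
      obtain ⟨⟨k1, k2⟩, k3⟩ := hcon
      have k2' : fv v (G.eval t) = 1 := by
        by_contra h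
        exact k2 h
      have k3' : fv v t ≤ 1 := by
        by_contra h
        apply k3
        refine ⟨?_, fun h' => h h'.le⟩
        rintro rfl
        rw [map_zero] at h
        exact h zero_le_one
      rw [hcond v k1 t ht', k2', max_eq_right k3', one_pow] at hpos
      exact lt_irrefl _ hpos)
    (fun t ht v hv => by
      rw [Set.mem_union, not_or] at hv
      have ht' := (mem_GG_aS hG).1 ht
      obtain ⟨-, -, -, k4, k5⟩ := hgood v hv.2
      rw [← eval_lt_iff hG hs hGd k4 k5 ht', ← hcond v hv.2 t ht']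
      constructor
      · rintro ⟨-, h⟩
        exact h
      · intro h
        exact ⟨hv.1, h⟩)
  exact ⟨_, c, hS', hc0, fun t ht => (h t ht).1, fun t ht => (h t ht).2⟩

end Pool.Agent.Y557.NF
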