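import Pool.Agent.Y728.AK.QLow
import Pool.Agent.Y730.QP

/-!
The points of the projective line over a number field, counted by the sum of the truncated local
heights relative to `q` points: almost all of them have small height (helper557; the counting
function which takes each prime once is treated in `Pool.Agent.Y728.AK.QPts`).
-/

set_option autoImplicit false

namespace Pool.Agent.Y557.NF

open NumberField IsDedekindDomain Finset
open Pool.Agent.TH876.KR (form localHeight localHeight_nonneg localHeight_eq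
  log_Nv_pos' m2 form_le good_finite Good m2_of_good)
open Pool.Agent.H691R3 Pool.Agent.TH876.Loc
open Pool.Agent.Y730.QP (cnt PQ counting_le supp_finite)
open Pool.Agent.Y728 Pool.Agent.Y728.AK

variable {K : Type} [Field K] [NumberField K]

theorem sup_fin2 (f : Fin 2 → ℝ) : (⨆ i, f i) = max (f 0) (f 1) := by
  refine le_antisymm (ciSup_le fun i => ?_) (max_le ?_ ?_)
  · fin_cases i
    · exact le_max_left _ _
    · exact le_max_right _ _
  · exact le_ciSup (Set.finite_range f).bddAbove 0
  · exact le_ciSup (Set.finite_range f).bddAbove 1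

omit [NumberField K] in
theorem ne_coord {x : Fin 2 → K} (hx : x ≠ 0) : x 0 ≠ 0 ∨ x 1 ≠ 0 := by
  by_contra hcon
  push Not at hcon
  apply hx
  funext j
  fin_cases j
  · exact hcon.1
  · exact hcon.2

theorem m2_pos (v : Pr K) {x : Fin 2 → K} (hx : x ≠ 0) : 0 < m2 v x := by
  rcases ne_coord hx with h | h
  · exact lt_of_lt_of_le ((fv v).pos h) (le_max_left _ _)
  · exact lt_of_lt_of_le ((fv v).pos h) (le_max_right _ _)

omit [NumberField K] in
theorem w2_pos (w : InfinitePlace K) {x : Fin 2 → K} (hx : x ≠ 0) :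
    0 < max (w (x 0)) (w (x 1)) := by
  rcases ne_coord hx with h | h
  · exact lt_of_lt_of_le (w.pos_iff.2 h) (le_max_left _ _)
  · exact lt_of_lt_of_le (w.pos_iff.2 h) (le_max_right _ _)

/-- the height of a point of the line as a sum of local terms -/
theorem logHeight_sum {x : Fin 2 → K} (hx : x ≠ 0) (V : Finset (Pr K))
    (hV : ∀ v, v ∉ V → m2 v x = 1) :
    Height.logHeight x = ∑ w : InfinitePlace K, (w.mult : ℝ) * Real.log (max (w (x 0)) (w (x 1))) +
      ∑ v ∈ V, Real.log (m2 v x) := by
  rw [Height.logHeight_eq_log_mulHeight, NumberField.mulHeight_eq hx]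
  have h1 : ∏ᶠ v : FinitePlace K, ⨆ i : Fin 2, v (x i) = ∏ v ∈ V, m2 v x := by
    rw [← finprod_comp_equiv (FinitePlace.equivHeightOneSpectrum (K := K)).symm]
    have h2 : ∀ v : Pr K, (⨆ i : Fin 2,
        ((FinitePlace.equivHeightOneSpectrum (K := K)).symm v) (x i)) = m2 v x := fun v => by
      rw [sup_fin2]
      rfl
    simp_rw [h2]
    refine finprod_eq_prod_of_mulSupport_subset _ ?_
    intro v hv
    by_contra h
    rw [Function.mem_mulSupport] at hv
    exact hv (hV v h)
  have h3 : ∏ w : InfinitePlace K, (⨆ i : Fin 2, w (x i)) ^ w.mult =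
      ∏ w : InfinitePlace K, (max (w (x 0)) (w (x 1))) ^ w.mult :=
    Finset.prod_congr rfl fun w _ => by rw [sup_fin2]
  rw [h1, h3, Real.log_mul, Real.log_prod, Real.log_prod]
  · congr 1
    refine Finset.sum_congr rfl fun w _ => ?_
    rw [Real.log_pow]
  · exact fun v _ => (m2_pos v hx).ne'
  · exact fun w _ => pow_ne_zero _ (w2_pos w hx).ne'
  · exact Finset.prod_ne_zero_iff.2 fun w _ => pow_ne_zero _ (w2_pos w hx).ne'
  · exact Finset.prod_ne_zero_iff.2 fun v _ => (m2_pos v hx).ne'

/-- the product formula in logarithmic form -/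
theorem product_log {z : K} (hz : z ≠ 0) (V : Finset (Pr K)) (hV : ∀ v, v ∉ V → fv v z = 1) :
    ∑ w : InfinitePlace K, (w.mult : ℝ) * Real.log (w z) + ∑ v ∈ V, Real.log (fv v z) = 0 := by
  have h := NumberField.prod_abs_eq_one hz
  have h1 : ∏ᶠ v : FinitePlace K, v z = ∏ v ∈ V, fv v z := by
    rw [← finprod_comp_equiv (FinitePlace.equivHeightOneSpectrum (K := K)).symm]
    have h2 : ∀ v : Pr K, ((FinitePlace.equivHeightOneSpectrum (K := K)).symm v) z = fv v z :=
      fun v => rfl
    simp_rw [h2]
    refine finprod_eq_prod_of_mulSupport_subset _ ?_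
    intro v hv
    by_contra h
    rw [Function.mem_mulSupport] at hv
    exact hv (hV v h)
  rw [h1] at h
  have h4 := congrArg Real.log h
  rw [Real.log_one, Real.log_mul, Real.log_prod, Real.log_prod] at h4
  · rw [← h4]
    congr 1
    refine Finset.sum_congr rfl fun w _ => ?_
    rw [Real.log_pow]
  · exact fun v _ => ((fv v).pos hz).ne'
  · exact fun w _ => pow_ne_zero _ (w.pos_iff.2 hz).ne'
  · exact Finset.prod_ne_zero_iff.2 fun w _ => pow_ne_zero _ (w.pos_iff.2 hz).ne'
  · exact Finset.prod_ne_zero_iff.2 fun v _ => ((fv v).pos hz).ne'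

omit [NumberField K] in
theorem ne_of_form {a x : Fin 2 → K} (h : form a x ≠ 0) : a ≠ 0 ∧ x ≠ 0 := by
  constructor
  · rintro rfl
    apply h
    unfold form
    simp
  · rintro rfl
    apply h
    unfold form
    simp

omit [NumberField K] in
theorem inf_form_le (w : InfinitePlace K) (a x : Fin 2 → K) :
    w (form a x) ≤ 2 * (max (w (a 0)) (w (a 1)) * max (w (x 0)) (w (x 1))) := by
  unfold form
  have h1 : w (a 0 * x 1 - a 1 * x 0) ≤ w (a 0 * x 1) + w (a 1 * x 0) := by
    have h2 := w.1.add_le (a 0 * x 1) (-(a 1 * x 0))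
    rw [AbsoluteValue.map_neg, ← sub_eq_add_neg] at h2
    exact h2
  refine h1.trans ?_
  rw [map_mul, map_mul]
  have k0 : ∀ z : K, 0 ≤ w z := fun z => apply_nonneg w z
  have h2 : w (a 0) * w (x 1) ≤ max (w (a 0)) (w (a 1)) * max (w (x 0)) (w (x 1)) :=
    mul_le_mul (le_max_left _ _) (le_max_right _ _) (k0 _) ((k0 _).trans (le_max_left _ _))
  have h3 : w (a 1) * w (x 0) ≤ max (w (a 0)) (w (a 1)) * max (w (x 0)) (w (x 1)) :=
    mul_le_mul (le_max_right _ _) (le_max_left _ _) (k0 _) ((k0 _).trans (le_max_left _ _))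
  linarith

/-- the sum of the local heights relative to one point is at most the height, up to a constant -/
theorem sum_localHeight_le {a x : Fin 2 → K} (h : form a x ≠ 0) (V : Finset (Pr K)) :
    ∑ v ∈ V, localHeight v a x ≤
      Height.logHeight a + Height.logHeight x + (Module.finrank ℚ K : ℝ) * Real.log 2 := by
  classical
  obtain ⟨ha, hx⟩ := ne_of_form h
  -- enlarge the set of primes
  obtain ⟨W, hW⟩ : ∃ W : Finset (Pr K), W = V ∪ ((good_finite a).toFinset ∪
      ((good_finite x).toFinset ∪ (fv_support_finite h).toFinset)) := ⟨_, rfl⟩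
  have hVW : V ⊆ W := by rw [hW]; exact Finset.subset_union_left
  have g1 : ∀ v, v ∉ W → m2 v a = 1 := by
    intro v hv
    refine m2_of_good ha ?_
    by_contra hcon
    apply hv
    rw [hW]
    refine Finset.mem_union_right _ (Finset.mem_union_left _ ?_)
    rw [Set.Finite.mem_toFinset]
    exact hcon
  have g2 : ∀ v, v ∉ W → m2 v x = 1 := by
    intro v hv
    refine m2_of_good hx ?_
    by_contra hcon
    apply hv
    rw [hW]
    refine Finset.mem_union_right _ (Finset.mem_union_right _ (Finset.mem_union_left _ ?_))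
    rw [Set.Finite.mem_toFinset]
    exact hcon
  have g3 : ∀ v, v ∉ W → fv v (form a x) = 1 := by
    intro v hv
    by_contra hcon
    apply hv
    rw [hW]
    refine Finset.mem_union_right _ (Finset.mem_union_right _ (Finset.mem_union_right _ ?_))
    rw [Set.Finite.mem_toFinset]
    exact hcon
  have e1 : ∑ v ∈ V, localHeight v a x ≤ ∑ v ∈ W, localHeight v a x :=
    Finset.sum_le_sum_of_subset_of_nonneg hVW fun v _ _ => localHeight_nonneg v h
  have e2 : ∑ v ∈ W, localHeight v a x =
      ∑ v ∈ W, Real.log (m2 v a) + ∑ v ∈ W, Real.log (m2 v x) -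
        ∑ v ∈ W, Real.log (fv v (form a x)) := by
    rw [← Finset.sum_add_distrib, ← Finset.sum_sub_distrib]
    refine Finset.sum_congr rfl fun v _ => ?_
    rw [localHeight_eq, Real.log_div, Real.log_mul (m2_pos v ha).ne' (m2_pos v hx).ne']
    · exact (mul_pos (m2_pos v ha) (m2_pos v hx)).ne'
    · exact ((fv v).pos h).ne'
  have e3 := logHeight_sum ha W g1
  have e4 := logHeight_sum hx W g2
  have e5 := product_log h W g3
  have e6 : ∑ w : InfinitePlace K, (w.mult : ℝ) * Real.log (w (form a x)) ≤
      ∑ w : InfinitePlace K, ((w.mult : ℝ) * Real.log 2 +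
        ((w.mult : ℝ) * Real.log (max (w (a 0)) (w (a 1))) +
        (w.mult : ℝ) * Real.log (max (w (x 0)) (w (x 1))))) := by
    refine Finset.sum_le_sum fun w _ => ?_
    rw [← mul_add, ← mul_add]
    refine mul_le_mul_of_nonneg_left ?_ (Nat.cast_nonneg _)
    have p1 := w2_pos w ha
    have p2 := w2_pos w hx
    rw [← Real.log_mul p1.ne' p2.ne', ← Real.log_mul two_ne_zero (mul_pos p1 p2).ne']
    exact Real.log_le_log (w.pos_iff.2 h) (inf_form_le w a x)
  rw [Finset.sum_add_distrib, Finset.sum_add_distrib, ← Finset.sum_mul] at e6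
  have e7 : ∑ w : InfinitePlace K, (w.mult : ℝ) = Module.finrank ℚ K := by
    exact_mod_cast InfinitePlace.sum_mult_eq (K := K)
  rw [e7] at e6
  linarith

/-- the sum of the truncated local heights is at most `q` times the height, up to a constant -/
theorem cnt_le_logHeight (S : Set (Pr K)) {q : ℕ} (a : Fin q → Fin 2 → K) :
    ∃ C : ℝ, ∀ x : Fin 2 → K, x ≠ 0 → (∀ i, form (a i) x ≠ 0) →
      cnt S a x ≤ q * Height.logHeight x + C := by
  classical
  refine ⟨∑ i, (Height.logHeight (a i) + (Module.finrank ℚ K : ℝ) * Real.log 2),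
    fun x hx0 hx => ?_⟩
  have ha : ∀ i, a i ≠ 0 := fun i => (ne_of_form (hx i)).1
  have hfin := supp_finite ha hx0 hx
  obtain ⟨V, hV⟩ : ∃ V : Finset (Pr K), V = hfin.toFinset := ⟨_, rfl⟩
  have hmem : ∀ v, v ∉ V → ∀ i, localHeight v (a i) x = 0 := by
    intro v hv i
    by_contra hcon
    apply hv
    rw [hV, Set.Finite.mem_toFinset]
    exact ⟨i, hcon⟩
  have e2 : cnt S a x = ∑ v ∈ V,
      if v ∉ S then ∑ i : Fin q, min (localHeight v (a i) x) (Real.log (Nv v)) else 0 := by
    unfold cnt
    rw [finsum_eq_sum_of_support_subset (s := V)]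
    · refine Finset.sum_congr rfl fun v _ => ?_
      rw [finsum_eq_if]
    · intro v hv
      by_contra hcon
      have hcon' : v ∉ V := hcon
      rw [Function.mem_support, finsum_eq_if] at hv
      apply hv
      split_ifs with h
      · rfl
      · refine Finset.sum_eq_zero fun i _ => ?_
        rw [hmem v hcon' i]
        exact min_eq_left (log_Nv_pos' v).le
  rw [e2]
  calc _ ≤ ∑ v ∈ V, ∑ i : Fin q, localHeight v (a i) x := by
        refine Finset.sum_le_sum fun v _ => ?_
        split_ifs
        · exact Finset.sum_nonneg fun i _ => localHeight_nonneg v (hx i)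
        · exact Finset.sum_le_sum fun i _ => min_le_left _ _
    _ = ∑ i : Fin q, ∑ v ∈ V, localHeight v (a i) x := Finset.sum_comm
    _ ≤ ∑ i : Fin q, (Height.logHeight (a i) + Height.logHeight x +
          (Module.finrank ℚ K : ℝ) * Real.log 2) :=
        Finset.sum_le_sum fun i _ => sum_localHeight_le (hx i) V
    _ = _ := by
        rw [Finset.sum_add_distrib, Finset.sum_add_distrib, Finset.sum_const, Finset.card_univ,
          Fintype.card_fin, nsmul_eq_mul, Finset.sum_add_distrib]
        ring

end Pool.Agent.Y557.NF
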