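import Pool.Agent.Y557.NF.Line

/-!
Three points of the projective line over a number field and the affine coordinate relative to them:
estimates which are uniform in the three points (helper557).
-/

set_option autoImplicit false

namespace Pool.Agent.Y557.NF

open NumberField IsDedekindDomain Finset
open Pool.Agent.TH876.KR (form localHeight localHeight_nonneg localHeight_eq
  log_Nv_pos' m2 form_le good_finite Good m2_of_good form_eq_of_not_pos cc cc_ne cc_sum L_tt tt
  Pt_tt tt_inj recover0 recover1 log_nn tri tri_ne three_small)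
open Pool.Agent.H691R3 Pool.Agent.TH876.Loc
open Pool.Agent.Y730.QP (cnt PQ counting_le supp_finite term_nonneg log_Nv_le_localHeight)
open Pool.Agent.Y728 Pool.Agent.Y728.AK

variable {K : Type} [Field K] [NumberField K]

/-- the counting function as a finite sum -/
theorem cnt_eq_V (S : Set (Pr K)) {q : ℕ} {a : Fin q → Fin 2 → K} {x : Fin 2 → K}
    (V : Finset (Pr K)) (hmem : ∀ v, v ∉ V → ∀ i, localHeight v (a i) x = 0) [DecidablePred (· ∈ S)] :
    cnt S a x = ∑ v ∈ V,
      if v ∉ S then ∑ i : Fin q, min (localHeight v (a i) x) (Real.log (Nv v)) else 0 := by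
  classical
  unfold cnt
  rw [finsum_eq_sum_of_support_subset (s := V)]
  · refine Finset.sum_congr rfl fun v _ => ?_
    rw [finsum_eq_if]
  · intro v hv
    by_contra hcon
    have hcon' : v ∉ V := hcon
    rw [Function.mem_support, finsum_eq_if] at hv
    apply hv
    split_ifs with h
    · rfl
    · refine Finset.sum_eq_zero fun i _ => ?_
      rw [hmem v hcon' i]
      exact min_eq_left (log_Nv_pos' v).le

/-- the counting function of one point -/
noncomputable def cnt1 (S : Set (Pr K)) (b x : Fin 2 → K) : ℝ :=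
  cnt S (fun _ : Fin 1 => b) x

theorem exists_V {q : ℕ} {a : Fin q → Fin 2 → K} {x : Fin 2 → K}
    (hx : ∀ i, form (a i) x ≠ 0) (hx0 : x ≠ 0) :
    ∃ V : Finset (Pr K), ∀ v, v ∉ V → ∀ i, localHeight v (a i) x = 0 := by
  classical
  have hfin := supp_finite (fun i => (ne_of_form (hx i)).1) hx0 hx
  refine ⟨hfin.toFinset, fun v hv i => ?_⟩
  by_contra hcon
  apply hv
  rw [Set.Finite.mem_toFinset]
  exact ⟨i, hcon⟩

theorem cnt_eq_sum (S : Set (Pr K)) {q : ℕ} {a : Fin q → Fin 2 → K} {x : Fin 2 → K}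
    (hx : ∀ i, form (a i) x ≠ 0) (hx0 : x ≠ 0) : cnt S a x = ∑ i, cnt1 S (a i) x := by
  classical
  obtain ⟨V, hV⟩ := exists_V hx hx0
  have h1 : ∀ i, cnt1 S (a i) x = ∑ v ∈ V,
      if v ∉ S then min (localHeight v (a i) x) (Real.log (Nv v)) else 0 := by
    intro i
    unfold cnt1
    rw [cnt_eq_V S V (fun v hv _ => hV v hv i)]
    refine Finset.sum_congr rfl fun v _ => ?_
    rw [Fin.sum_univ_one]
  rw [Finset.sum_congr rfl fun i _ => h1 i, Finset.sum_comm, cnt_eq_V S V hV]
  refine Finset.sum_congr rfl fun v _ => ?_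
  split_ifs with h
  · exact Finset.sum_const_zero.symm
  · rfl

theorem cnt1_nonneg (S : Set (Pr K)) {b x : Fin 2 → K} (hx : form b x ≠ 0) : 0 ≤ cnt1 S b x := by
  classical
  obtain ⟨V, hV⟩ := exists_V (a := fun _ : Fin 1 => b) (fun _ => hx) (ne_of_form hx).2
  unfold cnt1
  rw [cnt_eq_V S V hV]
  refine Finset.sum_nonneg fun v _ => ?_
  split_ifs
  · exact le_rfl
  · exact Finset.sum_nonneg fun i _ => term_nonneg v hx

/-- the counting function of one point is at most the sum of the heights, up to a constant -/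
theorem cnt1_le (S : Set (Pr K)) {b x : Fin 2 → K} (hx : form b x ≠ 0) :
    cnt1 S b x ≤ Height.logHeight b + Height.logHeight x + (Module.finrank ℚ K : ℝ) * Real.log 2 := by
  classical
  obtain ⟨V, hV⟩ := exists_V (a := fun _ : Fin 1 => b) (fun _ => hx) (ne_of_form hx).2
  unfold cnt1
  rw [cnt_eq_V S V hV]
  refine le_trans ?_ (sum_localHeight_le hx V)
  refine Finset.sum_le_sum fun v _ => ?_
  split_ifs
  · exact localHeight_nonneg v hx
  · rw [Fin.sum_univ_one]
    exact min_le_left _ _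

/-- three consecutive points carry at most the share `3 / q` of the counting function -/
theorem exists_tri (S : Set (Pr K)) {q : ℕ} (hq : 3 ≤ q) {a : Fin q → Fin 2 → K} {x : Fin 2 → K}
    (hx : ∀ i, form (a i) x ≠ 0) (hx0 : x ≠ 0) :
    ∃ s : Fin q, cnt S (tri a s) x ≤ 3 / q * cnt S a x := by
  obtain ⟨s, hs⟩ := three_small hq (fun i => cnt1 S (a i) x) (cnt S a x)
    (le_of_eq (cnt_eq_sum S hx hx0).symm)
  refine ⟨s, ?_⟩
  rw [cnt_eq_sum S (a := tri a s) (fun i => hx _) hx0]
  exact hs

/-- the primes of the affine coordinate -/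
theorem sp_tt_unif {a : Fin 3 → Fin 2 → K} (ha : ∀ i j, i ≠ j → form (a i) (a j) ≠ 0)
    {x : Fin 2 → K} (hx : ∀ i, form (a i) x ≠ 0) {v : Pr K} (hv : v ∈ sp (tt a x)) :
    (∃ i, 0 < localHeight v (a i) x) ∨ 0 < localHeight v (a 1) (a 2) ∨
      0 < localHeight v (a 2) (a 0) ∨ 0 < localHeight v (a 0) (a 1) := by
  by_contra hcon
  push Not at hcon
  obtain ⟨h0, h1, h2, h3⟩ := hcon
  have e : ∀ i, fv v (form (a i) x) = m2 v (a i) * m2 v x := fun i =>
    form_eq_of_not_pos v (hx i) (not_lt.2 (h0 i))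
  have e1 := form_eq_of_not_pos v (ha 1 2 (by decide)) (not_lt.2 h1)
  have e2 := form_eq_of_not_pos v (ha 2 0 (by decide)) (not_lt.2 h2)
  have e3 := form_eq_of_not_pos v (ha 0 1 (by decide)) (not_lt.2 h3)
  have hp : ∀ i, 0 < m2 v (a i) := fun i => m2_pos v (ne_of_form (hx i)).1
  have hpx : 0 < m2 v x := m2_pos v (ne_of_form (hx 0)).2
  obtain ⟨R, hR⟩ : ∃ R, R = m2 v (a 0) * m2 v (a 1) * m2 v (a 2) * m2 v x := ⟨_, rfl⟩
  have hR0 : R ≠ 0 := by
    rw [hR]
    have := hp 0
    have := hp 1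
    have := hp 2
    positivity
  have key : ∀ i, fv v (cc a i * form (a i) x) = R := by
    intro i
    rw [map_mul, e i, hR]
    fin_cases i
    · show fv v (form (a 1) (a 2)) * (m2 v (a 0) * m2 v x) = _
      rw [e1]
      ring
    · show fv v (form (a 2) (a 0)) * (m2 v (a 1) * m2 v x) = _
      rw [e2]
      ring
    · show fv v (form (a 0) (a 1)) * (m2 v (a 2) * m2 v x) = _
      rw [e3]
      ring
  have h4 : ∀ i, fv v (L i (tt a x)) = 1 := by
    intro i
    rw [L_tt ha hx i, map_mul, map_inv₀, key, key, inv_mul_cancel₀ hR0]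
  rw [mem_sp (Pt_tt ha hx)] at hv
  apply hv
  refine ⟨h4 0, ?_⟩
  have h5 := h4 2
  have e : L 2 (tt a x) = -(tt a x + 1) := by show -(tt a x) - 1 = _; ring
  rw [e, (fv v).map_neg] at h5
  exact h5

/-- the radical of the affine coordinate -/
theorem log_nn_sp_le (T : Finset (Pr K)) {a : Fin 3 → Fin 2 → K}
    (ha : ∀ i j, i ≠ j → form (a i) (a j) ≠ 0) {x : Fin 2 → K} (hx : ∀ i, form (a i) x ≠ 0) :
    Real.log (nn (sp (tt a x))) ≤ cnt (T : Set (Pr K)) a x + ∑ v ∈ T, Real.log (Nv v) +
      2 * ∑ i, Height.logHeight (a i) + 3 * ((Module.finrank ℚ K : ℝ) * Real.log 2) := by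
  classical
  have hx0 := (ne_of_form (hx 0)).2
  obtain ⟨V0, hV0⟩ := exists_V hx hx0
  obtain ⟨V, hV⟩ : ∃ V, V = V0 ∪ (sp (tt a x) ∪ T) := ⟨_, rfl⟩
  have hVm : ∀ v, v ∉ V → ∀ i, localHeight v (a i) x = 0 := by
    intro v hv i
    refine hV0 v ?_ i
    intro h
    apply hv
    rw [hV]
    exact Finset.mem_union_left _ h
  have hsub : sp (tt a x) ⊆ V := by
    rw [hV]
    exact Finset.subset_union_left.trans Finset.subset_union_right
  have hsubT : T ⊆ V := by
    rw [hV]
    exact Finset.subset_union_right.trans Finset.subset_union_right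
  have l12 := sum_localHeight_le (ha 1 2 (by decide)) V
  have l20 := sum_localHeight_le (ha 2 0 (by decide)) V
  have l01 := sum_localHeight_le (ha 0 1 (by decide)) V
  rw [log_nn, cnt_eq_V (T : Set (Pr K)) V hVm, Fin.sum_univ_three]
  have hTs : ∑ v ∈ T, Real.log (Nv v) = ∑ v ∈ V, if v ∈ T then Real.log (Nv v) else 0 := by
    rw [← Finset.sum_filter]
    refine Finset.sum_congr ?_ fun _ _ => rfl
    ext v
    rw [Finset.mem_filter]
    exact ⟨fun h => ⟨hsubT h, h⟩, fun h => h.2⟩
  have hspV : ∑ v ∈ sp (tt a x), Real.log (Nv v) =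
      ∑ v ∈ V, if v ∈ sp (tt a x) then Real.log (Nv v) else 0 := by
    rw [← Finset.sum_filter]
    refine Finset.sum_congr ?_ fun _ _ => rfl
    ext v
    rw [Finset.mem_filter]
    exact ⟨fun h => ⟨hsub h, h⟩, fun h => h.2⟩
  have hterm : ∀ v ∈ V, (if v ∈ sp (tt a x) then Real.log (Nv v) else 0) ≤
      (if v ∉ (T : Set (Pr K)) then
        ∑ i : Fin 3, min (localHeight v (a i) x) (Real.log (Nv v)) else 0) +
      (if v ∈ T then Real.log (Nv v) else 0) + (localHeight v (a 1) (a 2) +
        localHeight v (a 2) (a 0) + localHeight v (a 0) (a 1)) := by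
    intro v _
    have n1 := localHeight_nonneg v (ha 1 2 (by decide))
    have n2 := localHeight_nonneg v (ha 2 0 (by decide))
    have n3 := localHeight_nonneg v (ha 0 1 (by decide))
    have hl := (log_Nv_pos' v).le
    have hs : 0 ≤ ∑ i : Fin 3, min (localHeight v (a i) x) (Real.log (Nv v)) :=
      Finset.sum_nonneg fun i _ => term_nonneg v (hx i)
    by_cases hsp : v ∈ sp (tt a x)
    · rw [if_pos hsp]
      by_cases hT : v ∈ T
      · rw [if_pos hT, if_neg (by rw [Finset.mem_coe, not_not]; exact hT)]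
        linarith
      · rw [if_neg hT, if_pos (by rw [Finset.mem_coe]; exact hT)]
        rcases sp_tt_unif ha hx hsp with ⟨i, hi⟩ | h | h | h
        · have h1 : Real.log (Nv v) ≤
              ∑ i : Fin 3, min (localHeight v (a i) x) (Real.log (Nv v)) := by
            refine le_trans ?_ (Finset.single_le_sum (f := fun i : Fin 3 =>
              min (localHeight v (a i) x) (Real.log (Nv v))) (fun i _ => term_nonneg v (hx i))
              (Finset.mem_univ i))
            exact le_min (log_Nv_le_localHeight v (hx i) hi) le_rfl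
          linarith
        · have := log_Nv_le_localHeight v (ha 1 2 (by decide)) h
          linarith
        · have := log_Nv_le_localHeight v (ha 2 0 (by decide)) h
          linarith
        · have := log_Nv_le_localHeight v (ha 0 1 (by decide)) h
          linarith
    · rw [if_neg hsp]
      have h1 : 0 ≤ (if v ∉ (T : Set (Pr K)) then
          ∑ i : Fin 3, min (localHeight v (a i) x) (Real.log (Nv v)) else 0) := by
        split_ifs
        · exact le_rfl
        · exact hs
      have h2 : 0 ≤ (if v ∈ T then Real.log (Nv v) else 0) := by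
        split_ifs
        · exact hl
        · exact le_rfl
      linarith
  have hsum := Finset.sum_le_sum hterm
  rw [Finset.sum_add_distrib, Finset.sum_add_distrib, Finset.sum_add_distrib,
    Finset.sum_add_distrib] at hsum
  rw [hspV, hTs]
  linarith

omit [NumberField K] in
/-- the affine coordinate does not depend on the coordinates of the three points -/
theorem tt_smul (a : Fin 3 → Fin 2 → K) (c : Fin 3 → K) (hc : ∀ i, c i ≠ 0) (x : Fin 2 → K) :
    tt (fun i => c i • a i) x = tt a x := by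
  have h0 := hc 0
  have h1 := hc 1
  have h2 := hc 2
  have e1 : cc (fun i => c i • a i) 0 * form ((fun i => c i • a i) 0) x =
      (c 0 * c 1 * c 2) * (cc a 0 * form (a 0) x) := by
    show form (c 1 • a 1) (c 2 • a 2) * form (c 0 • a 0) x = _
    show _ = (c 0 * c 1 * c 2) * (form (a 1) (a 2) * form (a 0) x)
    unfold form
    simp only [Pi.smul_apply, smul_eq_mul]
    ring
  have e2 : cc (fun i => c i • a i) 1 * form ((fun i => c i • a i) 1) x =
      (c 0 * c 1 * c 2) * (cc a 1 * form (a 1) x) := by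
    show form (c 2 • a 2) (c 0 • a 0) * form (c 1 • a 1) x = _
    show _ = (c 0 * c 1 * c 2) * (form (a 2) (a 0) * form (a 1) x)
    unfold form
    simp only [Pi.smul_apply, smul_eq_mul]
    ring
  unfold tt
  rw [e1, e2, mul_div_mul_left _ _ (mul_ne_zero (mul_ne_zero h0 h1) h2)]

/-- the universal matrix -/
def uM : (Fin 2) × (Fin 2 × (Fin 2 × (Fin 2 × Fin 2))) → K := fun p =>
  if p.2.2.2.2 = 0 then
    (if p.2.2.1 = p.1 then
      (if p.2.2.2.1 = 0 ∧ p.2.1 = 1 then 1 else if p.2.2.2.1 = 1 ∧ p.2.1 = 0 then -1 else 0)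
      else 0)
  else
    (if p.2.1 = p.1 then
      (if p.2.2.1 = 0 ∧ p.2.2.2.1 = 1 then -1 else if p.2.2.1 = 1 ∧ p.2.2.2.1 = 0 then 1 else 0)
      else 0)

/-- the height of a point is at most that of the affine coordinate relative to three points, up to
the heights of the three points and a constant -/
theorem logHeight_le_tt_unif (K : Type) [Field K] [NumberField K] : ∃ c : ℝ, 0 ≤ c ∧
    ∀ (a : Fin 3 → Fin 2 → K), (∀ i j, i ≠ j → form (a i) (a j) ≠ 0) →
    ∀ x : Fin 2 → K, (∀ i, form (a i) x ≠ 0) →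
      Height.logHeight x ≤ c + ∑ i, Height.logHeight (a i) + hgt (tt a x) := by
  classical
  refine ⟨Height.totalWeight K * Real.log (Nat.card (Fin 2 × (Fin 2 × (Fin 2 × Fin 2)))) +
    Height.logHeight (uM (K := K)), ?_, fun a ha x hx => ?_⟩
  · have h1 : 0 ≤ Real.log (Nat.card (Fin 2 × (Fin 2 × (Fin 2 × Fin 2)))) :=
      Real.log_natCast_nonneg _
    have h2 := Height.logHeight_nonneg (uM (K := K))
    positivity
  obtain ⟨X', hX'⟩ : ∃ X' : Fin 2 → K, X' = ![cc a 0 * form (a 0) x, cc a 1 * form (a 1) x] :=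
    ⟨_, rfl⟩
  have hn0 : cc a 0 * form (a 0) x ≠ 0 := mul_ne_zero (cc_ne ha 0) (hx 0)
  have hn1 : cc a 1 * form (a 1) x ≠ 0 := mul_ne_zero (cc_ne ha 1) (hx 1)
  have hX'0 : X' ≠ 0 := by
    intro h
    have := congrFun h 0
    rw [hX'] at this
    exact hn0 this
  have hane : ∀ i, a i ≠ 0 := fun i => (ne_of_form (hx i)).1
  obtain ⟨U, hU⟩ : ∃ U : Fin 2 × (Fin 2 × (Fin 2 × Fin 2)) → K, U = fun p =>
      a 0 p.1 * ((fun r : Fin 2 × (Fin 2 × Fin 2) => a 1 r.1 *
        ((fun s : Fin 2 × Fin 2 => a 2 s.1 * X' s.2) r.2)) p.2) := ⟨_, rfl⟩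
  have hU3 : (fun s : Fin 2 × Fin 2 => a 2 s.1 * X' s.2) ≠ 0 := by
    intro h
    obtain ⟨i, hi⟩ := Function.ne_iff.1 (hane 2)
    obtain ⟨j, hj⟩ := Function.ne_iff.1 hX'0
    have := congrFun h (i, j)
    exact mul_ne_zero hi hj this
  have hU2 : (fun r : Fin 2 × (Fin 2 × Fin 2) => a 1 r.1 *
        ((fun s : Fin 2 × Fin 2 => a 2 s.1 * X' s.2) r.2)) ≠ 0 := by
    intro h
    obtain ⟨i, hi⟩ := Function.ne_iff.1 (hane 1)
    obtain ⟨j, hj⟩ := Function.ne_iff.1 hU3
    have := congrFun h (i, j)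
    exact mul_ne_zero hi hj this
  have hUh : Height.logHeight U = Height.logHeight (a 0) + (Height.logHeight (a 1) +
      (Height.logHeight (a 2) + Height.logHeight X')) := by
    rw [hU, Height.logHeight_fun_mul_eq (hane 0) hU2, Height.logHeight_fun_mul_eq (hane 1) hU3,
      Height.logHeight_fun_mul_eq (hane 2) hX'0]
  have hlin : (cc a 0 * cc a 1 * cc a 2) • x = (fun j : Fin 2 => ∑ p, uM (K := K) (j, p) * U p) := by
    have c0 : cc a 0 = a 1 0 * a 2 1 - a 1 1 * a 2 0 := rfl
    have c1 : cc a 1 = a 2 0 * a 0 1 - a 2 1 * a 0 0 := rfl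
    have c2 : cc a 2 = a 0 0 * a 1 1 - a 0 1 * a 1 0 := rfl
    have f0 : form (a 0) x = a 0 0 * x 1 - a 0 1 * x 0 := rfl
    have f1 : form (a 1) x = a 1 0 * x 1 - a 1 1 * x 0 := rfl
    funext j
    rw [Pi.smul_apply, smul_eq_mul, hU, hX']
    fin_cases j
    · simp only [Fintype.sum_prod_type, Fin.sum_univ_two, uM]
      simp [c0, c1, c2, f0, f1]
      ring
    · simp only [Fintype.sum_prod_type, Fin.sum_univ_two, uM]
      simp [c0, c1, c2, f0, f1]
      ring
  have hx1 : Height.logHeight x = Height.logHeight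
      (fun j : Fin 2 => ∑ p, uM (K := K) (j, p) * U p) := by
    rw [← hlin]
    exact (Height.logHeight_smul_eq_logHeight _
      (mul_ne_zero (mul_ne_zero (cc_ne ha 0) (cc_ne ha 1)) (cc_ne ha 2))).symm
  have h3 : Height.logHeight X' ≤ hgt (tt a x) := by
    have e : Height.logHeight X' = Height.logHeight₁ (tt a x) := by
      rw [hX']
      unfold tt
      rw [Height.logHeight₁_div_eq_logHeight]
    rw [e]
    exact logHeight_le (Pt_tt ha hx)
  rw [hx1]
  refine (Height.logHeight_linearMap_apply_le (uM (K := K)) U).trans ?_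
  rw [hUh, Fin.sum_univ_three]
  linarith

end Pool.Agent.Y557.NF
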