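import Pool.Agent.Y557.NF.SimA

/-!
The number of points of bounded height of the projective line over a number field: crude upper and
sharp lower bound (helper557).
-/

set_option autoImplicit false

namespace Pool.Agent.Y557.NF

open NumberField IsDedekindDomain Finset
open Pool.Agent.TH876.KR (form localHeight localHeight_nonneg localHeight_eq
  log_Nv_pos' m2 form_le good_finite Good m2_of_good recover0 recover1)
open Pool.Agent.H691R3 Pool.Agent.TH876.Loc
open Pool.Agent.Y730.QP (cnt PQ counting_le supp_finite term_nonneg)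
open Pool.Agent.Y728 Pool.Agent.Y728.AK

variable {K : Type} [Field K] [NumberField K]

/-- the points of height at most `B` -/
def HB (K : Type) [Field K] [NumberField K] (B : ℝ) : Set (Projectivization K (Fin 2 → K)) :=
  {P | ∃ (x : Fin 2 → K) (hx : x ≠ 0), P = Projectivization.mk K x hx ∧ Height.logHeight x ≤ B}

/-- the three standard points -/
def a3 (K : Type) [Field K] : Fin 3 → Fin 2 → K := ![![1, 0], ![0, 1], ![1, 1]]

theorem a3_ne (K : Type) [Field K] (i j : Fin 3) (hij : i ≠ j) : form (a3 K i) (a3 K j) ≠ 0 := by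
  unfold form a3
  fin_cases i <;> fin_cases j <;> first | exact absurd rfl hij | simp

theorem a3_ne0 (K : Type) [Field K] (i : Fin 3) : a3 K i ≠ 0 := by
  unfold a3
  intro h
  fin_cases i
  · exact one_ne_zero (congrFun h 0)
  · exact one_ne_zero (congrFun h 1)
  · exact one_ne_zero (congrFun h 0)

omit [NumberField K] in
/-- a point at which a form vanishes -/
theorem mk_eq_of_form {a x : Fin 2 → K} (ha : a ≠ 0) (hx : x ≠ 0) (h : form a x = 0) :
    Projectivization.mk K x hx = Projectivization.mk K a ha := by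
  rw [Projectivization.mk_eq_mk_iff']
  rcases ne_coord ha with h0 | h1
  · refine ⟨x 0 / a 0, ?_⟩
    unfold form at h
    funext j
    fin_cases j
    · show x 0 / a 0 * a 0 = x 0
      field_simp
    · show x 0 / a 0 * a 1 = x 1
      field_simp
      linear_combination -h
  · refine ⟨x 1 / a 1, ?_⟩
    unfold form at h
    funext j
    fin_cases j
    · show x 1 / a 1 * a 0 = x 0
      field_simp
      linear_combination h
    · show x 1 / a 1 * a 1 = x 1
      field_simp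

theorem few_small (K : Type) [Field K] [NumberField K] : ∃ C : ℝ, 0 < C ∧ ∀ B : ℝ, 0 ≤ B →
    (HB K B).Finite ∧ ((HB K B).ncard : ℝ) ≤ C * Real.exp (5 * B) := by
  classical
  obtain ⟨C0, hC0⟩ := cnt_le_logHeight (∅ : Set (Pr K)) (a3 K)
  obtain ⟨C1, hC1⟩ := line_final K ∅ Set.finite_empty 3 le_rfl (a3 K) (a3_ne K) 1 one_pos
  obtain ⟨F, hF⟩ : ∃ F : Finset (Projectivization K (Fin 2 → K)), F =
      Finset.univ.image fun i : Fin 3 => Projectivization.mk K (a3 K i) (a3_ne0 K i) := ⟨_, rfl⟩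
  have hFc : F.card ≤ 3 := by
    rw [hF]
    refine Finset.card_image_le.trans ?_
    rw [Finset.card_univ, Fintype.card_fin]
  refine ⟨|C1| * Real.exp (5 / 3 * |C0|) + 3, by positivity, fun B hB => ?_⟩
  have hX1 : 1 ≤ Real.exp (3 * B + |C0|) := Real.one_le_exp (by positivity)
  obtain ⟨hfin, hcard⟩ := hC1 _ hX1
  have hsub : HB K B ⊆ PtsQ ∅ (a3 K) (Real.exp (3 * B + |C0|)) ∪ F := by
    rintro P ⟨x, hx, e, hB'⟩
    by_cases h : ∀ i, form (a3 K i) x ≠ 0
    · left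
      refine ⟨x, hx, e, h, Real.exp_le_exp.2 ?_⟩
      have h1 := counting_le (∅ : Set (Pr K)) (a3_ne0 K) hx h
      have h2 := hC0 x hx h
      have h3 := le_abs_self C0
      push_cast at h2
      linarith
    · right
      push Not at h
      obtain ⟨i, hi⟩ := h
      rw [Finset.mem_coe, hF, Finset.mem_image]
      exact ⟨i, Finset.mem_univ _, by rw [e]; exact (mk_eq_of_form (a3_ne0 K i) hx hi).symm⟩
  have hfinU := hfin.union F.finite_toSet
  refine ⟨hfinU.subset hsub, ?_⟩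
  have h1 : ((HB K B).ncard : ℝ) ≤
      ((PtsQ ∅ (a3 K) (Real.exp (3 * B + |C0|))).ncard : ℝ) + 3 := by
    have h2 := (Set.ncard_le_ncard hsub hfinU).trans (Set.ncard_union_le _ _)
    rw [Set.ncard_coe_finset] at h2
    have h3 : (HB K B).ncard ≤ (PtsQ ∅ (a3 K) (Real.exp (3 * B + |C0|))).ncard + 3 := by omega
    exact_mod_cast h3
  have e1 : Real.exp (3 * B + |C0|) ^ (2 / ((3 : ℕ) : ℝ) + 1) =
      Real.exp (5 / 3 * |C0|) * Real.exp (5 * B) := by
    rw [← Real.exp_mul, ← Real.exp_add]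
    congr 1
    push_cast
    ring
  rw [e1] at hcard
  have h4 : C1 * (Real.exp (5 / 3 * |C0|) * Real.exp (5 * B)) ≤
      |C1| * (Real.exp (5 / 3 * |C0|) * Real.exp (5 * B)) :=
    mul_le_mul_of_nonneg_right (le_abs_self _) (by positivity)
  have h5 : 1 ≤ Real.exp (5 * B) := Real.one_le_exp (by positivity)
  calc ((HB K B).ncard : ℝ) ≤ |C1| * (Real.exp (5 / 3 * |C0|) * Real.exp (5 * B)) + 3 := by linarith
    _ ≤ |C1| * (Real.exp (5 / 3 * |C0|) * Real.exp (5 * B)) + 3 * Real.exp (5 * B) := by linarith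
    _ = _ := by ring

theorem many_small (K : Type) [Field K] [NumberField K] (δ : ℝ) (hδ : 0 < δ) (hδ1 : δ ≤ 1) :
    ∃ B0 : ℝ, ∀ B : ℝ, B0 ≤ B → Real.exp ((2 - δ) * B) ≤ ((HB K B).ncard : ℝ) := by
  classical
  obtain ⟨ε, hε⟩ : ∃ ε, ε = δ / 24 := ⟨_, rfl⟩
  have hε0 : 0 < ε := by rw [hε]; positivity
  obtain ⟨ν, C, hν, hνq, hC, hbig⟩ := line_big K ∅ Set.finite_empty 3 le_rfl (a3 K) (a3_ne K) ε hε0
  obtain ⟨C1, hC1⟩ := line_final K ∅ Set.finite_empty 3 le_rfl (a3 K) (a3_ne K) 1 one_pos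
  obtain ⟨δ', hδ'⟩ : ∃ δ', δ' = min (δ / 24) (ν / 2) := ⟨_, rfl⟩
  have hδ'0 : 0 < δ' := by rw [hδ']; exact lt_min (by positivity) (by positivity)
  have hδ'a : δ' ≤ δ / 24 := by rw [hδ']; exact min_le_left _ _
  have hδ'b : δ' ≤ ν / 2 := by rw [hδ']; exact min_le_right _ _
  obtain ⟨Z0, hZ01, hZ0⟩ := Pool.Agent.Y730.QP.lower K ∅ Set.finite_empty 3 le_rfl (a3 K)
    (a3_ne0 K) (a3_ne K) δ' hδ'0
  have htend : Filter.Tendsto (fun Z : ℝ => Z ^ (ν / 2)) Filter.atTop Filter.atTop :=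
    tendsto_rpow_atTop (by positivity)
  obtain ⟨Z1, hZ1⟩ := (Filter.eventually_atTop.1
    (htend.eventually (Filter.eventually_ge_atTop (2 * C))))
  have htend2 : Filter.Tendsto (fun Z : ℝ => Z ^ (δ / 24)) Filter.atTop Filter.atTop :=
    tendsto_rpow_atTop (by positivity)
  obtain ⟨Z2, hZ2⟩ := (Filter.eventually_atTop.1
    (htend2.eventually (Filter.eventually_ge_atTop 2)))
  obtain ⟨c, hc⟩ : ∃ c : ℝ, c = 1 / 3 + ε := ⟨_, rfl⟩
  have hc0 : 0 < c := by rw [hc]; positivity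
  obtain ⟨Z3, hZ3⟩ : ∃ Z3, Z3 = max (max 1 Z0) (max Z1 Z2) := ⟨_, rfl⟩
  have hZ31 : 1 ≤ Z3 := by rw [hZ3]; exact (le_max_left _ _).trans (le_max_left _ _)
  refine ⟨c * Real.log Z3, fun B hB => ?_⟩
  obtain ⟨Z, hZ⟩ : ∃ Z, Z = Real.exp (B / c) := ⟨_, rfl⟩
  have hZp : 0 < Z := by rw [hZ]; exact Real.exp_pos _
  have hZge : Z3 ≤ Z := by
    rw [hZ, ← Real.log_le_iff_le_exp (by linarith), le_div_iff₀ hc0]
    linarith
  have hz1 : 1 ≤ Z := hZ31.trans hZge
  have hz0 : Z0 ≤ Z := le_trans (by rw [hZ3]; exact (le_max_right _ _).trans (le_max_left _ _)) hZge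
  have hz1' : Z1 ≤ Z := le_trans (by rw [hZ3]; exact (le_max_left _ _).trans (le_max_right _ _)) hZge
  have hz2' : Z2 ≤ Z := le_trans (by rw [hZ3]; exact (le_max_right _ _).trans (le_max_right _ _)) hZge
  have hlogZ : c * Real.log Z = B := by
    rw [hZ, Real.log_exp]
    field_simp
  have k1 := hZ0 Z hz0
  have k2 := hbig Z hz1
  have k3 := hZ1 Z hz1'
  have k4 := hZ2 Z hz2'
  have hfinP : (PtsQ ∅ (a3 K) Z).Finite := (hC1 Z hz1).1
  have hB0 : 0 ≤ B := by
    rw [← hlogZ]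
    exact mul_nonneg hc0.le (Real.log_nonneg hz1)
  obtain ⟨C2, -, hC2⟩ := few_small K
  have hfinH := (hC2 B hB0).1
  have hsub : PQ ∅ (a3 K) Z ⊆ BigQ ∅ (a3 K) ε Z ∪ HB K B := by
    rintro P ⟨x, hx, e, hf, hcn⟩
    by_cases h : c * Real.log Z ≤ Height.logHeight x
    · left
      refine ⟨x, hx, e, hf, ?_, ?_⟩
      · rw [← Real.le_log_iff_exp_le hZp]
        exact (counting_le ∅ (a3_ne0 K) hx hf).trans hcn
      · rw [hc] at h
        push_cast
        exact h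
    · right
      push Not at h
      rw [hlogZ] at h
      exact ⟨x, hx, e, h.le⟩
  have hfinB : (BigQ ∅ (a3 K) ε Z).Finite := hfinP.subset (BigQ_sub ∅ (a3 K) ε Z)
  have k5 : ((PQ ∅ (a3 K) Z).ncard : ℝ) ≤ ((BigQ ∅ (a3 K) ε Z).ncard : ℝ) + ((HB K B).ncard : ℝ) := by
    exact_mod_cast (Set.ncard_le_ncard hsub (hfinB.union hfinH)).trans (Set.ncard_union_le _ _)
  -- comparison
  have hpw : ∀ b : ℝ, 0 < Z ^ b := fun b => Real.rpow_pos_of_pos hZp b
  have k6 : C * Z ^ (2 / ((3 : ℕ) : ℝ) - ν) ≤ Z ^ (2 / ((3 : ℕ) : ℝ) - δ') / 2 := by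
    have h1 : Z ^ (2 / ((3 : ℕ) : ℝ) - δ') = Z ^ (ν - δ') * Z ^ (2 / ((3 : ℕ) : ℝ) - ν) := by
      rw [← Real.rpow_add hZp]
      congr 1
      ring
    have h2 : Z ^ (ν / 2) ≤ Z ^ (ν - δ') := Real.rpow_le_rpow_of_exponent_le hz1 (by linarith)
    rw [h1]
    have h3 : 2 * C ≤ Z ^ (ν - δ') := k3.trans h2
    have h4 := mul_le_mul_of_nonneg_right h3 (hpw (2 / ((3 : ℕ) : ℝ) - ν)).le
    linarith
  have k7 : Z ^ (2 / ((3 : ℕ) : ℝ) - δ') / 2 ≤ ((HB K B).ncard : ℝ) := by linarith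
  refine le_trans ?_ k7
  have k8 : Real.exp ((2 - δ) * B) * Z ^ (δ / 24) ≤ Z ^ (2 / ((3 : ℕ) : ℝ) - δ') := by
    have e1 : Real.exp ((2 - δ) * B) = Z ^ ((2 - δ) * c) := by
      rw [Real.rpow_def_of_pos hZp, ← hlogZ]
      congr 1
      ring
    rw [e1, ← Real.rpow_add hZp]
    refine Real.rpow_le_rpow_of_exponent_le hz1 ?_
    rw [hc, hε]
    push_cast
    nlinarith
  have k9 : 0 < Real.exp ((2 - δ) * B) := Real.exp_pos _
  have k10 := mul_le_mul_of_nonneg_left k4 k9.le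
  linarith

end Pool.Agent.Y557.NF
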