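import Pool.Agent.Y557.NF.SimB

/-!
The points of the projective line over a number field which violate the inequality relative to some
finite set of points of small height: their number (helper557).
-/

set_option autoImplicit false

namespace Pool.Agent.Y557.NF

open NumberField IsDedekindDomain Finset
open Pool.Agent.TH876.KR (form localHeight localHeight_nonneg localHeight_eq
  log_Nv_pos' m2 form_le good_finite Good m2_of_good recover0 recover1 tt Pt_tt tt_inj log_nn tri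
  tri_ne)
open Pool.Agent.H691R3 Pool.Agent.TH876.Loc
open Pool.Agent.Y730.QP (cnt PQ counting_le supp_finite term_nonneg)
open Pool.Agent.Y728 Pool.Agent.Y728.AK

variable {K : Type} [Field K] [NumberField K]

/-- the points which violate the inequality relative to some finite set of points -/
def ES (K : Type) [Field K] [NumberField K] (ε η Λ : ℝ) : Set (Projectivization K (Fin 2 → K)) :=
  {P | ∃ (x : Fin 2 → K) (hx : x ≠ 0), P = Projectivization.mk K x hx ∧
    ∃ (q : ℕ) (α : Fin q → Fin 2 → K) (T : Finset (Pr K)), 3 ≤ q ∧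
      (∀ i j, i ≠ j → form (α i) (α j) ≠ 0) ∧ (∀ i, Height.logHeight (α i) ≤ η * Λ) ∧
      ∑ v ∈ T, Real.log (Nv v) ≤ η * Λ ∧ (∀ l, form (α l) x ≠ 0) ∧
      cnt (T : Set (Pr K)) α x ≤ q / 3 * Λ ∧
      cnt (T : Set (Pr K)) α x < (1 - ε) * q * Height.logHeight x}

/-- reduction to three points -/
theorem ES_three {ε η Λ : ℝ} {P : Projectivization K (Fin 2 → K)} (hP : P ∈ ES K ε η Λ) :
    ∃ (x : Fin 2 → K) (hx : x ≠ 0) (a : Fin 3 → Fin 2 → K) (T : Finset (Pr K)),
      P = Projectivization.mk K x hx ∧ (∀ i j, i ≠ j → form (a i) (a j) ≠ 0) ∧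
      (∀ i, Height.logHeight (a i) ≤ η * Λ) ∧ ∑ v ∈ T, Real.log (Nv v) ≤ η * Λ ∧
      (∀ i, form (a i) x ≠ 0) ∧ cnt (T : Set (Pr K)) a x ≤ Λ ∧
      cnt (T : Set (Pr K)) a x < 3 * (1 - ε) * Height.logHeight x := by
  obtain ⟨x, hx, e, q, α, T, hq, hα, hh, hT, hf, h1, h2⟩ := hP
  obtain ⟨s, hs⟩ := exists_tri (T : Set (Pr K)) hq hf hx
  have hq0 : (0 : ℝ) < q := by exact_mod_cast (by omega : 0 < q)
  refine ⟨x, hx, tri α s, T, e, tri_ne hq hα s, fun i => hh _, hT, fun i => hf _, ?_, ?_⟩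
  · refine hs.trans ?_
    have h3 : 3 / (q : ℝ) * cnt (T : Set (Pr K)) α x ≤ 3 / q * (q / 3 * Λ) :=
      mul_le_mul_of_nonneg_left h1 (by positivity)
    refine h3.trans (le_of_eq ?_)
    field_simp
  · refine lt_of_le_of_lt hs ?_
    have h3 : 3 / (q : ℝ) * cnt (T : Set (Pr K)) α x <
        3 / q * ((1 - ε) * q * Height.logHeight x) :=
      mul_lt_mul_of_pos_left h2 (by positivity)
    refine h3.trans_eq ?_
    field_simp

/-- a bound for the affine coordinates gives a bound for the points -/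
theorem ES_card {ε η Λ M : ℝ} (hη : 0 ≤ η) (hΛ : 0 ≤ Λ) {C : ℝ}
    (hC : ∀ B : ℝ, 0 ≤ B → (HB K B).Finite ∧ ((HB K B).ncard : ℝ) ≤ C * Real.exp (5 * B))
    (hM : ∀ F : Finset K, (∀ t ∈ F, ∃ (x : Fin 2 → K) (a : Fin 3 → Fin 2 → K)
      (T : Finset (Pr K)), t = tt a x ∧ (∀ i j, i ≠ j → form (a i) (a j) ≠ 0) ∧
      (∀ i, Height.logHeight (a i) ≤ η * Λ) ∧ ∑ v ∈ T, Real.log (Nv v) ≤ η * Λ ∧
      (∀ i, form (a i) x ≠ 0) ∧ cnt (T : Set (Pr K)) a x ≤ Λ ∧
      cnt (T : Set (Pr K)) a x < 3 * (1 - ε) * Height.logHeight x) → (F.card : ℝ) ≤ M) :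
    (ES K ε η Λ).Finite ∧ ((ES K ε η Λ).ncard : ℝ) ≤ (C * Real.exp (5 * (η * Λ))) ^ 3 * M := by
  classical
  obtain ⟨hfin, hcard⟩ := hC (η * Λ) (mul_nonneg hη hΛ)
  obtain ⟨A, hA⟩ : ∃ A : Finset (Projectivization K (Fin 2 → K)), A = hfin.toFinset := ⟨_, rfl⟩
  have hAc : (A.card : ℝ) ≤ C * Real.exp (5 * (η * Λ)) := by
    rw [hA, ← Set.ncard_eq_toFinset_card _ hfin]
    exact hcard
  have hM0 : 0 ≤ M := by
    have := hM ∅ (fun t ht => absurd ht (Finset.notMem_empty t))
    simpa using this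
  have hex : ∀ P : Projectivization K (Fin 2 → K), ∃ (x : Fin 2 → K) (a : Fin 3 → Fin 2 → K),
      P ∈ ES K ε η Λ → (∃ hx : x ≠ 0, P = Projectivization.mk K x hx) ∧
        (∀ i j, i ≠ j → form (a i) (a j) ≠ 0) ∧ (∀ i, form (a i) x ≠ 0) ∧
        ∃ T : Finset (Pr K), (∀ i, Height.logHeight (a i) ≤ η * Λ) ∧
          ∑ v ∈ T, Real.log (Nv v) ≤ η * Λ ∧ cnt (T : Set (Pr K)) a x ≤ Λ ∧
          cnt (T : Set (Pr K)) a x < 3 * (1 - ε) * Height.logHeight x := by
    intro P
    by_cases hP : P ∈ ES K ε η Λ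
    · obtain ⟨x, hx, a, T, e, h1, h2, h3, h4, h5, h6⟩ := ES_three hP
      exact ⟨x, a, fun _ => ⟨⟨hx, e⟩, h1, h4, T, h2, h3, h5, h6⟩⟩
    · exact ⟨0, fun _ => 0, fun h => absurd h hP⟩
  choose f g hfg using hex
  -- the three points
  obtain ⟨p1, hp1⟩ : ∃ p1 : Fin 2 → K, p1 ≠ 0 := ⟨![1, 0], fun h => one_ne_zero (congrFun h 0)⟩
  let pt : (Fin 2 → K) → Projectivization K (Fin 2 → K) := fun y =>
    if hy : y ≠ 0 then Projectivization.mk K y hy else Projectivization.mk K p1 hp1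
  have hpt : ∀ (y : Fin 2 → K) (hy : y ≠ 0), pt y = Projectivization.mk K y hy := fun y hy =>
    dif_pos hy
  have hbound : ∀ G : Finset (Projectivization K (Fin 2 → K)), (G : Set _) ⊆ ES K ε η Λ →
      (G.card : ℝ) ≤ (C * Real.exp (5 * (η * Λ))) ^ 3 * M := by
    intro G hG
    have h0 : ∀ P ∈ G, (fun i => pt (g P i)) ∈ Fintype.piFinset (fun _ : Fin 3 => A) := by
      intro P hP
      rw [Fintype.mem_piFinset]
      intro i
      obtain ⟨-, h1, h2, T, h3, -⟩ := hfg P (hG hP)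
      have hne : g P i ≠ 0 := (ne_of_form (h2 i)).1
      rw [hA, Set.Finite.mem_toFinset, hpt _ hne]
      exact ⟨g P i, hne, rfl, h3 i⟩
    have h1 : ∀ τ ∈ Fintype.piFinset (fun _ : Fin 3 => A),
        ((G.filter fun P => (fun i => pt (g P i)) = τ).card : ℝ) ≤ M := by
      intro τ _
      have hinj : Set.InjOn (fun P => tt (g P) (f P))
          (G.filter fun P => (fun i => pt (g P i)) = τ) := by
        intro P hP Q hQ hPQ
        have hP' := Finset.mem_filter.1 (Finset.mem_coe.1 hP)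
        have hQ' := Finset.mem_filter.1 (Finset.mem_coe.1 hQ)
        obtain ⟨⟨hP0, eP⟩, hPa, hPx, -⟩ := hfg P (hG hP'.1)
        obtain ⟨⟨hQ0, eQ⟩, hQa, hQx, -⟩ := hfg Q (hG hQ'.1)
        have hτ : ∀ i, pt (g P i) = pt (g Q i) := fun i => by
          rw [congrFun hP'.2 i, congrFun hQ'.2 i]
        have hPn : ∀ i, g P i ≠ 0 := fun i => (ne_of_form (hPx i)).1
        have hQn : ∀ i, g Q i ≠ 0 := fun i => (ne_of_form (hQx i)).1
        have hex : ∀ i, ∃ c : K, c • g Q i = g P i := by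
          intro i
          have h := hτ i
          rw [hpt _ (hPn i), hpt _ (hQn i), Projectivization.mk_eq_mk_iff'] at h
          exact h
        choose c hc using hex
        have hc0 : ∀ i, c i ≠ 0 := by
          intro i h
          apply hPn i
          rw [← hc i, h, zero_smul]
        have hgP : g P = fun i => c i • g Q i := funext fun i => (hc i).symm
        have hPQ' : tt (g P) (f P) = tt (g Q) (f Q) := hPQ
        rw [hgP, tt_smul (g Q) c hc0] at hPQ'
        have hQxP : ∀ i, form (g Q i) (f P) ≠ 0 := by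
          intro i h
          apply hPx i
          rw [← hc i]
          have e : form (c i • g Q i) (f P) = c i * form (g Q i) (f P) := by
            unfold form
            simp only [Pi.smul_apply, smul_eq_mul]
            ring
          rw [e, h, mul_zero]
        obtain ⟨k, hk⟩ := tt_inj hQa hQxP hQx hPQ'
        rw [eP, eQ, Projectivization.mk_eq_mk_iff']
        exact ⟨k, hk⟩
      rw [← Finset.card_image_of_injOn hinj]
      refine hM _ ?_
      intro t ht
      obtain ⟨P, hP, rfl⟩ := Finset.mem_image.1 ht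
      have hP' := Finset.mem_filter.1 hP
      obtain ⟨-, h2, h3, T, h4, h5, h6, h7⟩ := hfg P (hG hP'.1)
      exact ⟨f P, g P, T, rfl, h2, h4, h5, h3, h6, h7⟩
    have h2 : G.card = ∑ τ ∈ Fintype.piFinset (fun _ : Fin 3 => A),
        (G.filter fun P => (fun i => pt (g P i)) = τ).card :=
      Finset.card_eq_sum_card_fiberwise fun P hP => h0 P hP
    rw [h2]
    push_cast
    calc ∑ τ ∈ Fintype.piFinset (fun _ : Fin 3 => A),
          ((G.filter fun P => (fun i => pt (g P i)) = τ).card : ℝ)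
        ≤ ∑ _τ ∈ Fintype.piFinset (fun _ : Fin 3 => A), M := Finset.sum_le_sum h1
      _ = (A.card : ℝ) ^ 3 * M := by
          rw [Finset.sum_const, nsmul_eq_mul, Fintype.card_piFinset, Finset.prod_const,
            Finset.card_univ, Fintype.card_fin]
          push_cast
          ring
      _ ≤ _ := by
          refine mul_le_mul_of_nonneg_right ?_ hM0
          exact pow_le_pow_left₀ (Nat.cast_nonneg _) hAc 3
  have hfinE : (ES K ε η Λ).Finite := by
    by_contra hinf
    obtain ⟨G, hGV, hGc⟩ := Set.Infinite.exists_subset_card_eq hinf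
      (⌊(C * Real.exp (5 * (η * Λ))) ^ 3 * M⌋₊ + 1)
    have h1 := hbound G hGV
    have h2 := Nat.lt_floor_add_one ((C * Real.exp (5 * (η * Λ))) ^ 3 * M)
    rw [hGc] at h1
    push_cast at h1
    linarith
  refine ⟨hfinE, ?_⟩
  rw [Set.ncard_eq_toFinset_card _ hfinE]
  exact hbound hfinE.toFinset (by rw [Set.Finite.coe_toFinset])

/-- **few points violate the inequality relative to any finite set of points of small height** -/
theorem sim_upper (K : Type) [Field K] [NumberField K] (ε : ℝ) (hε : 0 < ε) (hε1 : ε ≤ 1 / 2) :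
    ∃ η₀ ν : ℝ, 0 < η₀ ∧ 0 < ν ∧ ν ≤ 1 / 3 ∧ ∀ η : ℝ, 0 ≤ η → η ≤ η₀ → ∃ C : ℝ, 0 < C ∧
      ∀ Λ : ℝ, 0 ≤ Λ → (ES K ε η Λ).Finite ∧
        ((ES K ε η Λ).ncard : ℝ) ≤ C * Real.exp ((2 / 3 - ν) * Λ) := by
  classical
  obtain ⟨c, hc, hh⟩ := logHeight_le_tt_unif K
  obtain ⟨ν1, hν1, C1, hC1, hAA⟩ := almost_allK K (ε / 12) (by positivity)
  obtain ⟨D, hD, hmain⟩ := mainK K (ε / 6) (by positivity)
  obtain ⟨C2, hC2, hfew⟩ := few_small K
  obtain ⟨c1, hc1⟩ : ∃ c1 : ℝ, c1 = 3 * ((Module.finrank ℚ K : ℝ) * Real.log 2) := ⟨_, rfl⟩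
  have hc10 : 0 ≤ c1 := by rw [hc1]; positivity
  obtain ⟨ν, hν⟩ : ∃ ν, ν = min (min (ε / 12) (ν1 / 2)) (1 / 3) := ⟨_, rfl⟩
  have hν0 : 0 < ν := by
    rw [hν]; exact lt_min (lt_min (by positivity) (by positivity)) (by norm_num)
  have hνa : ν ≤ ε / 12 := by rw [hν]; exact (min_le_left _ _).trans (min_le_left _ _)
  have hνb : ν ≤ ν1 / 2 := by rw [hν]; exact (min_le_left _ _).trans (min_le_right _ _)
  have hνc : ν ≤ 1 / 3 := by rw [hν]; exact min_le_right _ _
  refine ⟨min (ε / 300) (ν1 / 60), ν, lt_min (by positivity) (by positivity), hν0, hνc,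
    fun η hη hηle => ?_⟩
  have hηa : η ≤ ε / 300 := hηle.trans (min_le_left _ _)
  have hηb : η ≤ ν1 / 60 := hηle.trans (min_le_right _ _)
  -- the threshold
  obtain ⟨Λ0, hΛ0⟩ : ∃ Λ0 : ℝ, Λ0 = (c + c1) * (100 / ε) := ⟨_, rfl⟩
  have hΛ00 : 0 ≤ Λ0 := by rw [hΛ0]; positivity
  obtain ⟨B0, hB0⟩ : ∃ B0 : ℝ, B0 = D * Real.exp (((1 + 7 * η) * Λ0 + c1) * (2 / 3 + ε / 6)) :=
    ⟨_, rfl⟩
  have hB00 : 0 < B0 := by rw [hB0]; positivity
  refine ⟨C2 ^ 3 * (D * Real.exp (c1 * (2 / 3 + ε / 6)) + C1 * Real.exp (c1 * |2 / 3 - ν1|) + B0),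
    by positivity, fun Λ hΛ => ?_⟩
  have hkey := ES_card (K := K) (ε := ε) (η := η) (Λ := Λ) (C := C2)
    (M := (D * Real.exp (c1 * (2 / 3 + ε / 6)) + C1 * Real.exp (c1 * |2 / 3 - ν1|) + B0) *
      Real.exp ((2 / 3 - ν - 15 * η) * Λ)) hη hΛ hfew ?_
  · refine ⟨hkey.1, hkey.2.trans (le_of_eq ?_)⟩
    have e1 : Real.exp (5 * (η * Λ)) ^ 3 = Real.exp (15 * η * Λ) := by
      rw [← Real.exp_nat_mul]
      congr 1
      push_cast
      ring
    have e2 : Real.exp ((2 / 3 - ν) * Λ) =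
        Real.exp (15 * η * Λ) * Real.exp ((2 / 3 - ν - 15 * η) * Λ) := by
      rw [← Real.exp_add]
      congr 1
      ring
    rw [mul_pow, e1, e2]
    ring
  · intro F hF
    have hηΛ : 0 ≤ η * Λ := mul_nonneg hη hΛ
    -- the properties of the elements of `F`
    have hprop : ∀ t ∈ F, Pt t ∧ (Real.log (nn (sp t)) ≤ (1 - ε / 2 + 7 * η) * Λ + c1 ∨
        (Real.log (nn (sp t)) ≤ (1 + 7 * η) * Λ + c1 ∧
          (1 / 3 + ε / 6 - 3 * η) * Λ - c ≤ hgt t)) := by
      intro t ht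
      obtain ⟨x, a, T, e, ha, hha, hT, hx, h1, h2⟩ := hF t ht
      have k1 := log_nn_sp_le T ha hx
      have k2 := hh a ha x hx
      have k3 : ∑ i, Height.logHeight (a i) ≤ 3 * (η * Λ) := by
        rw [Fin.sum_univ_three]
        linarith [hha 0, hha 1, hha 2]
      rw [← e, ← hc1] at k1
      rw [← e] at k2
      refine ⟨by rw [e]; exact Pt_tt ha hx, ?_⟩
      rcases le_or_gt (cnt (T : Set (Pr K)) a x) ((1 - ε / 2) * Λ) with h3 | h3
      · left
        linarith
      · right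
        refine ⟨by linarith, ?_⟩
        have hpos : 0 < 3 * (1 - ε) := by linarith
        have h4 : (1 - ε / 2) * Λ ≤ 3 * (1 - ε) * Height.logHeight x := (h3.trans h2).le
        have h5 : (1 / 3 + ε / 6) * Λ ≤ Height.logHeight x := by
          have h6 : 3 * (1 - ε) * ((1 / 3 + ε / 6) * Λ) ≤ (1 - ε / 2) * Λ := by
            have : 3 * (1 - ε) * ((1 / 3 + ε / 6) * Λ) = (1 - ε / 2) * Λ - (ε ^ 2 / 2) * Λ := by ring
            rw [this]
            have : 0 ≤ ε ^ 2 / 2 * Λ := by positivity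
            linarith
          exact le_of_mul_le_mul_left (h6.trans h4) hpos
        linarith
    obtain ⟨Fa, hFa⟩ : ∃ Fa, Fa = F.filter fun t =>
      Real.log (nn (sp t)) ≤ (1 - ε / 2 + 7 * η) * Λ + c1 := ⟨_, rfl⟩
    obtain ⟨Fb, hFb⟩ : ∃ Fb, Fb = F.filter fun t =>
      ¬ Real.log (nn (sp t)) ≤ (1 - ε / 2 + 7 * η) * Λ + c1 := ⟨_, rfl⟩
    have hsplit : F.card = Fa.card + Fb.card := by
      rw [hFa, hFb]
      exact (Finset.card_filter_add_card_filter_not _).symm
    have hη300 : 7 * η ≤ ε / 12 := by linarith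
    have dA : (Fa.card : ℝ) ≤ D * Real.exp (c1 * (2 / 3 + ε / 6)) *
        Real.exp ((2 / 3 - ν - 15 * η) * Λ) := by
      have hX1 : 1 ≤ Real.exp ((1 - ε / 2 + 7 * η) * Λ + c1) := by
        refine Real.one_le_exp (add_nonneg (mul_nonneg ?_ hΛ) hc10)
        linarith
      have h1 := hmain _ hX1 Fa (fun t ht => by
        rw [hFa, Finset.mem_filter] at ht
        refine ⟨(hprop t ht.1).1, ?_⟩
        rw [← Real.log_le_iff_le_exp (nn_pos _)]
        exact ht.2)
      refine h1.trans ?_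
      rw [← Real.exp_mul, mul_assoc, ← Real.exp_add]
      refine mul_le_mul_of_nonneg_left (Real.exp_le_exp.2 ?_) hD.le
      have e1 : ((1 - ε / 2 + 7 * η) * Λ + c1) * (2 / 3 + ε / 6) =
          c1 * (2 / 3 + ε / 6) + (1 - ε / 2 + 7 * η) * (2 / 3 + ε / 6) * Λ := by ring
      rw [e1]
      have e2 : (1 - ε / 2 + 7 * η) * (2 / 3 + ε / 6) ≤ 2 / 3 - ν - 15 * η := by
        have h5 : 7 * η * (2 / 3 + ε / 6) ≤ 7 * η := by
          have : 7 * η * (2 / 3 + ε / 6) ≤ 7 * η * 1 :=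
            mul_le_mul_of_nonneg_left (by linarith) (by linarith)
          linarith
        have h6 : (1 - ε / 2) * (2 / 3 + ε / 6) ≤ 2 / 3 - ε / 6 := by nlinarith
        have h7 : (1 - ε / 2 + 7 * η) * (2 / 3 + ε / 6) =
          (1 - ε / 2) * (2 / 3 + ε / 6) + 7 * η * (2 / 3 + ε / 6) := by ring
        rw [h7]
        linarith
      have := mul_le_mul_of_nonneg_right e2 hΛ
      linarith
    have dB : (Fb.card : ℝ) ≤ (C1 * Real.exp (c1 * |2 / 3 - ν1|) + B0) *
        Real.exp ((2 / 3 - ν - 15 * η) * Λ) := by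
      have hXb1 : 1 ≤ Real.exp ((1 + 7 * η) * Λ + c1) :=
        Real.one_le_exp (add_nonneg (mul_nonneg (by linarith) hΛ) hc10)
      have hone : 1 ≤ Real.exp ((2 / 3 - ν - 15 * η) * Λ) := by
        refine Real.one_le_exp (mul_nonneg ?_ hΛ)
        linarith
      rcases lt_or_ge Λ Λ0 with hlt | hge
      · -- small `Λ`
        have hX1 : 1 ≤ Real.exp ((1 + 7 * η) * Λ0 + c1) :=
          Real.one_le_exp (add_nonneg (mul_nonneg (by linarith) hΛ00) hc10)
        have h1 := hmain _ hX1 Fb (fun t ht => by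
          rw [hFb, Finset.mem_filter] at ht
          obtain ⟨p1, p2⟩ := hprop t ht.1
          refine ⟨p1, ?_⟩
          rw [← Real.log_le_iff_le_exp (nn_pos _)]
          have h2 : (1 + 7 * η) * Λ ≤ (1 + 7 * η) * Λ0 :=
            mul_le_mul_of_nonneg_left hlt.le (by linarith)
          rcases p2 with h3 | h3
          · exact absurd h3 ht.2
          · linarith [h3.1])
        rw [← Real.exp_mul, ← hB0] at h1
        have h2 : 0 < C1 * Real.exp (c1 * |2 / 3 - ν1|) := by positivity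
        calc (Fb.card : ℝ) ≤ B0 := h1
          _ ≤ (C1 * Real.exp (c1 * |2 / 3 - ν1|) + B0) * 1 := by linarith
          _ ≤ _ := mul_le_mul_of_nonneg_left hone (by positivity)
      · have h1 := hAA _ hXb1 Fb (fun t ht => by
          rw [hFb, Finset.mem_filter] at ht
          obtain ⟨p1, p2⟩ := hprop t ht.1
          rcases p2 with h3 | ⟨h3, h4⟩
          · exact absurd h3 ht.2
          refine ⟨p1, ?_, ?_⟩
          · rw [← Real.log_le_iff_le_exp (nn_pos _)]
            exact h3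
          · rw [Real.log_exp]
            refine le_trans ?_ h4
            have h5 : (c + c1) * 100 / ε ≤ Λ := by
              rw [hΛ0] at hge
              have : (c + c1) * (100 / ε) = (c + c1) * 100 / ε := by ring
              linarith
            rw [div_le_iff₀ hε] at h5
            have h6 : (1 / 3 + ε / 12) * (7 * η) ≤ 7 * η := by
              have : (1 / 3 + ε / 12) * (7 * η) ≤ 1 * (7 * η) :=
                mul_le_mul_of_nonneg_right (by linarith) (by linarith)
              linarith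
            have h7 := mul_le_mul_of_nonneg_right h6 hΛ
            have h8 : (1 / 3 + ε / 12) * c1 ≤ c1 := by
              have : (1 / 3 + ε / 12) * c1 ≤ 1 * c1 :=
                mul_le_mul_of_nonneg_right (by linarith) hc10
              linarith
            have h9 : (10 * η) * Λ ≤ (ε / 30) * Λ := mul_le_mul_of_nonneg_right (by linarith) hΛ
            have h10 : (1 / 3 + ε / 12) * ((1 + 7 * η) * Λ + c1) =
              (1 / 3 + ε / 12) * Λ + (1 / 3 + ε / 12) * (7 * η) * Λ + (1 / 3 + ε / 12) * c1 := by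
              ring
            rw [h10]
            nlinarith)
        refine h1.trans ?_
        have h2 : Real.exp ((1 + 7 * η) * Λ + c1) ^ (2 / 3 - ν1) ≤
            Real.exp (c1 * |2 / 3 - ν1|) * Real.exp ((2 / 3 - ν - 15 * η) * Λ) := by
          rw [← Real.exp_mul, ← Real.exp_add]
          refine Real.exp_le_exp.2 ?_
          have e1 : ((1 + 7 * η) * Λ + c1) * (2 / 3 - ν1) =
              c1 * (2 / 3 - ν1) + (1 + 7 * η) * (2 / 3 - ν1) * Λ := by ring
          rw [e1]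
          have e2 : (1 + 7 * η) * (2 / 3 - ν1) ≤ 2 / 3 - ν - 15 * η := by
            have h3 : (1 + 7 * η) * (2 / 3 - ν1) = 2 / 3 - ν1 + 14 / 3 * η - 7 * η * ν1 := by ring
            have h4 : 0 ≤ η * ν1 := mul_nonneg hη hν1.le
            rw [h3]
            linarith
          have h3 := mul_le_mul_of_nonneg_right e2 hΛ
          have h4 := mul_le_mul_of_nonneg_left (le_abs_self (2 / 3 - ν1)) hc10
          linarith
        have h3 := mul_le_mul_of_nonneg_left h2 hC1.le
        have h4 : 0 ≤ B0 * Real.exp ((2 / 3 - ν - 15 * η) * Λ) := by positivity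
        have h5 : (C1 * Real.exp (c1 * |2 / 3 - ν1|) + B0) * Real.exp ((2 / 3 - ν - 15 * η) * Λ) =
            C1 * (Real.exp (c1 * |2 / 3 - ν1|) * Real.exp ((2 / 3 - ν - 15 * η) * Λ)) +
            B0 * Real.exp ((2 / 3 - ν - 15 * η) * Λ) := by ring
        rw [h5]
        linarith
    have hFF : (F.card : ℝ) = Fa.card + Fb.card := by exact_mod_cast hsplit
    rw [hFF]
    have : (D * Real.exp (c1 * (2 / 3 + ε / 6)) + C1 * Real.exp (c1 * |2 / 3 - ν1|) + B0) *
        Real.exp ((2 / 3 - ν - 15 * η) * Λ) =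
        D * Real.exp (c1 * (2 / 3 + ε / 6)) * Real.exp ((2 / 3 - ν - 15 * η) * Λ) +
        (C1 * Real.exp (c1 * |2 / 3 - ν1|) + B0) * Real.exp ((2 / 3 - ν - 15 * η) * Λ) := by ring
    rw [this]
    linarith

end Pool.Agent.Y557.NF
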