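import Pool.Agent.Y557.NF.SimC

/-!
The points of the projective line over a number field with small counting function relative to a
finite set of points of small height: lower bound for their number (helper557).
-/

set_option autoImplicit false

namespace Pool.Agent.Y557.NF

open NumberField IsDedekindDomain Finset
open Pool.Agent.TH876.KR (form localHeight localHeight_nonneg localHeight_eq
  log_Nv_pos' m2 form_le good_finite Good m2_of_good recover0 recover1)
open Pool.Agent.H691R3 Pool.Agent.TH876.Loc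
open Pool.Agent.Y730.QP (cnt PQ counting_le supp_finite term_nonneg)
open Pool.Agent.Y728 Pool.Agent.Y728.AK

variable {K : Type} [Field K] [NumberField K]

/-- **many points have a small counting function, uniformly in the finite set of points** -/
theorem sim_lower (K : Type) [Field K] [NumberField K] (ν η : ℝ) (hν : 0 < ν) (hν1 : ν ≤ 1 / 3)
    (hη : 0 < η) (hην : η ≤ ν / 24) :
    ∃ Λ0 : ℝ, 0 ≤ Λ0 ∧ ∀ Λ : ℝ, Λ0 ≤ Λ → ∀ (q : ℕ) (α : Fin q → Fin 2 → K) (T : Set (Pr K)),
      3 ≤ q → (∀ i j, i ≠ j → form (α i) (α j) ≠ 0) →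
      (∀ i, Height.logHeight (α i) ≤ η * Λ) → T.Finite →
      Real.exp ((2 / 3 - ν) * Λ) ≤ ((PQ T α (Real.exp (q / 3 * Λ))).ncard : ℝ) := by
  classical
  obtain ⟨C2, hC2, hfew⟩ := few_small K
  obtain ⟨B0, hB0⟩ := many_small K ν hν (by linarith)
  obtain ⟨c, hc⟩ : ∃ c : ℝ, c = (Module.finrank ℚ K : ℝ) * Real.log 2 := ⟨_, rfl⟩
  have hc0 : 0 ≤ c := by rw [hc]; positivity
  obtain ⟨Λ0, hΛ0⟩ : ∃ Λ0 : ℝ, Λ0 = max (max (c / η) (6 * |B0|))
      (max ((2 / ν) * Real.log (2 * C2 + 2)) 0) := ⟨_, rfl⟩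
  refine ⟨Λ0, by rw [hΛ0]; exact le_max_of_le_right (le_max_right _ _),
    fun Λ hΛ q α T hq hα hh hT => ?_⟩
  have hΛ1 : c / η ≤ Λ := le_trans (by rw [hΛ0]; exact (le_max_left _ _).trans (le_max_left _ _)) hΛ
  have hΛ2 : 6 * |B0| ≤ Λ :=
    le_trans (by rw [hΛ0]; exact (le_max_right _ _).trans (le_max_left _ _)) hΛ
  have hΛ3 : (2 / ν) * Real.log (2 * C2 + 2) ≤ Λ :=
    le_trans (by rw [hΛ0]; exact (le_max_left _ _).trans (le_max_right _ _)) hΛ
  have hΛ4 : 0 ≤ Λ := le_trans (by rw [hΛ0]; exact (le_max_right _ _).trans (le_max_right _ _)) hΛ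
  have hcΛ : c ≤ η * Λ := by
    rw [div_le_iff₀ hη] at hΛ1
    linarith
  have hα0 : ∀ i, α i ≠ 0 := by
    intro i h
    obtain ⟨j, hj⟩ : ∃ j : Fin q, i ≠ j := by
      by_cases h : i = ⟨0, by omega⟩
      · refine ⟨⟨1, by omega⟩, ?_⟩
        rw [h]
        intro h'
        have := congrArg Fin.val h'
        simp at this
      · exact ⟨_, h⟩
    apply hα i j hj
    rw [h]
    unfold form
    simp
  -- the number of points is small
  obtain ⟨hfin1, hcard1⟩ := hfew (η * Λ) (mul_nonneg hη.le hΛ4)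
  have hφ : Function.Injective fun i => Projectivization.mk K (α i) (hα0 i) := by
    intro i j hij
    by_contra hne
    apply hα i j hne
    have hij' : Projectivization.mk K (α i) (hα0 i) = Projectivization.mk K (α j) (hα0 j) := hij
    rw [Projectivization.mk_eq_mk_iff'] at hij'
    obtain ⟨k, hk⟩ := hij'
    rw [← hk]
    unfold form
    simp only [Pi.smul_apply, smul_eq_mul]
    ring
  obtain ⟨F, hF⟩ : ∃ F : Finset (Projectivization K (Fin 2 → K)), F =
      Finset.univ.image fun i => Projectivization.mk K (α i) (hα0 i) := ⟨_, rfl⟩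
  have hFc : F.card = q := by
    rw [hF, Finset.card_image_of_injective _ hφ, Finset.card_univ, Fintype.card_fin]
  have hFs : (F : Set (Projectivization K (Fin 2 → K))) ⊆ HB K (η * Λ) := by
    intro P hP
    rw [hF, Finset.mem_coe, Finset.mem_image] at hP
    obtain ⟨i, -, rfl⟩ := hP
    exact ⟨α i, hα0 i, rfl, hh i⟩
  have hqle : (q : ℝ) ≤ C2 * Real.exp (5 * (η * Λ)) := by
    refine le_trans ?_ hcard1
    rw [← hFc]
    have := Set.ncard_le_ncard hFs hfin1
    rw [Set.ncard_coe_finset] at this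
    exact_mod_cast this
  -- the points of small height
  have hBΛ : B0 ≤ (1 / 3 - 2 * η) * Λ := by
    have h1 : (1 / 3 - 2 * η) * Λ ≥ 1 / 6 * Λ :=
      mul_le_mul_of_nonneg_right (by linarith) hΛ4
    have h2 := le_abs_self B0
    linarith
  have hmany := hB0 _ hBΛ
  have hsub : HB K ((1 / 3 - 2 * η) * Λ) ⊆ PQ T α (Real.exp (q / 3 * Λ)) ∪ F := by
    rintro P ⟨x, hx, e, hB'⟩
    by_cases h : ∀ i, form (α i) x ≠ 0
    · left
      refine ⟨x, hx, e, h, ?_⟩
      rw [Real.log_exp, cnt_eq_sum T h hx]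
      have h1 : ∀ i, cnt1 T (α i) x ≤ 1 / 3 * Λ := by
        intro i
        have h2 := cnt1_le T (h i)
        have h3 := hh i
        rw [← hc] at h2
        linarith
      calc ∑ i, cnt1 T (α i) x ≤ ∑ _i : Fin q, 1 / 3 * Λ := Finset.sum_le_sum fun i _ => h1 i
        _ = q / 3 * Λ := by
            rw [Finset.sum_const, Finset.card_univ, Fintype.card_fin, nsmul_eq_mul]
            ring
    · right
      push Not at h
      obtain ⟨i, hi⟩ := h
      rw [Finset.mem_coe, hF, Finset.mem_image]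
      exact ⟨i, Finset.mem_univ _, by rw [e]; exact (mk_eq_of_form (hα0 i) hx hi).symm⟩
  have hq0 : (0 : ℝ) < q := by exact_mod_cast (by omega : 0 < q)
  obtain ⟨C3, hC3⟩ := Pool.Agent.Y730.QP.upper K T hT q hq α hα0 hα 1 one_pos
  have hfinP := (hC3 (Real.exp (q / 3 * Λ)) (Real.one_le_exp (by positivity))).1
  have h1 : ((HB K ((1 / 3 - 2 * η) * Λ)).ncard : ℝ) ≤
      ((PQ T α (Real.exp (q / 3 * Λ))).ncard : ℝ) + q := by
    have h2 := (Set.ncard_le_ncard hsub (hfinP.union F.finite_toSet)).trans (Set.ncard_union_le _ _)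
    rw [Set.ncard_coe_finset, hFc] at h2
    exact_mod_cast h2
  -- comparison
  have h2 : Real.exp ((2 / 3 - ν / 2) * Λ) ≤ Real.exp ((2 - ν) * ((1 / 3 - 2 * η) * Λ)) := by
    refine Real.exp_le_exp.2 ?_
    rw [← mul_assoc]
    refine mul_le_mul_of_nonneg_right ?_ hΛ4
    nlinarith
  have h3 : C2 * Real.exp (5 * (η * Λ)) ≤ C2 * Real.exp ((2 / 3 - ν) * Λ) := by
    refine mul_le_mul_of_nonneg_left (Real.exp_le_exp.2 ?_) hC2.le
    rw [← mul_assoc]
    refine mul_le_mul_of_nonneg_right ?_ hΛ4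
    linarith
  have h4 : (C2 + 1) * Real.exp ((2 / 3 - ν) * Λ) ≤ Real.exp ((2 / 3 - ν / 2) * Λ) := by
    have e1 : Real.exp ((2 / 3 - ν / 2) * Λ) =
        Real.exp (ν / 2 * Λ) * Real.exp ((2 / 3 - ν) * Λ) := by
      rw [← Real.exp_add]
      congr 1
      ring
    rw [e1]
    refine mul_le_mul_of_nonneg_right ?_ (Real.exp_pos _).le
    have h5 : Real.log (2 * C2 + 2) ≤ ν / 2 * Λ := by
      have h6 : (2 / ν) * Real.log (2 * C2 + 2) * (ν / 2) = Real.log (2 * C2 + 2) := by
        field_simp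
      have h7 := mul_le_mul_of_nonneg_right hΛ3 (by positivity : 0 ≤ ν / 2)
      linarith
    rw [Real.log_le_iff_le_exp (by positivity)] at h5
    linarith
  have h5 : 0 < Real.exp ((2 / 3 - ν) * Λ) := Real.exp_pos _
  nlinarith

end Pool.Agent.Y557.NF
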