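import Pool.Agent.Y557.NF.AbsCurve
import Pool.Agent.TH876.TM.Tuples

/-!
Integral tuples on a rational curve over the rational numbers: their radical and their height
(helper557).
-/

set_option autoImplicit false

namespace Pool.Agent.Y557.NF

open NumberField IsDedekindDomain Finset Polynomial
open Pool.Agent.H691R3 Pool.Agent.TH876.Loc
open Pool.Agent.TH876.TM (supp Tuples_supp_smul Tuples_mem Tuples_rad Tuples_prim Tuples_eq_one
  Pairs_eq_one Pairs_pv_lt Pairs_inj Pairs_norm)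
open Pool.Agent.Y728.AK (fv_lt_iff)

variable {n : ℕ}

theorem exists_pv {p : ℕ} (hp : p.Prime) : ∃ v : Pr ℚ, pv v = p := by
  have h0 : ¬ IsUnit ((p : ℕ) : 𝓞 ℚ) := by
    intro h
    have h1 : IsUnit (Rat.ringOfIntegersEquiv ((p : ℕ) : 𝓞 ℚ)) := h.map Rat.ringOfIntegersEquiv
    rw [map_natCast] at h1
    exact (Nat.prime_iff_prime_int.1 hp).not_isUnit h1
  obtain ⟨I, hI, h3⟩ := exists_max_ideal_of_mem_nonunits (mem_nonunits_iff.2 h0)
  have hne : I ≠ ⊥ := by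
    rintro rfl
    rw [Ideal.mem_bot] at h3
    exact hp.ne_zero (by exact_mod_cast h3)
  obtain ⟨v, hv⟩ : ∃ v : Pr ℚ, v.asIdeal = I := ⟨⟨I, hI.isPrime, hne⟩, rfl⟩
  rw [← hv] at h3
  refine ⟨v, ?_⟩
  by_contra hne
  have hcop : IsCoprime ((pv v : ℕ) : ℤ) (p : ℤ) :=
    Nat.isCoprime_iff_coprime.2 ((Nat.coprime_primes (pv_prime v) hp).2 hne)
  obtain ⟨a, b, hab⟩ := hcop
  have h4 : (a : 𝓞 ℚ) * ((pv v : ℕ) : 𝓞 ℚ) + (b : 𝓞 ℚ) * ((p : ℕ) : 𝓞 ℚ) = 1 := by
    exact_mod_cast congrArg (Int.cast : ℤ → 𝓞 ℚ) hab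
  have h5 : (1 : 𝓞 ℚ) ∈ v.asIdeal := by
    rw [← h4]
    exact Ideal.add_mem _ (Ideal.mul_mem_left _ _ (pv_mem v)) (Ideal.mul_mem_left _ _ h3)
  exact v.isPrime.ne_top ((Ideal.eq_top_iff_one _).2 h5)

/-- the greatest common divisor is one -/
def Prim (z : Fin n → ℤ) : Prop := ∀ d : ℤ, (∀ i, d ∣ z i) → IsUnit d

theorem mem_supp_of_dvd {z : Fin n → ℤ} (hp : Prim z) {p : ℕ}
    (h : p ∈ (∏ i, z i).natAbs.primeFactors) :
    ∃ v ∈ supp (fun i => (z i : ℚ)), pv v = p := by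
  have hpp := Nat.prime_of_mem_primeFactors h
  obtain ⟨v, hv⟩ := exists_pv hpp
  refine ⟨v, ?_, hv⟩
  have h1 : (p : ℤ) ∣ ∏ i, z i := Int.natCast_dvd.2 (Nat.dvd_of_mem_primeFactors h)
  obtain ⟨i, -, hi⟩ := (Nat.prime_iff_prime_int.1 hpp).exists_mem_finset_dvd h1
  obtain ⟨j, hj⟩ : ∃ j, ¬ (p : ℤ) ∣ z j := by
    by_contra hcon
    push Not at hcon
    have h2 := hp p hcon
    exact (Nat.prime_iff_prime_int.1 hpp).not_isUnit h2
  have e1 : fv v (z j : ℚ) = 1 := by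
    refine Pairs_eq_one v _ ?_
    rw [hv]
    intro h2
    exact hj (Int.natCast_dvd.2 h2)
  have e2 : fv v (z i : ℚ) < 1 := by
    obtain ⟨m, hm⟩ := hi
    rw [hm]
    push_cast
    rw [map_mul]
    have h3 := Pairs_pv_lt v
    rw [hv] at h3
    have h4 : fv v (m : ℚ) ≤ 1 := by
      have : fv v (((m : 𝓞 ℚ) : ℚ)) ≤ 1 := NumberField.FinitePlace.norm_le_one ℚ v (m : 𝓞 ℚ)
      simpa using this
    calc fv v ((p : ℕ) : ℚ) * fv v (m : ℚ) ≤ fv v ((p : ℕ) : ℚ) * 1 :=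
          mul_le_mul_of_nonneg_left h4 ((fv v).nonneg _)
      _ < 1 := by rw [mul_one]; exact h3
  refine ⟨i, j, fun h2 => ?_⟩
  have h3 : fv v (z i : ℚ) = fv v (z j : ℚ) := by
    refine le_antisymm ?_ ?_
    · rw [← not_lt, fv_lt_iff, h2]
      exact lt_irrefl _
    · rw [← not_lt, fv_lt_iff, h2]
      exact lt_irrefl _
  rw [h3, e1] at e2
  exact lt_irrefl _ e2

/-- the radical of the product of the coordinates -/
noncomputable def rz (z : Fin n → ℤ) : ℝ := ((∏ p ∈ (∏ i, z i).natAbs.primeFactors, p : ℕ) : ℝ)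

theorem rz_pos (z : Fin n → ℤ) : 0 < rz z := by
  unfold rz
  have : 0 < ∏ p ∈ (∏ i, z i).natAbs.primeFactors, p :=
    Finset.prod_pos fun p hp => (Nat.prime_of_mem_primeFactors hp).pos
  exact_mod_cast this

theorem log_rz {P : Fin n → ℚ[X]} {z : Fin n → ℤ} (hz : ∀ i, z i ≠ 0) (hp : Prim z) {t r : ℚ}
    (ht : ∀ i, (z i : ℚ) = r * (P i).eval t) (hr : r ≠ 0) : rd P t = Real.log (rz z) := by
  classical
  have hsup : ∀ v ∈ supp (fun i => (P i).eval t), pv v ∈ (∏ i, z i).natAbs.primeFactors :=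
    fun v hv => Tuples_mem hz (Tuples_supp_smul hr ht hv)
  have h1 := Tuples_rad hsup
  refine le_antisymm ?_ ?_
  · rw [Real.le_log_iff_exp_le (rz_pos z)]
    exact h1
  · have hfin : (supp (fun i => (P i).eval t)).Finite := by
      refine supp_fin _ fun i hi => ?_
      have := ht i
      rw [hi, mul_zero] at this
      exact hz i (by exact_mod_cast this)
    have h2 : (∏ i, z i).natAbs.primeFactors ⊆ hfin.toFinset.image pv := by
      intro p hp'
      obtain ⟨v, hv, rfl⟩ := mem_supp_of_dvd hp hp'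
      refine Finset.mem_image.2 ⟨v, ?_, rfl⟩
      rw [Set.Finite.mem_toFinset]
      refine Tuples_supp_smul (r := r⁻¹) (inv_ne_zero hr) (fun i => ?_) hv
      rw [ht i, inv_mul_cancel_left₀ hr]
    have h3 : ∏ p ∈ (∏ i, z i).natAbs.primeFactors, p ≤ ∏ p ∈ hfin.toFinset.image pv, p := by
      refine Finset.prod_le_prod_of_subset_of_one_le' h2 fun p hp' _ => ?_
      obtain ⟨v, -, rfl⟩ := Finset.mem_image.1 hp'
      exact (pv_prime v).one_le
    rw [Finset.prod_image (fun v _ v' _ hvv => Pairs_inj hvv)] at h3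
    unfold rd
    rw [finsum_mem_eq_finite_toFinset_sum _ hfin]
    have h4 : rz z ≤ ∏ v ∈ hfin.toFinset, (pv v : ℝ) := by
      unfold rz
      exact_mod_cast h3
    have h5 := Real.log_le_log (rz_pos z) h4
    rw [Real.log_prod fun v _ => by
      have := (pv_prime v).pos
      positivity] at h5
    refine h5.trans (Finset.sum_le_sum fun v _ => ?_)
    refine Real.log_le_log (by exact_mod_cast (pv_prime v).pos) ?_
    exact_mod_cast pv_le v

/-- the largest absolute value of a coordinate -/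
noncomputable def mz (z : Fin n → ℤ) : ℝ := ((⨆ i, |z i| : ℤ) : ℝ)

theorem log_mz {P : Fin n → ℚ[X]} {z : Fin n → ℤ} (hn : 0 < n) (hp : Prim z) {t r : ℚ}
    (ht : ∀ i, (z i : ℚ) = r * (P i).eval t) (hr : r ≠ 0) :
    Height.logHeight (fun i => (P i).eval t) = Real.log (mz z) := by
  have : Nonempty (Fin n) := ⟨⟨0, hn⟩⟩
  have hg : Finset.univ.gcd z = 1 := by
    have h1 : IsUnit (Finset.univ.gcd z) := hp _ fun i => Finset.gcd_dvd (Finset.mem_univ i)
    rw [← Finset.normalize_gcd]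
    exact normalize_eq_one.2 h1
  have h2 := Rat.logHeight_eq_max_abs_of_gcd_eq_one hg
  have h3 : (((↑) : ℤ → ℚ) ∘ z) = r • fun i => (P i).eval t := by
    funext i
    rw [Pi.smul_apply, smul_eq_mul]
    exact ht i
  rw [h3, Height.logHeight_smul_eq_logHeight _ hr] at h2
  exact h2

theorem exists_prim (x : Fin n → ℚ) (hx : x ≠ 0) : ∃ (z : Fin n → ℤ) (r : ℚ), r ≠ 0 ∧
    (∀ i, (z i : ℚ) = r * x i) ∧ Prim z := by
  classical
  obtain ⟨i0, hi0⟩ : ∃ i, x i ≠ 0 := by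
    by_contra hcon
    push Not at hcon
    exact hx (funext hcon)
  obtain ⟨y, hy⟩ : ∃ y : Fin n → ℤ, y = fun i => (x i).num * ∏ j ∈ univ.erase i, ((x j).den : ℤ) :=
    ⟨_, rfl⟩
  obtain ⟨d, hd⟩ : ∃ d : ℚ, d = ∏ j, ((x j).den : ℚ) := ⟨_, rfl⟩
  have hd0 : d ≠ 0 := by
    rw [hd]
    exact Finset.prod_ne_zero_iff.2 fun j _ => by exact_mod_cast (x j).den_nz
  have hyx : ∀ i, (y i : ℚ) = d * x i := by
    intro i
    rw [hy, hd, ← Finset.mul_prod_erase univ (fun j => ((x j).den : ℚ)) (Finset.mem_univ i)]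
    push_cast
    have h3 : x i * (x i).den = (x i).num := Rat.mul_den_eq_num (x i)
    rw [← h3]
    ring
  obtain ⟨z, hz, hz1⟩ := Finset.extract_gcd y (s := univ) ⟨i0, Finset.mem_univ i0⟩
  obtain ⟨g, hg⟩ : ∃ g, g = univ.gcd y := ⟨_, rfl⟩
  rw [← hg] at hz
  have hg0 : g ≠ 0 := by
    rintro rfl
    have h1 := hz i0 (Finset.mem_univ i0)
    rw [zero_mul] at h1
    have h2 := hyx i0
    rw [h1, Int.cast_zero] at h2
    exact mul_ne_zero hd0 hi0 h2.symm
  have hgQ : (g : ℚ) ≠ 0 := by exact_mod_cast hg0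
  refine ⟨z, (g : ℚ)⁻¹ * d, mul_ne_zero (inv_ne_zero hgQ) hd0, fun i => ?_, fun e he => ?_⟩
  · rw [mul_assoc, ← hyx i, hz i (Finset.mem_univ i)]
    push_cast
    rw [inv_mul_cancel_left₀ hgQ]
  · have h1 : e ∣ univ.gcd z := Finset.dvd_gcd fun i _ => he i
    rw [hz1] at h1
    exact isUnit_of_dvd_one h1

end Pool.Agent.Y557.NF
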